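import Pool.Agent.Helper80.OF.S0

/-!
# OFS-RF1: the reflection `(s; x, y) ↦ (s; y, x)` from the surface of (α, β) to the surface of (β, α)
-/

set_option autoImplicit false

open MeasureTheory
open scoped ComplexConjugate

namespace Pool.Agent.Helper96.OF

variable {X : Type} {α β : Equiv.Perm X}

theorem zeta_swap (α β : Equiv.Perm X) : zeta β α = (zeta α β)⁻¹ := by
  simp only [zeta, mul_inv_rev, inv_inv, mul_assoc]

/-- swap of coordinates as a continuous linear equivalence -/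
private noncomputable def rfsw : (ℝ × ℝ) ≃L[ℝ] (ℝ × ℝ) := ContinuousLinearEquiv.prodComm ℝ ℝ ℝ

private theorem rfsw_apply (p : ℝ × ℝ) : rfsw p = (p.2, p.1) := rfl

private theorem rf_fderiv (g : ℝ × ℝ → ℂ) (p v : ℝ × ℝ) :
    fderiv ℝ (fun q : ℝ × ℝ => g (q.2, q.1)) p v = fderiv ℝ g (p.2, p.1) (v.2, v.1) := by
  have h : (fun q : ℝ × ℝ => g (q.2, q.1)) = g ∘ rfsw := rfl
  rw [h, ContinuousLinearEquiv.comp_right_fderiv]
  rfl

private theorem rf_unitSq {p : ℝ × ℝ} (hp : p ∈ unitSq) : (p.2, p.1) ∈ unitSq :=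
  ⟨hp.2, hp.1⟩

private theorem rf_isOpen_unitSq : IsOpen unitSq := isOpen_Ioo.prod isOpen_Ioo

theorem nice_rfN {f : X → ℝ × ℝ → ℂ} {c : X → ℂ} (hf : Nice β α f c) : Nice α β (rfN f) c := by
  have hc1 : ∀ s, c (zeta α β s) = c s := by
    intro s
    have h := hf.cinv (zeta α β s)
    rw [zeta_swap α β] at h
    have h2 : (zeta α β)⁻¹ (zeta α β s) = s := (zeta α β).symm_apply_apply s
    rw [h2] at h
    exact h.symm
  refine ⟨?_, ?_, ?_, ?_, hc1⟩
  · intro s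
    have h1 : ContDiffOn ℝ (⊤ : ℕ∞) (f s ∘ rfsw) (rfsw ⁻¹' Cross) :=
      (hf.smooth s).comp_continuousLinearMap (rfsw : (ℝ × ℝ) →L[ℝ] (ℝ × ℝ))
    apply h1.mono
    rintro p (hp | hp)
    · exact Or.inr hp
    · exact Or.inl hp
  · intro s x y hy0 hy1
    exact hf.col s y x hy0 hy1
  · intro s x y hx0 hx1
    exact hf.row s y x hx0 hx1
  · obtain ⟨ρ, h0, h1, h2⟩ := hf.corner
    refine ⟨ρ, h0, h1, ?_⟩
    intro s x y hx0 hx1 hy0 hy1
    obtain ⟨a1, a2, a3, a4⟩ := h2 s y x hy0 hy1 hx0 hx1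
    refine ⟨a1, a3, a2, ?_⟩
    have h5 : zeta α β (α (β s)) = β (α s) := by
      simp [zeta, Equiv.Perm.mul_apply]
    rw [← h5, hc1]
    exact a4

theorem rfN_unitSq {f : X → ℝ × ℝ → ℂ} {c : X → ℂ} (hf : Nice β α f c)
    (s : X) (p : ℝ × ℝ) (hp : p ∈ unitSq) :
    fl (rfN f) (s, p) = fl f (rfT (s, p)) ∧ fl (dx (rfN f)) (s, p) = fl (dy f) (rfT (s, p)) ∧
    fl (dy (rfN f)) (s, p) = fl (dx f) (rfT (s, p)) := by
  have _ := hf
  have _ := hp
  refine ⟨rfl, ?_, ?_⟩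
  · exact rf_fderiv (f s) p (1, 0)
  · exact rf_fderiv (f s) p (0, 1)

theorem Phi_refl {c : X → ℂ} (hc : ∀ s, c (zeta α β s) = c s) (s : X) (p : ℝ × ℝ)
    (hp : p ∈ unitSq) :
    Phi β α c s (p.2, p.1) = Phi α β c s p ∧
    fl (dx (Phi β α c)) (rfT (s, p)) = fl (dy (Phi α β c)) (s, p) ∧
    fl (dy (Phi β α c)) (rfT (s, p)) = fl (dx (Phi α β c)) (s, p) := by
  have key : ∀ q : ℝ × ℝ, q ∈ unitSq → Phi β α c s (q.2, q.1) = Phi α β c s q := by
    rintro ⟨x, y⟩ ⟨⟨hx0, hx1⟩, ⟨hy0, hy1⟩⟩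
    simp only at hx0 hx1 hy0 hy1
    have fx : ⌊x⌋ = 0 := Int.floor_eq_zero_iff.2 ⟨hx0.le, hx1⟩
    have fy : ⌊y⌋ = 0 := Int.floor_eq_zero_iff.2 ⟨hy0.le, hy1⟩
    have gx : Int.fract x = x := by rw [Int.fract, fx]; simp
    have gy : Int.fract y = y := by rw [Int.fract, fy]; simp
    have h5 : zeta α β (α (β s)) = β (α s) := by
      simp [zeta, Equiv.Perm.mul_apply]
    have h6 : c (α (β s)) = c (β (α s)) := by
      rw [← h5, hc]
    simp only [Phi, ext, fx, fy, gx, gy, zpow_zero, Equiv.Perm.one_apply, h6]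
    push_cast
    ring
  have hev : (fun q : ℝ × ℝ => Phi β α c s (q.2, q.1)) =ᶠ[nhds p] Phi α β c s := by
    filter_upwards [rf_isOpen_unitSq.mem_nhds hp] with q hq
    exact key q hq
  have hfd := hev.fderiv_eq (𝕜 := ℝ)
  refine ⟨key p hp, ?_, ?_⟩
  · have h1 := rf_fderiv (Phi β α c s) p (0, 1)
    rw [hfd] at h1
    exact h1.symm
  · have h1 := rf_fderiv (Phi β α c s) p (1, 0)
    rw [hfd] at h1
    exact h1.symm

variable [Countable X] [MeasurableSpace X] [DiscreteMeasurableSpace X]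

theorem rfT_mp : MeasurePreserving (rfT (X := X)) (mu X) (mu X) := by
  have h1 : MeasurePreserving (Prod.swap : ℝ × ℝ → ℝ × ℝ) volume volume :=
    Measure.measurePreserving_swap
  have hm : MeasurableSet unitSq := measurableSet_Ioo.prod measurableSet_Ioo
  have h2 := h1.restrict_preimage hm
  have h3 : (Prod.swap : ℝ × ℝ → ℝ × ℝ) ⁻¹' unitSq = unitSq := by
    ext ⟨x, y⟩
    simp only [unitSq, Set.mem_preimage, Prod.swap_prod_mk, Set.mem_prod]
    exact and_comm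
  rw [h3] at h2
  exact (MeasurePreserving.id (Measure.count : Measure X)).prod h2

/-- action of the reflection on triples -/
noncomputable def R3 (v : K3 X) : K3 X :=
  WithLp.toLp 2 ![Uc rfT rfT_mp (v 0), Uc rfT rfT_mp (v 2), Uc rfT rfT_mp (v 1)]

theorem R3_R3 (v : K3 X) : R3 (R3 v) = v := by
  have h : ∀ u : KK X, Uc rfT rfT_mp (Uc rfT rfT_mp u) = u := by
    intro u
    apply Uc_comp_id rfT_mp rfT_mp
    exact Filter.Eventually.of_forall fun q => rfl
  ext i : 1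
  fin_cases i
  · exact h (v 0)
  · exact h (v 1)
  · exact h (v 2)

private theorem continuous_R3 : Continuous (R3 (X := X)) := by
  have hU : Continuous (Uc (rfT (X := X)) rfT_mp) := (Uc (rfT (X := X)) rfT_mp).continuous
  unfold R3
  apply (PiLp.continuous_toLp 2 _).comp
  apply continuous_pi
  intro i
  fin_cases i
  · exact hU.comp (PiLp.continuous_apply 2 _ 0)
  · exact hU.comp (PiLp.continuous_apply 2 _ 2)
  · exact hU.comp (PiLp.continuous_apply 2 _ 1)

theorem refl_H1 {v : K3 X} (hv : v ∈ H1 β α) : R3 v ∈ H1 α β := by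
  rw [mem_H1_iff] at hv
  obtain ⟨f, c, hfc, hlim⟩ := hv
  have h1 : Filter.Tendsto (fun n => R3 (trip (f n))) Filter.atTop (nhds (R3 v)) :=
    (continuous_R3.tendsto v).comp hlim
  have hcl : IsClosed (H1 α β : Set (K3 X)) := H1_closed
  apply hcl.mem_of_tendsto h1
  apply Filter.Eventually.of_forall
  intro n
  obtain ⟨hf, hs⟩ := hfc n
  have hs' : FinS (rfN (f n)) := by
    obtain ⟨S, hS⟩ := hs
    exact ⟨S, fun s hs p hp => hS s hs _ (rf_unitSq hp)⟩
  have h2 : R3 (trip (f n)) = trip (rfN (f n)) := by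
    have hx := nice_memLp (nice_dx hf) (finS_dx hs).1 2
    have hy := nice_memLp (nice_dy hf) (finS_dx hs).2 2
    have h0 := nice_memLp hf hs 2
    ext i : 1
    fin_cases i
    · show Uc rfT rfT_mp (cls (fl (f n))) = cls (fl (rfN (f n)))
      rw [Uc_cls rfT_mp h0]
      exact cls_congr (ae_mu_of _ fun s p hp => (rfN_unitSq hf s p hp).1.symm)
    · show Uc rfT rfT_mp (cls (fl (dy (f n)))) = cls (fl (dx (rfN (f n))))
      rw [Uc_cls rfT_mp hy]
      exact cls_congr (ae_mu_of _ fun s p hp => (rfN_unitSq hf s p hp).2.1.symm)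
    · show Uc rfT rfT_mp (cls (fl (dx (f n)))) = cls (fl (dy (rfN (f n))))
      rw [Uc_cls rfT_mp hx]
      exact cls_congr (ae_mu_of _ fun s p hp => (rfN_unitSq hf s p hp).2.2.symm)
  show R3 (trip (f n)) ∈ (H1 α β : Set (K3 X))
  rw [h2]
  exact trip_mem (nice_rfN hf) hs'

end Pool.Agent.Helper96.OF
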