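import Pool.Agent.Helper80.OF.SDefs

/-!
# OFS-SH2: sheared nice families are nice

Let `f` be nice for `(α, β')`, `β' = β α⁻ⁿ`; `g = shN β n f`, `g_s(x,y) = f_{β^⌊y⌋ s}(x + n fract y, fract y)`.
(0) Strip lemma: with ρ of `f`: for |x| < ρ and 0 < y < ρ: `f_s(x,y) = c s` and `f_s(x,1-y) = c (β' s)`. (x > 0: corner box. x < 0: `f_s(x,y) = f_{α⁻¹s}(x+1,y)`, the box near (1,0) resp. (1,1) of α⁻¹ s.
 x = 0: continuity in x on the open row 0<y<1, which lies in Cross.) Also `f_s(x+k,y) = f_{α^k s}(x,y)` for k ∈ ℤ, 0<y<1.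
(1) Smooth on Cross: points with 0<y<1: near them `g_s(x,y) = f_s(x+ny,y)`, (x+ny,y) ∈ Cross. Points (x,j), j ∈ ℤ, 0<x<1: near them `g_s(x,y) = f_{β^j s}(x+n(y-j), y-j)` on both sides: for y ≥ j clear (⌊y⌋ = j); for
 y < j: ⌊y⌋ = j-1, `g = f_{β^{j-1}s}(x+n(y-j)+n, y-j+1) = f_{αⁿ β^{j-1} s}(x+n(y-j), y-j+1)` (row, 0<y-j+1<1) `= f_{β' αⁿ β^{j-1}s}(x+n(y-j),y-j)` (col, 0 < x+n(y-j) < 1 near the point) and `β'αⁿ = β`.
 Points with 0<x<1 and y not an integer: near them `⌊y⌋` is constant and (x + n fract y, fract y) has 0 < fract y < 1.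
(2) row (0<y<1, ⌊y⌋=0) and col (`⌊y+1⌋ = ⌊y⌋+1`, `β^(j+1) s = β^j (β s)`) are clear.
(3) corners, ρ' = ρ/(|n|+1)... such that |x|+|n||y| < ρ: (x,y): `f_s(x+ny,y) = c s`; (1-x,y): `f_{α s}(-x+ny,y) = c(α s)`; (x,1-y): `f_s(x+n(1-y),1-y) = f_{αⁿs}(x-ny,1-y) = c(β'αⁿs) = c(β s)`;
 (1-x,1-y): `f_{α^{n+1}s}(-x-ny,1-y) = c(β'α^{n+1}s) = c(β α s)`. cinv: `zeta α β' = zeta α β`.
(4) On the unit square `g_s(x,y) = f_s(x+ny,y) = f (α^⌊x+ny⌋ s)(fract(x+ny),y)`; derivatives by the chain rule: `g_x = f_x`, `g_y = n f_x + f_y` at (x+ny,y), and `fderiv` of f_s at (x+ny,y) = fderiv of `f_{α^k s}` at (x+ny-k,y).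
(5) FinS: g_s = 0 on the unit square unless α^k s ∈ S for some |k| ≤ |n|+1 (at points with fract(x+ny)=0 use continuity).
-/

set_option autoImplicit false

open Filter Topology

namespace Pool.Agent.Helper96.OF

variable {X : Type} {α β : Equiv.Perm X}

private theorem row_int {α' β' : Equiv.Perm X} {f : X → ℝ × ℝ → ℂ} {c : X → ℂ}
    (hf : Nice α' β' f c) (y : ℝ) (hy : 0 < y) (hy' : y < 1) (k : ℤ) :
    ∀ (s : X) (x : ℝ), f s (x + k, y) = f ((α' ^ k) s) (x, y) := by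
  induction k using Int.induction_on with
  | zero => intro s x; simp
  | succ k ih =>
    intro s x
    have e : (x + ((k + 1 : ℤ) : ℝ), y) = ((x + ((k : ℤ) : ℝ)) + 1, y) := by
      push_cast; ring_nf
    rw [e, hf.row s _ y hy hy', ih, zpow_add_one, Equiv.Perm.mul_apply]
  | pred k ih =>
    intro s x
    have h1 := hf.row (α'.symm s) (x + ((-k - 1 : ℤ) : ℝ)) y hy hy'
    rw [Equiv.apply_symm_apply] at h1
    have e : (x + ((-k - 1 : ℤ) : ℝ) + 1, y) = (x + ((-k : ℤ) : ℝ), y) := by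
      push_cast; ring_nf
    rw [← h1, e, ih, zpow_sub_one, Equiv.Perm.mul_apply]
    rfl

private theorem cont_row {α' β' : Equiv.Perm X} {f : X → ℝ × ℝ → ℂ} {c : X → ℂ}
    (hf : Nice α' β' f c) (s : X) (x y : ℝ) (hy : 0 < y) (hy' : y < 1) :
    Tendsto (fun x' => f s (x', y)) (𝓝[>] x) (𝓝 (f s (x, y))) := by
  have hp : (x, y) ∈ Cross := Or.inl ⟨hy, hy'⟩
  have hcont : ContinuousAt (f s) (x, y) :=
    ((hf.smooth s).contDiffAt (isOpen_Cross.mem_nhds hp)).continuousAt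
  have h2 : ContinuousAt (fun x' : ℝ => f s (x', y)) x :=
    ContinuousAt.comp (f := fun x' : ℝ => (x', y)) hcont (by fun_prop)
  exact h2.tendsto.mono_left nhdsWithin_le_nhds

/-- the strip lemma -/
private theorem strip0 {α' β' : Equiv.Perm X} {f : X → ℝ × ℝ → ℂ} {c : X → ℂ}
    (hf : Nice α' β' f c) {ρ : ℝ} (hρ : 0 < ρ) (hρ' : ρ ≤ 1 / 2)
    (hc : ∀ s x y, 0 < x → x < ρ → 0 < y → y < ρ →
      f s (x, y) = c s ∧ f s (1 - x, y) = c (α' s) ∧ f s (x, 1 - y) = c (β' s) ∧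
      f s (1 - x, 1 - y) = c (β' (α' s))) (s : X) (x y : ℝ) (hx : |x| < ρ) (hy : 0 < y)
    (hy' : y < ρ) : f s (x, y) = c s ∧ f s (x, 1 - y) = c (β' s) := by
  rw [abs_lt] at hx
  rcases lt_trichotomy x 0 with h | h | h
  · have e1 := hf.row (α'.symm s) x y hy (by linarith)
    have e2 := hf.row (α'.symm s) x (1 - y) (by linarith) (by linarith)
    have h1 := hc (α'.symm s) (-x) y (by linarith) (by linarith) hy hy'
    rw [Equiv.apply_symm_apply] at e1 e2 h1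
    have e3 : x + 1 = 1 - -x := by ring
    rw [e3] at e1 e2
    exact ⟨e1.symm.trans h1.2.1, e2.symm.trans h1.2.2.2⟩
  · subst h
    have hm : Set.Ioo (0 : ℝ) ρ ∈ 𝓝[>] (0 : ℝ) := Ioo_mem_nhdsGT hρ
    constructor
    · refine tendsto_nhds_unique (cont_row hf s 0 y hy (by linarith)) ?_
      refine tendsto_const_nhds.congr' ?_
      filter_upwards [hm] with x' hx'
      exact ((hc s x' y hx'.1 hx'.2 hy hy').1).symm
    · refine tendsto_nhds_unique (cont_row hf s 0 (1 - y) (by linarith) (by linarith)) ?_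
      refine tendsto_const_nhds.congr' ?_
      filter_upwards [hm] with x' hx'
      exact ((hc s x' y hx'.1 hx'.2 hy hy').2.2.1).symm
  · have h1 := hc s x y h hx.2 hy hy'
    exact ⟨h1.1, h1.2.2.1⟩

private theorem strip {α' β' : Equiv.Perm X} {f : X → ℝ × ℝ → ℂ} {c : X → ℂ}
    (hf : Nice α' β' f c) {ρ : ℝ} (hρ : 0 < ρ) (hρ' : ρ ≤ 1 / 2)
    (hc : ∀ s x y, 0 < x → x < ρ → 0 < y → y < ρ →
      f s (x, y) = c s ∧ f s (1 - x, y) = c (α' s) ∧ f s (x, 1 - y) = c (β' s) ∧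
      f s (1 - x, 1 - y) = c (β' (α' s))) (s : X) (k : ℤ) (x y : ℝ) (hx : |x - k| < ρ) (hy : 0 < y)
    (hy' : y < ρ) : f s (x, y) = c ((α' ^ k) s) ∧ f s (x, 1 - y) = c (β' ((α' ^ k) s)) := by
  have h := strip0 hf hρ hρ' hc ((α' ^ k) s) (x - k) y hx hy hy'
  have e1 := row_int hf y hy (by linarith) k s (x - k)
  have e2 := row_int hf (1 - y) (by linarith) (by linarith) k s (x - k)
  rw [sub_add_cancel] at e1 e2
  exact ⟨e1.trans h.1, e2.trans h.2⟩

private theorem floor_unit {t : ℝ} (h : 0 < t) (h' : t < 1) : ⌊t⌋ = 0 ∧ Int.fract t = t :=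
  ⟨Int.floor_eq_iff.2 ⟨by push_cast; exact h.le, by push_cast; linarith⟩,
    Int.fract_eq_self.2 ⟨h.le, h'⟩⟩

theorem zeta_shear (α β : Equiv.Perm X) (n : ℤ) : zeta α (β * α ^ (-n)) = zeta α β := by
  unfold zeta
  have e : α ^ (-n) * α * (α ^ (-n))⁻¹ = α := by
    rw [← zpow_add_one, ← zpow_neg, neg_neg, ← zpow_add]
    have : -n + 1 + n = 1 := by ring
    rw [this, zpow_one]
  calc β * α ^ (-n) * α * (β * α ^ (-n))⁻¹ * α⁻¹
      = β * (α ^ (-n) * α * (α ^ (-n))⁻¹) * β⁻¹ * α⁻¹ := by group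
    _ = _ := by rw [e]

private theorem shear_mul (α β : Equiv.Perm X) (n : ℤ) : β * α ^ (-n) * α ^ n = β := by
  rw [mul_assoc, ← zpow_add]
  simp

/-- the shear as a linear map -/
private noncomputable def shL (n : ℤ) : ℝ × ℝ →L[ℝ] ℝ × ℝ :=
  (ContinuousLinearMap.fst ℝ ℝ ℝ + (n : ℝ) • ContinuousLinearMap.snd ℝ ℝ ℝ).prod
    (ContinuousLinearMap.snd ℝ ℝ ℝ)

private theorem shL_apply (n : ℤ) (p : ℝ × ℝ) : shL n p = (p.1 + (n : ℝ) * p.2, p.2) := rfl

private theorem shN_near {n : ℤ} {f : X → ℝ × ℝ → ℂ} {c : X → ℂ}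
    (hf : Nice α (β * α ^ (-n)) f c) (s : X) (p : ℝ × ℝ) (hp : p ∈ Cross) :
    ∃ j : ℤ, (shN β n f s =ᶠ[𝓝 p] fun q => f ((β ^ j) s) (shL n (q - (0, (j : ℝ))))) ∧
      shL n (p - (0, (j : ℝ))) ∈ Cross := by
  obtain ⟨x, y⟩ := p
  by_cases hy : Int.fract y = 0
  · obtain ⟨j, hj⟩ := Int.fract_eq_zero_iff.1 hy
    subst hj
    have hx : 0 < x ∧ x < 1 := by
      rcases hp with hp | hp
      · exfalso
        simp only at hp
        have h1 : 0 < j := by exact_mod_cast hp.1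
        have h2 : j < 1 := by exact_mod_cast hp.2
        omega
      · exact hp
    refine ⟨j, ?_, ?_⟩
    · have h1 : ∀ᶠ q : ℝ × ℝ in 𝓝 (x, (j : ℝ)), q.2 ∈ Set.Ioo ((j : ℝ) - 1) (j + 1) :=
        (continuous_snd.tendsto (x, (j : ℝ))).eventually
          (Ioo_mem_nhds (by simp) (by simp))
      have h2 : ∀ᶠ q : ℝ × ℝ in 𝓝 (x, (j : ℝ)), q.1 + n * (q.2 - j) ∈ Set.Ioo (0 : ℝ) 1 := by
        have hc : Continuous fun q : ℝ × ℝ => q.1 + n * (q.2 - j) := by fun_prop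
        refine (hc.tendsto (x, (j : ℝ))).eventually (Ioo_mem_nhds ?_ ?_)
        · simp only [sub_self, mul_zero, add_zero]; exact hx.1
        · simp only [sub_self, mul_zero, add_zero]; exact hx.2
      filter_upwards [h1, h2] with q h1 h2
      obtain ⟨a, b⟩ := q
      simp only [shN, shL_apply, Prod.fst_sub, Prod.snd_sub, sub_zero] at h1 h2 ⊢
      by_cases hb : (j : ℝ) ≤ b
      · have e1 : ⌊b⌋ = j := Int.floor_eq_iff.2 ⟨hb, h1.2⟩
        rw [Int.fract, e1]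
      · push Not at hb
        have e1 : ⌊b⌋ = j - 1 := Int.floor_eq_iff.2 ⟨by push_cast; exact h1.1.le, by
          push_cast; linarith⟩
        have e2 : Int.fract b = b - j + 1 := by rw [Int.fract, e1]; push_cast; ring
        rw [e1, e2]
        have e3 := row_int hf (b - j + 1) (by linarith [h1.1]) (by linarith) n
          ((β ^ (j - 1)) s) (a + n * (b - j))
        have e4 : a + (n : ℝ) * (b - j + 1) = a + n * (b - j) + n := by ring
        rw [e4, e3, hf.col _ _ _ h2.1 h2.2]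
        congr 1
        rw [← Equiv.Perm.mul_apply, shear_mul, ← Equiv.Perm.mul_apply, ← zpow_one_add]
        congr 2
        ring
    · rw [shL_apply]
      right
      simp only [Prod.fst_sub, Prod.snd_sub, sub_zero, sub_self, mul_zero, add_zero]
      exact hx
  · refine ⟨⌊y⌋, ?_, ?_⟩
    · have h1 : ∀ᶠ q : ℝ × ℝ in 𝓝 (x, y), q.2 ∈ Set.Ioo (⌊y⌋ : ℝ) (⌊y⌋ + 1) := by
        refine (continuous_snd.tendsto (x, y)).eventually (Ioo_mem_nhds ?_ ?_)
        · exact lt_of_le_of_ne (Int.floor_le y) (fun h2 => hy (Int.fract_eq_zero_iff.2 ⟨⌊y⌋, h2⟩))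
        · exact Int.lt_floor_add_one y
      filter_upwards [h1] with q h1
      obtain ⟨a, b⟩ := q
      simp only [shN, shL_apply, Prod.fst_sub, Prod.snd_sub, sub_zero] at h1 ⊢
      have e1 : ⌊b⌋ = ⌊y⌋ := Int.floor_eq_iff.2 ⟨h1.1.le, h1.2⟩
      rw [Int.fract, e1]
    · rw [shL_apply]
      left
      simp only [Prod.snd_sub]
      exact ⟨lt_of_le_of_ne (Int.fract_nonneg y) (Ne.symm hy), Int.fract_lt_one y⟩

theorem nice_shN (n : ℤ) {f : X → ℝ × ℝ → ℂ} {c : X → ℂ} (hf : Nice α (β * α ^ (-n)) f c) :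
    Nice α β (shN β n f) c := by
  refine ⟨?_, ?_, ?_, ?_, ?_⟩
  · intro s p hp
    apply ContDiffAt.contDiffWithinAt
    obtain ⟨j, h1, h2⟩ := shN_near hf s p hp
    refine ContDiffAt.congr_of_eventuallyEq ?_ h1
    have h3 : ContDiffAt ℝ (⊤ : ℕ∞) (f ((β ^ j) s)) (shL n (p - (0, (j : ℝ)))) :=
      (hf.smooth _).contDiffAt (isOpen_Cross.mem_nhds h2)
    have h4 : ContDiff ℝ (⊤ : ℕ∞) fun q : ℝ × ℝ => shL n (q - (0, (j : ℝ))) :=
      (shL n).contDiff.comp (contDiff_id.sub contDiff_const)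
    exact h3.comp p h4.contDiffAt
  · intro s x y hy hy'
    obtain ⟨e1, e2⟩ := floor_unit hy hy'
    simp only [shN, e1, e2, zpow_zero, Equiv.Perm.one_apply]
    have := hf.row s (x + n * y) y hy hy'
    rw [← this]
    congr 2
    ring
  · intro s x y hx hx'
    simp only [shN, Int.floor_add_one, Int.fract_add_one, zpow_add_one, Equiv.Perm.mul_apply]
  · obtain ⟨ρ, hρ, hρ', hc⟩ := hf.corner
    have hn : (0 : ℝ) ≤ |(n : ℝ)| := abs_nonneg _
    refine ⟨ρ / (|(n : ℝ)| + 1), by positivity, ?_, ?_⟩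
    · rw [div_le_iff₀ (by positivity)]
      nlinarith
    · intro s x y hx hx' hy hy'
      have hle : ρ / (|(n : ℝ)| + 1) ≤ ρ := div_le_self hρ.le (by linarith)
      have hxy : ∀ a b : ℝ, |a| = x → |b| = y → |a + n * b| < ρ := by
        intro a b ha hb
        have h1 : |a + n * b| ≤ x + |(n : ℝ)| * y := by
          rw [← ha, ← hb, ← abs_mul]; exact abs_add_le _ _
        have h2 : x + |(n : ℝ)| * y < ρ / (|(n : ℝ)| + 1) * (|(n : ℝ)| + 1) := by
          have : |(n : ℝ)| * y ≤ |(n : ℝ)| * (ρ / (|(n : ℝ)| + 1)) :=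
            mul_le_mul_of_nonneg_left hy'.le hn
          linarith
        rw [div_mul_cancel₀ _ (by positivity)] at h2
        linarith
      have ax : |x| = x := abs_of_pos hx
      have ax' : |-x| = x := by rw [abs_neg, ax]
      have ay : |y| = y := abs_of_pos hy
      have ay' : |-y| = y := by rw [abs_neg, ay]
      have hyρ : y < ρ := lt_of_lt_of_le hy' hle
      obtain ⟨e1, e2⟩ := floor_unit hy (by linarith : y < 1)
      obtain ⟨e3, e4⟩ := floor_unit (by linarith : 0 < 1 - y) (by linarith : 1 - y < 1)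
      simp only [shN, e1, e2, e3, e4, zpow_zero, Equiv.Perm.one_apply]
      refine ⟨?_, ?_, ?_, ?_⟩
      · have := (strip hf hρ hρ' hc s 0 (x + n * y) y (by
          rw [Int.cast_zero, sub_zero]; exact hxy x y ax ay) hy hyρ).1
        simpa using this
      · have := (strip hf hρ hρ' hc s 1 (1 - x + n * y) y (by
          have e : 1 - x + (n : ℝ) * y - ((1 : ℤ) : ℝ) = -x + n * y := by push_cast; ring
          rw [e]; exact hxy (-x) y ax' ay) hy hyρ).1
        simpa using this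
      · have := (strip hf hρ hρ' hc s n (x + n * (1 - y)) y (by
          have e : x + (n : ℝ) * (1 - y) - (n : ℝ) = x + n * (-y) := by ring
          rw [e]; exact hxy x (-y) ax ay') hy hyρ).2
        rw [this, ← Equiv.Perm.mul_apply, shear_mul]
      · have := (strip hf hρ hρ' hc s (n + 1) (1 - x + n * (1 - y)) y (by
          have e : 1 - x + (n : ℝ) * (1 - y) - ((n + 1 : ℤ) : ℝ) = -x + n * (-y) := by
            push_cast; ring
          rw [e]; exact hxy (-x) (-y) ax' ay') hy hyρ).2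
        rw [this, ← Equiv.Perm.mul_apply, zpow_add_one, ← mul_assoc, shear_mul,
          Equiv.Perm.mul_apply]
  · intro s
    have := hf.cinv s
    rwa [zeta_shear] at this

theorem shN_unitSq (n : ℤ) {f : X → ℝ × ℝ → ℂ} {c : X → ℂ} (hf : Nice α (β * α ^ (-n)) f c)
    (s : X) (p : ℝ × ℝ) (hp : p ∈ unitSq) :
    fl (shN β n f) (s, p) = fl f (shT α n (s, p)) ∧
    fl (dx (shN β n f)) (s, p) = fl (dx f) (shT α n (s, p)) ∧
    fl (dy (shN β n f)) (s, p) = (n : ℂ) * fl (dx f) (shT α n (s, p)) + fl (dy f) (shT α n (s, p)) := by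
  obtain ⟨x, y⟩ := p
  have hy : 0 < y := hp.2.1
  have hy' : y < 1 := hp.2.2
  obtain ⟨e1, e2⟩ := floor_unit hy hy'
  have hmove : ∀ (g : X → ℝ × ℝ → ℂ) (d : X → ℂ), Nice α (β * α ^ (-n)) g d →
      g s (x + n * y, y) = fl g (shT α n (s, (x, y))) := by
    intro g d hg
    have h1 := row_int hg y hy hy' ⌊x + (n : ℝ) * y⌋ s (Int.fract (x + (n : ℝ) * y))
    rw [Int.fract_add_floor] at h1
    exact h1
  have hnear : shN β n f s =ᶠ[𝓝 (x, y)] fun q => f s (shL n q) := by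
    have h1 : ∀ᶠ q : ℝ × ℝ in 𝓝 (x, y), q.2 ∈ Set.Ioo (0 : ℝ) 1 :=
      (continuous_snd.tendsto (x, y)).eventually (Ioo_mem_nhds hy hy')
    filter_upwards [h1] with q hq
    obtain ⟨e3, e4⟩ := floor_unit hq.1 hq.2
    simp only [shN, e3, e4, zpow_zero, Equiv.Perm.one_apply, shL_apply]
  have hC : shL n (x, y) ∈ Cross := Or.inl ⟨hy, hy'⟩
  have hdiff : DifferentiableAt ℝ (f s) (shL n (x, y)) :=
    ((hf.smooth s).contDiffAt (isOpen_Cross.mem_nhds hC)).differentiableAt (by simp)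
  have hder : fderiv ℝ (shN β n f s) (x, y) = (fderiv ℝ (f s) (shL n (x, y))).comp (shL n) := by
    rw [hnear.fderiv_eq]
    have h2 := hdiff.hasFDerivAt.comp (x, y) (shL n).hasFDerivAt
    exact h2.fderiv
  refine ⟨?_, ?_, ?_⟩
  · have h3 := hmove f c hf
    rw [← h3]
    simp only [fl, shN, e1, e2, zpow_zero, Equiv.Perm.one_apply]
  · have h3 := hmove (dx f) _ (nice_dx hf)
    rw [← h3]
    simp only [fl, dx]
    rw [hder, ContinuousLinearMap.comp_apply, shL_apply, shL_apply]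
    simp
  · have h3 := hmove (dx f) _ (nice_dx hf)
    have h4 := hmove (dy f) _ (nice_dy hf)
    rw [← h3, ← h4]
    simp only [fl, dx, dy]
    rw [hder, ContinuousLinearMap.comp_apply, shL_apply, shL_apply]
    have e5 : ((0 : ℝ) + (n : ℝ) * 1, (1 : ℝ)) = (n : ℝ) • ((1 : ℝ), (0 : ℝ)) + (0, 1) := by
      simp
    simp only
    rw [e5, map_add, map_smul, Complex.real_smul]
    simp

theorem finS_shN (n : ℤ) {f : X → ℝ × ℝ → ℂ} {c : X → ℂ} (hf : Nice α (β * α ^ (-n)) f c)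
    (hs : FinS f) : FinS (shN β n f) := by
  classical
  obtain ⟨S, hS⟩ := hs
  have hU : (⋃ k ∈ Finset.Icc (-|n|) |n|, ((α ^ k) ⁻¹' (S : Set X))).Finite :=
    (Finset.finite_toSet _).biUnion fun k _ =>
      (S.finite_toSet).preimage (α ^ k).injective.injOn
  refine ⟨hU.toFinset, ?_⟩
  rintro s hsn ⟨x, y⟩ hp
  have hsn' : ∀ k : ℤ, -|n| ≤ k → k ≤ |n| → (α ^ k) s ∉ S := by
    intro k h1 h2 h3
    apply hsn
    rw [Set.Finite.mem_toFinset, Set.mem_iUnion₂]
    exact ⟨k, Finset.mem_Icc.2 ⟨h1, h2⟩, h3⟩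
  have hx : 0 < x := hp.1.1
  have hx' : x < 1 := hp.1.2
  have hy : 0 < y := hp.2.1
  have hy' : y < 1 := hp.2.2
  obtain ⟨e1, e2⟩ := floor_unit hy hy'
  simp only [shN, e1, e2, zpow_zero, Equiv.Perm.one_apply]
  set t : ℝ := x + n * y with ht
  have habs : |(n : ℝ) * y| ≤ |(n : ℝ)| := by
    rw [abs_mul, abs_of_pos hy]
    exact mul_le_of_le_one_right (abs_nonneg _) hy'.le
  rw [abs_le] at habs
  have hk : -|n| ≤ ⌊t⌋ ∧ ⌊t⌋ ≤ |n| := by
    constructor
    · rw [Int.le_floor]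
      push_cast
      linarith [habs.1]
    · have h5 : t < ((|n| + 1 : ℤ) : ℝ) := by
        push_cast
        linarith [habs.2]
      have h6 := Int.floor_lt.2 h5
      omega
  have h1 := row_int hf y hy hy' ⌊t⌋ s (Int.fract t)
  rw [Int.fract_add_floor] at h1
  rw [h1]
  have hz := hS _ (hsn' ⌊t⌋ hk.1 hk.2)
  by_cases h0 : Int.fract t = 0
  · rw [h0]
    refine tendsto_nhds_unique (cont_row hf _ 0 y hy hy') (tendsto_const_nhds.congr' ?_)
    have hm : Set.Ioo (0 : ℝ) 1 ∈ 𝓝[>] (0 : ℝ) := Ioo_mem_nhdsGT one_pos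
    filter_upwards [hm] with x' hx'
    exact (hz (x', y) ⟨hx', hp.2⟩).symm
  · exact hz _ ⟨⟨lt_of_le_of_ne (Int.fract_nonneg t) (Ne.symm h0), Int.fract_lt_one t⟩, hp.2⟩

end Pool.Agent.Helper96.OF
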