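import Pool.Agent.Helper80.OF.SH1
import Pool.Agent.Helper80.OF.SH2

/-!
# OFS-SH4: the sheared interpolation differs from the interpolation by an L² function

`D q = Φ'(T q) - Φ(q)`, Φ' = Phi of (α, β'), β' = β α⁻ⁿ.
-/

set_option autoImplicit false

open MeasureTheory

namespace Pool.Agent.Helper96.OF

variable {X : Type} {α β : Equiv.Perm X}

private lemma mem_cl_left (α β : Equiv.Perm X) :
    α ∈ Subgroup.closure ({α, β} : Set (Equiv.Perm X)) :=
  Subgroup.subset_closure (by simp)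

private lemma mem_cl_right (α β : Equiv.Perm X) :
    β ∈ Subgroup.closure ({α, β} : Set (Equiv.Perm X)) :=
  Subgroup.subset_closure (by simp)

theorem inW_shear {w : X → ℝ} (hw : InW α β w) (n : ℤ) : InW α (β * α ^ (-n)) w :=
  inW_marking hw (mem_cl_left α β)
    (mul_mem (mem_cl_right α β) (Subgroup.zpow_mem _ (mem_cl_left α β) _)) (zeta_shear α β n)

theorem inW_swap {w : X → ℝ} (hw : InW α β w) : InW β α w := by
  refine ⟨hw.bdd, fun x => ?_, hw.sb, hw.sa⟩
  have h : zeta β α = (zeta α β)⁻¹ := by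
    simp only [zeta, mul_inv_rev, inv_inv, mul_assoc]
  have h2 := hw.inv ((zeta β α) x)
  rw [h] at h2 ⊢
  rw [← Equiv.Perm.mul_apply, mul_inv_cancel, Equiv.Perm.one_apply] at h2
  exact h2.symm

/-- spectral gap is independent of the generators -/
theorem sg_marking {α' β' : Equiv.Perm X} (h : SG α β)
    (h1 : α ∈ Subgroup.closure ({α', β'} : Set (Equiv.Perm X)))
    (h2 : β ∈ Subgroup.closure ({α', β'} : Set (Equiv.Perm X))) : SG α' β' := by
  obtain ⟨C, h0, hC⟩ := h
  obtain ⟨C1, hC1, H1⟩ := diff_closure α' β' α h1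
  obtain ⟨C2, hC2, H2⟩ := diff_closure α' β' β h2
  refine ⟨C * (C1 + C2) + 1, by positivity, fun w hw => ?_⟩
  have hsum : ∀ g : Equiv.Perm X, Summable fun x => (w (g x) - w x) ^ 2 := by
    intro g
    have hg : Summable fun x => (w (g x)) ^ 2 := (Equiv.summable_iff g).2 hw
    refine Summable.of_nonneg_of_le (fun x => sq_nonneg _) (fun x => ?_)
      ((hg.mul_left 2).add (Summable.mul_left 2 hw))
    nlinarith [sq_nonneg (w (g x) + w x)]
  have e1 := (H1 w (hsum α') (hsum β')).2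
  have e2 := (H2 w (hsum α') (hsum β')).2
  have e3 := hC w hw
  have hE0 : 0 ≤ ∑' x, (w (α' x) - w x) ^ 2 + ∑' x, (w (β' x) - w x) ^ 2 :=
    add_nonneg (tsum_nonneg fun x => sq_nonneg _) (tsum_nonneg fun x => sq_nonneg _)
  have e4 : C * (∑' x, (w (α x) - w x) ^ 2 + ∑' x, (w (β x) - w x) ^ 2) ≤
      C * ((C1 + C2) * (∑' x, (w (α' x) - w x) ^ 2 + ∑' x, (w (β' x) - w x) ^ 2)) := by
    apply mul_le_mul_of_nonneg_left _ h0.le
    linarith
  nlinarith

/-! ### square summable functions -/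

private lemma l2s_add {u v : X → ℝ} (hu : L2s u) (hv : L2s v) : L2s (fun x => u x + v x) := by
  refine Summable.of_nonneg_of_le (fun x => sq_nonneg _) (fun x => ?_)
    ((Summable.mul_left 2 hu).add (Summable.mul_left 2 hv))
  nlinarith [sq_nonneg (u x - v x)]

private lemma l2s_abs {u : X → ℝ} (hu : L2s u) : L2s (fun x => |u x|) := by
  simpa only [L2s, sq_abs] using hu

private lemma l2s_comp {u : X → ℝ} (hu : L2s u) (g : Equiv.Perm X) : L2s (fun x => u (g x)) :=
  (Equiv.summable_iff g).2 hu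

private lemma l2s_zero : L2s (fun _ : X => (0 : ℝ)) := by
  simpa only [L2s, ne_eq, OfNat.ofNat_ne_zero, not_false_eq_true, zero_pow] using summable_zero

private lemma l2s_sum {ι : Type} (s : Finset ι) {u : ι → X → ℝ} (h : ∀ i ∈ s, L2s (u i)) :
    L2s (fun x => ∑ i ∈ s, u i x) := by
  classical
  induction s using Finset.induction_on with
  | empty => simpa using l2s_zero
  | insert i s hi ih =>
    simp only [Finset.sum_insert hi]
    exact l2s_add (h i (Finset.mem_insert_self i s))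
      (ih fun j hj => h j (Finset.mem_insert_of_mem hj))

private lemma l2s_diff {w : X → ℝ} (hw : InW α β w) {g : Equiv.Perm X}
    (hg : g ∈ Subgroup.closure ({α, β} : Set (Equiv.Perm X))) :
    L2s (fun x => |w (g x) - w x|) := by
  obtain ⟨C, _, H⟩ := diff_closure α β g hg
  exact l2s_abs (H w hw.sa hw.sb).1

/-- the sum of the three differences on the square `t` -/
private noncomputable def dd (α β : Equiv.Perm X) (w : X → ℝ) (t : X) : ℝ :=
  |w (α t) - w t| + |w (β t) - w t| + |w ((β * α) t) - w t|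

private lemma l2s_dd {α' β' : Equiv.Perm X} {w : X → ℝ} (hw : InW α β w)
    (ha : α' ∈ Subgroup.closure ({α, β} : Set (Equiv.Perm X)))
    (hb : β' ∈ Subgroup.closure ({α, β} : Set (Equiv.Perm X))) : L2s (dd α' β' w) :=
  l2s_add (l2s_add (l2s_diff hw ha) (l2s_diff hw hb)) (l2s_diff hw (mul_mem hb ha))

private lemma sg_mem (t : ℝ) : 0 ≤ sg t ∧ sg t ≤ 1 :=
  ⟨Real.smoothTransition.nonneg _, Real.smoothTransition.le_one _⟩

private lemma Phi_dd (α β : Equiv.Perm X) (w : X → ℝ) (t : X) (p : ℝ × ℝ)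
    (hx0 : 0 ≤ p.1) (hx1 : p.1 < 1) (hy0 : 0 ≤ p.2) (hy1 : p.2 < 1) :
    ‖Phi α β (toC w) t p - (w t : ℂ)‖ ≤ dd α β w t := by
  have fx : ⌊p.1⌋ = 0 := Int.floor_eq_iff.2 ⟨by simpa using hx0, by simpa using hx1⟩
  have fy : ⌊p.2⌋ = 0 := Int.floor_eq_iff.2 ⟨by simpa using hy0, by simpa using hy1⟩
  have e : Phi α β (toC w) t p - (w t : ℂ) =
      (((sg (Int.fract p.1) * (1 - sg (Int.fract p.2))) * (w (α t) - w t) +
        ((1 - sg (Int.fract p.1)) * sg (Int.fract p.2)) * (w (β t) - w t) +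
        (sg (Int.fract p.1) * sg (Int.fract p.2)) * (w ((β * α) t) - w t) : ℝ) : ℂ) := by
    simp only [Phi, ext, toC, fx, fy, zpow_zero, Equiv.Perm.one_apply, Equiv.Perm.mul_apply]
    push_cast
    ring
  rw [e, Complex.norm_real, Real.norm_eq_abs, dd]
  obtain ⟨a0, a1⟩ := sg_mem (Int.fract p.1)
  obtain ⟨b0, b1⟩ := sg_mem (Int.fract p.2)
  have key : ∀ (c z : ℝ), 0 ≤ c → c ≤ 1 → |c * z| ≤ |z| := by
    intro c z h0 h1
    rw [abs_mul, abs_of_nonneg h0]
    exact mul_le_of_le_one_left (abs_nonneg z) h1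
  refine (abs_add_three _ _ _).trans ?_
  have k1 := key (sg (Int.fract p.1) * (1 - sg (Int.fract p.2))) (w (α t) - w t)
    (mul_nonneg a0 (by linarith)) (mul_le_one₀ a1 (by linarith) (by linarith))
  have k2 := key ((1 - sg (Int.fract p.1)) * sg (Int.fract p.2)) (w (β t) - w t)
    (mul_nonneg (by linarith) b0) (mul_le_one₀ (by linarith) b0 b1)
  have k3 := key (sg (Int.fract p.1) * sg (Int.fract p.2)) (w ((β * α) t) - w t)
    (mul_nonneg a0 b0) (mul_le_one₀ a1 b0 b1)
  linarith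

variable [Countable X] [MeasurableSpace X] [DiscreteMeasurableSpace X]

private lemma memLp_fst {a : X → ℝ} (ha : L2s a) : MemLp (fun q : Sq X => a q.1) 2 (mu X) := by
  have h1 : MemLp a 2 (Measure.count : Measure X) := by
    rw [memLp_two_iff_integrable_sq (Measurable.of_discrete).aestronglyMeasurable,
      integrable_count_iff]
    have ha' : Summable fun x => (a x) ^ 2 := ha
    simpa only [Real.norm_eq_abs, abs_pow, sq_abs] using ha'
  have : IsProbabilityMeasure ((volume : Measure (ℝ × ℝ)).restrict unitSq) := by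
    refine ⟨?_⟩
    rw [Measure.restrict_apply_univ, unitSq, Measure.volume_eq_prod, Measure.prod_prod]
    simp
  exact h1.comp_measurePreserving measurePreserving_fst

theorem shear_phi_L2 {w : X → ℝ} (hw : InW α β w) (n : ℤ) :
    MemLp (fun q => fl (Phi α (β * α ^ (-n)) (toC w)) (shT α n q) - fl (Phi α β (toC w)) q) 2
      (mu X) := by
  set β' := β * α ^ (-n) with hβ'
  set N : ℤ := |n| + 1 with hN
  let a : X → ℝ := fun s => (∑ k ∈ Finset.Icc (-N) N,
    (|w ((α ^ k) s) - w s| + dd α β' w ((α ^ k) s))) + dd α β w s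
  have ma := mem_cl_left α β
  have mb := mem_cl_right α β
  have mb' : β' ∈ Subgroup.closure ({α, β} : Set (Equiv.Perm X)) :=
    mul_mem mb (Subgroup.zpow_mem _ ma _)
  have ha : L2s a := by
    refine l2s_add (l2s_sum _ fun k _ => l2s_add (l2s_diff hw (Subgroup.zpow_mem _ ma k)) ?_)
      (l2s_dd hw ma mb)
    exact l2s_comp (l2s_dd hw ma mb') (α ^ k)
  have hcw : ∀ s, toC w (zeta α β s) = toC w s := fun s => by simp only [toC, hw.inv s]
  have hw' : InW α β' w := inW_shear hw n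
  have hcw' : ∀ s, toC w (zeta α β' s) = toC w s := fun s => by simp only [toC, hw'.inv s]
  have hN1 : Nice α β (Phi α β (toC w)) (toC w) := nice_Phi hcw
  have hN2 : Nice α β' (Phi α β' (toC w)) (toC w) := nice_Phi hcw'
  have hN3 : Nice α β (shN β n (Phi α β' (toC w))) (toC w) := nice_shN n hN2
  have hm : AEStronglyMeasurable
      (fun q => fl (Phi α β' (toC w)) (shT α n q) - fl (Phi α β (toC w)) q) (mu X) := by
    have h1 := (nice_meas hN3).sub (nice_meas hN1)
    refine h1.congr ?_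
    refine ae_mu_of _ fun s p hp => ?_
    simp only [Pi.sub_apply]
    rw [(shN_unitSq n hN2 s p hp).1]
  refine MemLp.of_le (memLp_fst ha) hm ?_
  refine ae_mu_of _ fun s p hp => ?_
  obtain ⟨⟨hx0, hx1⟩, hy0, hy1⟩ := hp
  have ha0 : 0 ≤ a s := by
    refine add_nonneg (Finset.sum_nonneg fun k _ => ?_) ?_
    · exact add_nonneg (abs_nonneg _) (by unfold dd; positivity)
    · unfold dd; positivity
  rw [Real.norm_eq_abs, abs_of_nonneg ha0]
  set k : ℤ := ⌊p.1 + (n : ℝ) * p.2⌋ with hk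
  have hkN : k ∈ Finset.Icc (-N) N := by
    have hn : |(n : ℝ) * p.2| ≤ |(n : ℝ)| := by
      rw [abs_mul, abs_of_pos hy0]
      exact mul_le_of_le_one_right (abs_nonneg _) hy1.le
    have hn' := abs_le.1 hn
    have hNr : (N : ℝ) = |(n : ℝ)| + 1 := by rw [hN]; push_cast; rfl
    rw [Finset.mem_Icc]
    constructor
    · rw [hk, Int.le_floor]
      push_cast
      rw [hNr]
      linarith
    · have : (k : ℝ) ≤ N := by
        refine (Int.floor_le _).trans ?_
        rw [hNr]
        linarith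
      exact_mod_cast this
  have e1 : fl (Phi α β' (toC w)) (shT α n (s, p)) =
      Phi α β' (toC w) ((α ^ k) s) (Int.fract (p.1 + (n : ℝ) * p.2), p.2) := rfl
  have e2 : fl (Phi α β (toC w)) (s, p) = Phi α β (toC w) s p := rfl
  rw [e1, e2]
  have b1 := Phi_dd α β' w ((α ^ k) s) (Int.fract (p.1 + (n : ℝ) * p.2), p.2)
    (Int.fract_nonneg _) (Int.fract_lt_one _) hy0.le hy1
  have b2 := Phi_dd α β w s p hx0.le hx1 hy0.le hy1
  have b3 : ‖((w ((α ^ k) s) : ℝ) : ℂ) - (w s : ℂ)‖ = |w ((α ^ k) s) - w s| := by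
    rw [← Complex.ofReal_sub, Complex.norm_real, Real.norm_eq_abs]
  have b4 : |w ((α ^ k) s) - w s| + dd α β' w ((α ^ k) s) ≤
      ∑ k ∈ Finset.Icc (-N) N, (|w ((α ^ k) s) - w s| + dd α β' w ((α ^ k) s)) :=
    Finset.single_le_sum (f := fun k : ℤ => |w ((α ^ k) s) - w s| + dd α β' w ((α ^ k) s))
      (fun i _ => add_nonneg (abs_nonneg _) (by unfold dd; positivity)) hkN
  have e3 : Phi α β' (toC w) ((α ^ k) s) (Int.fract (p.1 + (n : ℝ) * p.2), p.2) -
      Phi α β (toC w) s p =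
      (Phi α β' (toC w) ((α ^ k) s) (Int.fract (p.1 + (n : ℝ) * p.2), p.2) - (w ((α ^ k) s) : ℂ)) +
      (((w ((α ^ k) s) : ℝ) : ℂ) - (w s : ℂ)) + -(Phi α β (toC w) s p - (w s : ℂ)) := by ring
  rw [e3]
  refine (norm_add₃_le).trans ?_
  rw [norm_neg, b3]
  show _ ≤ (∑ k ∈ Finset.Icc (-N) N,
    (|w ((α ^ k) s) - w s| + dd α β' w ((α ^ k) s))) + dd α β w s
  linarith

end Pool.Agent.Helper96.OF
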