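import Pool.Agent.Helper80.OF.RF1
import Pool.Agent.Helper80.OF.SH4

/-!
# OFS-RF2: reflection: the solution at `(α, β), τ` and at `(β, α), τ' = 1 / conj τ`

Let `ψ' = sol β α w τ'`, U = Uc rfT, `ψ = R3 ψ' ∈ H1 α β`, P' = ph1 + ψ' 1, R' = ph2 + ψ' 2 (for (β, α)); by Phi_refl `ph1 α β w = U (ph2 β α w)`, `ph2 α β w = U (ph1 β α w)`, so for ψ: `P = U R'`, `R = U P'`.
Weak equation for ψ: χ = R3 χ' (χ' = R3 χ): `χ 2 - conj τ • χ 1 = U(χ' 1 - conj τ • χ' 2) = - conj τ • U(χ' 2 - τ' • χ' 1)` (τ' = 1/conj τ) and `R - conj τ • P = - conj τ • U (R' - τ' • P')`. So one needs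
`⟪χ' 2 - τ' χ' 1, R' - τ' P'⟫ = 0`. Now `⟪χ'2 - τ' χ'1, R' - τ'P'⟫ - ⟪χ'2 - conj τ' χ'1, R' - conj τ' P'⟫ = (conj τ' - τ') (⟪χ'2, P'⟫ - ⟪χ'1, R'⟫)` up to sign, which is 0 by isotropy (FT5 iso_H1 for ψ', iso_nice for Phi),
and the second one is IsSol at τ'. [expand: ⟪χ2,R⟫ - τ'⟪χ2,P⟫ - conj τ'⟪χ1,R⟫ + |τ'|²⟪χ1,P⟫ versus ⟪χ2,R⟫ - conj τ'⟪χ2,P⟫ - τ'⟪χ1,R⟫ + |τ'|²⟪χ1,P⟫.] Uniqueness (FT6 sol_spec): `sol α β w τ = ψ`.
FF: a.e. equal by Phi_refl. hh: by FT6 PP_eq at τ': `R' - τ'P' = (conj τ' - τ') JK h'`; `hh = (1/(τ-conj τ)) (R - conj τ P) = (1/(τ - conj τ)) (-conj τ)(conj τ' - τ') U JK h' = (1/τ) U JK h'`, since `τ' - conj τ' = (τ - conj τ)/|τ|²`.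
EE: `4 im τ |1/τ|² ‖h'‖² = 4 im τ' ‖h'‖²`, `im τ' = im τ/|τ|²`. Kf: same, with S0 int_comp (‖h‖² = |1/τ|² ‖h'∘T‖² a.e.).
-/

set_option autoImplicit false

open MeasureTheory
open scoped ComplexConjugate

namespace Pool.Agent.Helper96.OF

variable {X : Type} [Countable X] [MeasurableSpace X] [DiscreteMeasurableSpace X]
  {α β : Equiv.Perm X}

theorem inv_conj_mem_HH {τ : ℂ} (hτ : τ ∈ HH) : 1 / conj τ ∈ HH := by
  have h : 0 < τ.im := hτ
  have h0 : τ ≠ 0 := by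
    rintro rfl
    simp at h
  have h1 : 0 < Complex.normSq τ := Complex.normSq_pos.2 h0
  change 0 < (1 / conj τ).im
  rw [one_div, Complex.inv_im, Complex.normSq_conj, Complex.conj_im, neg_neg]
  exact div_pos h h1

private theorem im_inv_conj (τ : ℂ) : (1 / conj τ).im = τ.im / ‖τ‖ ^ 2 := by
  rw [one_div, Complex.inv_im, Complex.normSq_conj, Complex.conj_im, neg_neg,
    Complex.normSq_eq_norm_sq]

private theorem ne_zero_of_HH {τ : ℂ} (hτ : τ ∈ HH) : τ ≠ 0 := by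
  rintro rfl
  have h : (0 : ℝ) < (0 : ℂ).im := hτ
  simp at h

private theorem sub_conj_ne {τ : ℂ} (hτ : τ ∈ HH) : τ - conj τ ≠ 0 := by
  have h : 0 < τ.im := hτ
  intro h0
  have h1 := congrArg Complex.im h0
  rw [Complex.sub_im, Complex.conj_im, Complex.zero_im] at h1
  linarith

private theorem norm_JK (v : KK X) : ‖JK X v‖ = ‖v‖ := by
  rw [Lp.norm_def, Lp.norm_def]
  congr 1
  apply eLpNorm_congr_norm_ae
  filter_upwards [JK_ae v] with q hq
  rw [hq, RCLike.norm_conj]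

private theorem ph_refl {w : X → ℝ} (hw : InW α β w) :
    ph1 α β w = Uc rfT rfT_mp (ph2 β α w) ∧ ph2 α β w = Uc rfT rfT_mp (ph1 β α w) := by
  have hw' : InW β α w := inW_swap hw
  have hc : ∀ s, toC w (zeta α β s) = toC w s := fun s => by simp only [toC, hw.inv]
  constructor
  · unfold ph1 ph2
    rw [Uc_cls rfT_mp (Phi_energy hw').2]
    apply cls_congr
    refine ae_mu_of (fun q => fl (dx (Phi α β (toC w))) q = fl (dy (Phi β α (toC w))) (rfT q)) ?_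
    intro s p hp
    exact (Phi_refl hc s p hp).2.2.symm
  · unfold ph1 ph2
    rw [Uc_cls rfT_mp (Phi_energy hw').1]
    apply cls_congr
    refine ae_mu_of (fun q => fl (dy (Phi α β (toC w))) q = fl (dx (Phi β α (toC w))) (rfT q)) ?_
    intro s p hp
    exact (Phi_refl hc s p hp).2.1.symm

private theorem R3_apply (v : K3 X) : R3 v 0 = Uc rfT rfT_mp (v 0) ∧
    R3 v 1 = Uc rfT rfT_mp (v 2) ∧ R3 v 2 = Uc rfT rfT_mp (v 1) := ⟨rfl, rfl, rfl⟩

private theorem iso_full (u : K3 X) (hu : u ∈ H1 α β) {w : X → ℝ} (hw : InW α β w) (ψ : K3 X)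
    (hψ : ψ ∈ H1 α β) :
    inner ℂ (u 1) (ph2 α β w + ψ 2) = inner ℂ (u 2) (ph1 α β w + ψ 1) := by
  rw [inner_add_right, inner_add_right, iso_H1 hu hψ]
  congr 1
  have hc : ∀ s, toC w (zeta α β s) = toC w s := fun s => by simp only [toC, hw.inv]
  exact iso_nice (nice_Phi hc) (Phi_energy hw).1 (Phi_energy hw).2 hu

private theorem sol_refl (hSG : SG α β) (hSG' : SG β α) {w : X → ℝ} (hw : InW α β w) {τ : ℂ}
    (hτ : τ ∈ HH) : sol α β w τ = R3 (sol β α w (1 / conj τ)) := by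
  have hw' : InW β α w := inW_swap hw
  have hτ' := inv_conj_mem_HH hτ
  have hτ0 := ne_zero_of_HH hτ
  have hτ0' : conj τ ≠ 0 := (map_ne_zero _).2 hτ0
  obtain ⟨⟨hmem, heq⟩, -, -⟩ := sol_spec hSG' hw' hτ'
  obtain ⟨-, -, huniq⟩ := sol_spec hSG hw hτ
  set ψ' := sol β α w (1 / conj τ) with hψ'
  refine (huniq (R3 ψ') ⟨refl_H1 hmem, ?_⟩).symm
  intro χ hχ
  set χ' := R3 χ with hχ'
  have hχ'm : χ' ∈ H1 β α := refl_H1 hχ
  have hχe : χ = R3 χ' := (R3_R3 χ).symm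
  have e := heq χ' hχ'm
  have hiso := iso_full χ' hχ'm hw' ψ' hmem
  obtain ⟨p1, p2⟩ := ph_refl hw
  rw [hχe, (R3_apply χ').2.1, (R3_apply χ').2.2, (R3_apply ψ').2.1, (R3_apply ψ').2.2, p1, p2]
  set U := Uc rfT (rfT_mp (X := X)) with hU
  set P' := ph1 β α w + ψ' 1 with hP'
  set R' := ph2 β α w + ψ' 2 with hR'
  have e1 : (U (ph1 β α w) + U (ψ' 1)) - (starRingEnd ℂ) τ • (U (ph2 β α w) + U (ψ' 2)) =
      U (P' - conj τ • R') := by
    rw [map_sub, map_smul, hP', hR', map_add, map_add]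
  have e2 : U (χ' 1) - (starRingEnd ℂ) τ • U (χ' 2) = U (χ' 1 - conj τ • χ' 2) := by
    rw [map_sub, map_smul]
  rw [e1, e2, LinearIsometry.inner_map_map]
  have hcc : (starRingEnd ℂ) (1 / (starRingEnd ℂ) τ) = 1 / τ := by
    rw [map_div₀, map_one, Complex.conj_conj]
  rw [hcc] at e
  simp only [inner_sub_left, inner_sub_right, inner_smul_left, inner_smul_right,
    Complex.conj_conj, hcc, map_div₀, map_one] at e ⊢
  have h3 : (inner ℂ (χ' 1) P' : ℂ) = τ * conj τ * ((1 / conj τ) * (1 / τ * inner ℂ (χ' 1) P')) := by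
    field_simp
  have key := congrArg (fun z => τ * conj τ * z) e
  simp only [mul_zero] at key
  rw [← key]
  field_simp
  rw [hiso]
  ring

theorem refl_eq (hSG : SG α β) (hSG' : SG β α) {w : X → ℝ} (hw : InW α β w) {τ : ℂ} (hτ : τ ∈ HH) :
    hh α β w τ = (1 / τ) • JK X (Uc rfT rfT_mp (hh β α w (1 / conj τ))) ∧
    (FF α β w τ =ᵐ[mu X] fun q => FF β α w (1 / conj τ) (rfT q)) ∧
    EE α β w τ = EE β α w (1 / conj τ) := by
  have hw' : InW β α w := inW_swap hw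
  have hτ' := inv_conj_mem_HH hτ
  have hτ0 := ne_zero_of_HH hτ
  have hτ0' : conj τ ≠ 0 := (map_ne_zero _).2 hτ0
  have hsol := sol_refl hSG hSG' hw hτ
  obtain ⟨p1, p2⟩ := ph_refl hw
  obtain ⟨q1, q2⟩ := PP_eq hSG' hw' hτ'
  have hP : PP α β w τ = Uc rfT rfT_mp (RR β α w (1 / conj τ)) := by
    unfold PP RR
    rw [hsol, (R3_apply _).2.1, p1, map_add]
  have hR : RR α β w τ = Uc rfT rfT_mp (PP β α w (1 / conj τ)) := by
    unfold PP RR
    rw [hsol, (R3_apply _).2.2, p2, map_add]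
  have hcc : (starRingEnd ℂ) (1 / (starRingEnd ℂ) τ) = 1 / τ := by
    rw [map_div₀, map_one, Complex.conj_conj]
  have h1 : hh α β w τ = (1 / τ) • JK X (Uc rfT rfT_mp (hh β α w (1 / conj τ))) := by
    have e0 : hh α β w τ = (1 / (τ - (starRingEnd ℂ) τ)) •
      (RR α β w τ - (starRingEnd ℂ) τ • PP α β w τ) := rfl
    rw [e0, hP, hR, q1, q2, hcc, ← Uc_JK]
    set h' := hh β α w (1 / conj τ) with hh'
    set U := Uc rfT (rfT_mp (X := X)) with hU
    simp only [map_add, map_smul]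
    have hne := sub_conj_ne hτ
    rw [smul_add, smul_smul, smul_smul, mul_one_div_cancel hτ0', one_smul, smul_sub, smul_add,
      smul_add, smul_smul, add_sub_add_left_eq_sub, ← sub_smul]
    congr 1
    field_simp
  refine ⟨h1, ?_, ?_⟩
  · have hc : ∀ s, toC w (zeta α β s) = toC w s := fun s => by simp only [toC, hw.inv]
    have a1 : ∀ᵐ q ∂(mu X), fl (Phi α β (toC w)) q = fl (Phi β α (toC w)) (rfT q) := by
      refine ae_mu_of (fun q => fl (Phi α β (toC w)) q = fl (Phi β α (toC w)) (rfT q)) ?_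
      intro s p hp
      exact (Phi_refl hc s p hp).1.symm
    have a2 := Uc_ae (rfT_mp (X := X)) (sol β α w (1 / conj τ) 0)
    filter_upwards [a1, a2] with q h2 h3
    unfold FF
    rw [hsol, (R3_apply _).1, h2, h3]
  · unfold EE
    rw [h1, norm_smul, norm_JK, LinearIsometry.norm_map, mul_pow, norm_div, norm_one,
      im_inv_conj]
    ring

theorem refl_Kf (hSG : SG α β) (hSG' : SG β α) {w w' : X → ℝ} (hw : InW α β w)
    (hw' : InW α β w') {τ : ℂ} (hτ : τ ∈ HH) :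
    Kf α β w w' τ = Kf β α w w' (1 / conj τ) := by
  obtain ⟨-, hF, -⟩ := refl_eq hSG hSG' hw hτ
  obtain ⟨hH, -, -⟩ := refl_eq hSG hSG' hw' hτ
  unfold Kf
  have hws : InW β α w := inW_swap hw
  have hc : ∀ s, toC w (zeta β α s) = toC w s := fun s => by simp only [toC, hws.inv]
  have hm : AEStronglyMeasurable (fun q => ‖FF β α w (1 / conj τ) q‖ ^ 2 *
      ‖(hh β α w' (1 / conj τ) : Sq X → ℂ) q‖ ^ 2) (mu X) := by
    have m1 : AEStronglyMeasurable (FF β α w (1 / conj τ)) (mu X) :=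
      (nice_meas (nice_Phi hc)).add (Lp.aestronglyMeasurable _)
    exact (m1.norm.pow 2).mul ((Lp.aestronglyMeasurable _).norm.pow 2)
  rw [← int_comp (rfT_mp (X := X)) hm, im_inv_conj]
  have e : ∀ᵐ q ∂(mu X), ‖FF α β w τ q‖ ^ 2 * ‖(hh α β w' τ : Sq X → ℂ) q‖ ^ 2 =
      (1 / ‖τ‖ ^ 2) * (‖FF β α w (1 / conj τ) (rfT q)‖ ^ 2 *
        ‖(hh β α w' (1 / conj τ) : Sq X → ℂ) (rfT q)‖ ^ 2) := by
    rw [hH]
    have a1 := Lp.coeFn_smul (1 / τ) (JK X (Uc rfT rfT_mp (hh β α w' (1 / conj τ))))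
    have a2 := JK_ae (Uc rfT rfT_mp (hh β α w' (1 / conj τ)))
    have a3 := Uc_ae (rfT_mp (X := X)) (hh β α w' (1 / conj τ))
    filter_upwards [hF, a1, a2, a3] with q b0 b1 b2 b3
    rw [b0, b1, Pi.smul_apply, b2, b3, norm_smul, RCLike.norm_conj, norm_div, norm_one]
    ring
  rw [integral_congr_ae e, integral_const_mul]
  ring

end Pool.Agent.Helper96.OF
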