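import Pool.Agent.Helper80.OF.TR

/-!
# OFS-RL: relabelling of the squares by a bijection θ with θ α = α' θ, θ β = β' θ

`rlT θ (s,p) = (θ s, p)`. measure preserving: θ preserves the counting measure (`Equiv`), product with the identity (`MeasurePreserving.prod`).
`nice_rlN`: everything pointwise: `f (θ (α s)) = f (α' (θ s))`, and θ intertwines `zeta α β` and `zeta α' β'`.
On every square `rlN θ f` has the same derivatives: `dx (rlN θ f) = rlN θ (dx f)` by definition (rfl). FinS: preimage of a finite set under θ.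
`relabel_into/onto`: as in SH3 (limits of trip (f k)); onto: use θ⁻¹. `Phi α β (c ∘ θ) = rlN θ (Phi α' β' c)` (α^k, β^k: `θ (α^k s) = α'^k (θ s)`), so `phi` of the transport data holds with δ = 0.
`inW_relabel`: summability reindexed by θ.
`relabel_eq`, `relabel_Kf`: TR with n = 0 (τ - 0 = τ; the cast `((0:ℝ):ℂ) = 0`).
-/

set_option autoImplicit false
set_option linter.unusedSectionVars false

open MeasureTheory Filter Topology

namespace Pool.Agent.Helper96.OF

variable {X : Type} {α β α' β' : Equiv.Perm X} {θ : Equiv.Perm X}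

private lemma rl_app (h1 : θ * α = α' * θ) (s : X) : α' (θ s) = θ (α s) := by
  have := congrArg (fun e : Equiv.Perm X => e s) h1
  simpa using this.symm

private lemma rl_zpow (h1 : θ * α = α' * θ) (k : ℤ) (s : X) :
    (α' ^ k) (θ s) = θ ((α ^ k) s) := by
  have h : α' = θ * α * θ⁻¹ := by rw [h1]; group
  rw [h, conj_zpow]
  simp

private lemma rl_zeta (h1 : θ * α = α' * θ) (h2 : θ * β = β' * θ) (s : X) :
    zeta α' β' (θ s) = θ (zeta α β s) := by
  have ha : α' = θ * α * θ⁻¹ := by rw [h1]; group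
  have hb : β' = θ * β * θ⁻¹ := by rw [h2]; group
  have h : zeta α' β' = θ * zeta α β * θ⁻¹ := by
    rw [ha, hb]
    unfold zeta
    group
  rw [h]
  simp

private lemma rl_inv (h1 : θ * α = α' * θ) : θ⁻¹ * α' = α * θ⁻¹ := by
  have h : α' = θ * α * θ⁻¹ := by rw [h1]; group
  rw [h]
  group

theorem inW_relabel (h1 : θ * α = α' * θ) (h2 : θ * β = β' * θ) {w : X → ℝ} (hw : InW α' β' w) :
    InW α β (fun x => w (θ x)) where
  bdd := by
    obtain ⟨C, hC⟩ := hw.bdd
    exact ⟨C, fun x => hC _⟩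
  inv x := by
    show w (θ (zeta α β x)) = w (θ x)
    rw [← rl_zeta h1 h2, hw.inv]
  sa := by
    have := (θ.summable_iff (f := fun x => (w (α' x) - w x) ^ 2)).2 hw.sa
    refine this.congr fun x => ?_
    simp only [Function.comp_apply]
    rw [rl_app h1]
  sb := by
    have := (θ.summable_iff (f := fun x => (w (β' x) - w x) ^ 2)).2 hw.sb
    refine this.congr fun x => ?_
    simp only [Function.comp_apply]
    rw [rl_app h2]

theorem nice_rlN (h1 : θ * α = α' * θ) (h2 : θ * β = β' * θ) {f : X → ℝ × ℝ → ℂ} {c : X → ℂ}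
    (hf : Nice α' β' f c) : Nice α β (rlN θ f) (fun s => c (θ s)) where
  smooth s := hf.smooth (θ s)
  row s x y hy hy' := by
    show f (θ s) (x + 1, y) = f (θ (α s)) (x, y)
    rw [hf.row (θ s) x y hy hy', rl_app h1]
  col s x y hx hx' := by
    show f (θ s) (x, y + 1) = f (θ (β s)) (x, y)
    rw [hf.col (θ s) x y hx hx', rl_app h2]
  corner := by
    obtain ⟨ρ, h0, h3, h⟩ := hf.corner
    refine ⟨ρ, h0, h3, fun s x y hx hx' hy hy' => ?_⟩
    obtain ⟨e1, e2, e3, e4⟩ := h (θ s) x y hx hx' hy hy'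
    refine ⟨e1, ?_, ?_, ?_⟩
    · show f (θ s) (1 - x, y) = c (θ (α s))
      rw [e2, rl_app h1]
    · show f (θ s) (x, 1 - y) = c (θ (β s))
      rw [e3, rl_app h2]
    · show f (θ s) (1 - x, 1 - y) = c (θ (β (α s)))
      rw [e4, rl_app h1, rl_app h2]
  cinv s := by
    show c (θ (zeta α β s)) = c (θ s)
    rw [← rl_zeta h1 h2, hf.cinv]

theorem Phi_relabel (h1 : θ * α = α' * θ) (h2 : θ * β = β' * θ) (c : X → ℂ) :
    Phi α β (fun s => c (θ s)) = rlN θ (Phi α' β' c) := by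
  funext s p
  simp only [Phi, ext, rlN]
  rw [rl_zpow h2, rl_zpow h1, rl_app h1, rl_app h2, rl_app h2]

variable [Countable X] [MeasurableSpace X] [DiscreteMeasurableSpace X]

theorem rlT_mp (θ : Equiv.Perm X) : MeasurePreserving (rlT θ) (mu X) (mu X) := by
  have h : MeasurePreserving (θ : X → X) Measure.count Measure.count := by
    have hm : Measurable (θ : X → X) := Measurable.of_discrete
    refine ⟨hm, ?_⟩
    ext s hs
    rw [Measure.map_apply hm hs, Measure.count_apply hs, Measure.count_apply (hm hs),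
      Set.encard_preimage_of_bijective θ.bijective]
  exact h.prod (MeasurePreserving.id _)

private lemma U3_trip (θ : Equiv.Perm X) {f : X → ℝ × ℝ → ℂ} {c : X → ℂ} (hf : Nice α' β' f c) (hs : FinS f) :
    U3 (rlT θ) (rlT_mp θ) 0 (trip f) = trip (rlN θ f) := by
  have a0 : MemLp (fl f) 2 (mu X) := nice_memLp hf hs 2
  have a1 : MemLp (fl (dx f)) 2 (mu X) := nice_memLp (nice_dx hf) (finS_dx hs).1 2
  have a2 : MemLp (fl (dy f)) 2 (mu X) := nice_memLp (nice_dy hf) (finS_dx hs).2 2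
  obtain ⟨e0, e1, e2⟩ := U3_apply (rlT_mp θ) 0 (trip f)
  ext i : 1
  fin_cases i
  · exact e0.trans (Uc_cls (rlT_mp θ) a0)
  · exact e1.trans (Uc_cls (rlT_mp θ) a1)
  · refine e2.trans ?_
    rw [Complex.ofReal_zero, zero_smul, zero_add]
    exact Uc_cls (rlT_mp θ) a2

private lemma finS_rlN (θ : Equiv.Perm X) {f : X → ℝ × ℝ → ℂ} (hs : FinS f) : FinS (rlN θ f) := by
  classical
  obtain ⟨S, hS⟩ := hs
  refine ⟨S.map (θ⁻¹ : Equiv.Perm X).toEmbedding, fun s h p hp => ?_⟩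
  refine hS (θ s) (fun h' => h ?_) p hp
  rw [Finset.mem_map]
  exact ⟨θ s, h', by simp⟩

private lemma relabel_into (h1 : θ * α = α' * θ) (h2 : θ * β = β' * θ) {v : K3 X}
    (hv : v ∈ H1 α' β') : U3 (rlT θ) (rlT_mp θ) 0 v ∈ H1 α β := by
  obtain ⟨f, c, h, hlim⟩ := (mem_H1_iff v).1 hv
  refine (mem_H1_iff _).2 ⟨fun n => rlN θ (f n), fun n s => c n (θ s),
    fun n => ⟨nice_rlN h1 h2 (h n).1, finS_rlN θ (h n).2⟩, ?_⟩
  exact (((continuous_U3 (rlT_mp θ) 0).tendsto v).comp hlim).congr fun n =>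
    U3_trip θ (h n).1 (h n).2

theorem relabel_Tr (h1 : θ * α = α' * θ) (h2 : θ * β = β' * θ) {w : X → ℝ} (hw : InW α' β' w) :
    Tr α β α' β' (fun x => w (θ x)) w (rlT θ) (rlT_mp θ) 0 where
  into v hv := relabel_into h1 h2 hv
  onto v hv := by
    refine ⟨U3 (rlT θ⁻¹) (rlT_mp θ⁻¹) 0 v, relabel_into (rl_inv h1) (rl_inv h2) hv, ?_⟩
    have := U3_comp_id (rlT_mp θ) (rlT_mp θ⁻¹)
      (Eventually.of_forall fun q => by simp [rlT]) 0 v
    rwa [neg_zero] at this
  phi := by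
    have hP : Phi α β (toC fun x => w (θ x)) = rlN θ (Phi α' β' (toC w)) :=
      Phi_relabel h1 h2 (toC w)
    obtain ⟨m1, m2⟩ := Phi_energy hw
    refine ⟨0, Submodule.zero_mem _, ?_, ?_, ?_⟩
    · have h0 : ((0 : K3 X) 0 : KK X) = 0 := rfl
      rw [h0, hP]
      filter_upwards [Lp.coeFn_zero ℂ 2 (mu X)] with q hq
      rw [hq]
      show (0 : ℂ) = Phi α' β' (toC w) (θ q.1) q.2 - Phi α' β' (toC w) (θ q.1) q.2
      rw [sub_self]
    · have h0 : ((0 : K3 X) 1 : KK X) = 0 := rfl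
      rw [h0, add_zero]
      unfold ph1
      rw [Uc_cls (rlT_mp θ) m1, hP]
      rfl
    · have h0 : ((0 : K3 X) 2 : KK X) = 0 := rfl
      rw [h0, add_zero, Complex.ofReal_zero, zero_smul, zero_add]
      unfold ph2
      rw [Uc_cls (rlT_mp θ) m2, hP]
      rfl

theorem relabel_eq (h1 : θ * α = α' * θ) (h2 : θ * β = β' * θ) (hSG : SG α β) (hSG' : SG α' β')
    {w : X → ℝ} (hw : InW α' β' w) {τ : ℂ} (hτ : τ ∈ HH) :
    hh α β (fun x => w (θ x)) τ = Uc (rlT θ) (rlT_mp θ) (hh α' β' w τ) ∧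
    (FF α β (fun x => w (θ x)) τ =ᵐ[mu X] fun q => FF α' β' w τ (rlT θ q)) ∧
    EE α β (fun x => w (θ x)) τ = EE α' β' w τ := by
  have := (relabel_Tr h1 h2 hw).hh_eq hSG hSG' (inW_relabel h1 h2 hw) hw hτ
  simpa only [Complex.ofReal_zero, sub_zero] using this

theorem relabel_Kf (h1 : θ * α = α' * θ) (h2 : θ * β = β' * θ) (hSG : SG α β) (hSG' : SG α' β')
    {w w' : X → ℝ} (hw : InW α' β' w) (hw' : InW α' β' w') {τ : ℂ} (hτ : τ ∈ HH) :
    Kf α β (fun x => w (θ x)) (fun x => w' (θ x)) τ = Kf α' β' w w' τ := by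
  have := (relabel_Tr h1 h2 hw).Kf_eq (relabel_Tr h1 h2 hw') hSG hSG' (inW_relabel h1 h2 hw) hw
    (inW_relabel h1 h2 hw') hw' hτ
  simpa only [Complex.ofReal_zero, sub_zero] using this

end Pool.Agent.Helper96.OF
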