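import Pool.Agent.Helper80.OF.S0

/-!
# OFS-TR: transport of the solution along transport data `Tr`

Let `ψ' = sol α' β' w' (τ - n)` (FT6 sol_spec: it satisfies IsSol), δ from `H.phi`, `ψ = U3 T hT n ψ' + δ ∈ H1 α β`. Write P = ph1 + ψ 1, R = ph2 + ψ 2, P', R' for the primed ones, U = Uc T hT. By `H.phi` and `U3_apply`:
`P = U P'`, `R = n U P' + U R'`, so `R - conj τ • P = U (R' - conj (τ - n) • P')` (n real). For χ ∈ H1 α β take χ' with `U3 χ' = χ` (H.onto): `χ 2 - conj τ • χ 1 = U (χ' 2 - conj (τ-n) • χ' 1)`. `Uc_inner` gives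
`IsSol α β w τ ψ`; by uniqueness (sol_spec) `sol α β w τ = ψ`. So `PP = U PP'`, `RR = n U PP' + U RR'`, `hh = U hh'` (`τ - conj τ = (τ-n) - conj (τ-n)`), `EE` equal (norm_map, `(τ - n).im = τ.im`), and
`FF q = fl Φ q + (U ψ' 0) q + (δ 0) q = fl Φ' (T q) + (ψ' 0) (T q)` a.e. `Kf`: the integrand is `G (T q)` a.e. with `G q = ‖FF' q‖² ‖hh' q‖²` a.e. strongly measurable (FT10 FF_meas), `int_comp`.
-/

set_option autoImplicit false

open MeasureTheory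
open scoped ComplexConjugate

namespace Pool.Agent.Helper96.OF

variable {X : Type} [Countable X] [MeasurableSpace X] [DiscreteMeasurableSpace X]
  {α β α' β' : Equiv.Perm X} {w w' : X → ℝ} {T : Sq X → Sq X}
  {hT : MeasurePreserving T (mu X) (mu X)} {n : ℝ}

omit [Countable X] [DiscreteMeasurableSpace X] in
private theorem K3_add (u v : K3 X) (i : Fin 3) : (u + v) i = u i + v i := rfl

private theorem conj_sub_ofReal (τ : ℂ) (n : ℝ) : conj (τ - (n : ℂ)) = conj τ - (n : ℂ) := by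
  rw [map_sub, Complex.conj_ofReal]

/-- the main computation -/
private theorem Tr.main (H : Tr α β α' β' w w' T hT n) (hSG : SG α β) (hSG' : SG α' β')
    (hw : InW α β w) (hw' : InW α' β' w') {τ : ℂ} (hτ : τ ∈ HH) :
    PP α β w τ = Uc T hT (PP α' β' w' (τ - n)) ∧
    RR α β w τ - conj τ • PP α β w τ =
      Uc T hT (RR α' β' w' (τ - n) - conj (τ - (n : ℂ)) • PP α' β' w' (τ - n)) ∧
    ∃ δ : K3 X, ((δ 0 : Sq X → ℂ) =ᵐ[mu X] fun q =>
      fl (Phi α' β' (toC w')) (T q) - fl (Phi α β (toC w)) q) ∧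
      sol α β w τ 0 = Uc T hT (sol α' β' w' (τ - n) 0) + δ 0 := by
  have hτ' : τ - (n : ℂ) ∈ HH := by
    have h1 : (τ - (n : ℂ)).im = τ.im := by simp
    show 0 < (τ - (n : ℂ)).im
    rw [h1]
    exact hτ
  obtain ⟨δ, hδ, hδ0, hδ1, hδ2⟩ := H.phi
  set ψ' := sol α' β' w' (τ - n) with hψ'
  obtain ⟨⟨hψ1, hψ2⟩, -, -⟩ := sol_spec hSG' hw' hτ'
  obtain ⟨e0, e1, e2⟩ := U3_apply hT n ψ'
  have hP : ph1 α β w + (U3 T hT n ψ' + δ) 1 = Uc T hT (ph1 α' β' w' + ψ' 1) := by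
    rw [K3_add, e1, map_add, ← hδ1]
    abel
  have hR : ph2 α β w + (U3 T hT n ψ' + δ) 2 =
      (n : ℂ) • Uc T hT (ph1 α' β' w' + ψ' 1) + Uc T hT (ph2 α' β' w' + ψ' 2) := by
    rw [K3_add, e2, map_add, map_add, smul_add]
    have h1 : ph2 α β w + ((n : ℂ) • Uc T hT (ψ' 1) + Uc T hT (ψ' 2) + δ 2) =
        (ph2 α β w + δ 2) + ((n : ℂ) • Uc T hT (ψ' 1) + Uc T hT (ψ' 2)) := by abel
    rw [h1, hδ2]
    abel
  have hD : (ph2 α β w + (U3 T hT n ψ' + δ) 2) - conj τ • (ph1 α β w + (U3 T hT n ψ' + δ) 1) =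
      Uc T hT ((ph2 α' β' w' + ψ' 2) - conj (τ - (n : ℂ)) • (ph1 α' β' w' + ψ' 1)) := by
    rw [hP, hR, conj_sub_ofReal, map_sub, map_smul, sub_smul]
    abel
  have hsol : IsSol α β w τ (U3 T hT n ψ' + δ) := by
    refine ⟨Submodule.add_mem _ (H.into _ hψ1) hδ, fun χ hχ => ?_⟩
    obtain ⟨χ', hχ', rfl⟩ := H.onto χ hχ
    obtain ⟨f0, f1, f2⟩ := U3_apply hT n χ'
    have h1 : U3 T hT n χ' 2 - (starRingEnd ℂ) τ • U3 T hT n χ' 1 =
        Uc T hT (χ' 2 - (starRingEnd ℂ) (τ - (n : ℂ)) • χ' 1) := by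
      rw [f1, f2, conj_sub_ofReal, map_sub, map_smul, sub_smul]
      abel
    rw [h1, hD, Uc_inner]
    exact hψ2 χ' hχ'
  have hs : U3 T hT n ψ' + δ = sol α β w τ := (sol_spec hSG hw hτ).2.2 _ hsol
  refine ⟨?_, ?_, δ, hδ0, ?_⟩
  · rw [PP, ← hs, hP, PP, ← hψ']
  · rw [RR, PP, ← hs, hD, RR, PP, ← hψ']
  · rw [← hs, K3_add, e0]

theorem Tr.hh_eq (H : Tr α β α' β' w w' T hT n) (hSG : SG α β) (hSG' : SG α' β')
    (hw : InW α β w) (hw' : InW α' β' w') {τ : ℂ} (hτ : τ ∈ HH) :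
    hh α β w τ = Uc T hT (hh α' β' w' (τ - n)) ∧
    (FF α β w τ =ᵐ[mu X] fun q => FF α' β' w' (τ - n) (T q)) ∧
    EE α β w τ = EE α' β' w' (τ - n) := by
  obtain ⟨h1, h2, δ, h3, h4⟩ := H.main hSG hSG' hw hw' hτ
  have hh1 : hh α β w τ = Uc T hT (hh α' β' w' (τ - n)) := by
    have e1 : τ - (n : ℂ) - conj (τ - (n : ℂ)) = τ - conj τ := by
      rw [conj_sub_ofReal]
      ring
    rw [hh, h2, hh, e1, map_smul]
  refine ⟨hh1, ?_, ?_⟩
  · have h5 := Lp.coeFn_add (Uc T hT (sol α' β' w' (τ - n) 0)) (δ 0)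
    have h6 := Uc_ae hT (sol α' β' w' (τ - n) 0)
    rw [← h4] at h5
    filter_upwards [h3, h5, h6] with q g3 g5 g6
    rw [FF, g5, Pi.add_apply, g3, g6, FF]
    ring
  · rw [EE, EE, hh1, LinearIsometry.norm_map]
    congr 2
    simp

theorem Tr.Kf_eq {w1 w1' : X → ℝ} (H : Tr α β α' β' w w' T hT n) (H1 : Tr α β α' β' w1 w1' T hT n)
    (hSG : SG α β) (hSG' : SG α' β') (hw : InW α β w) (hw' : InW α' β' w')
    (hw1 : InW α β w1) (hw1' : InW α' β' w1') {τ : ℂ} (hτ : τ ∈ HH) :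
    Kf α β w w1 τ = Kf α' β' w' w1' (τ - n) := by
  have hτ' : τ - (n : ℂ) ∈ HH := by
    have h1 : (τ - (n : ℂ)).im = τ.im := by simp
    show 0 < (τ - (n : ℂ)).im
    rw [h1]
    exact hτ
  obtain ⟨-, hF, -⟩ := H.hh_eq hSG hSG' hw hw' hτ
  obtain ⟨hh1, -, -⟩ := H1.hh_eq hSG hSG' hw1 hw1' hτ
  have h6 := Uc_ae hT (hh α' β' w1' (τ - n))
  rw [← hh1] at h6
  have hG : AEStronglyMeasurable (fun q : Sq X => ‖FF α' β' w' (τ - n) q‖ ^ 2 *
      ‖(hh α' β' w1' (τ - n) : Sq X → ℂ) q‖ ^ 2) (mu X) :=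
    ((FF_meas hSG' hw' hτ').1.norm.pow 2).mul
      ((Lp.aestronglyMeasurable _).norm.pow 2)
  rw [Kf, Kf, ← int_comp hT hG]
  congr 1
  · simp
  · refine integral_congr_ae ?_
    filter_upwards [hF, h6] with q g1 g2
    rw [g1, g2]

end Pool.Agent.Helper96.OF
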