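import Pool.Agent.Helper80.OF.SH3
import Pool.Agent.Helper80.OF.SH4
import Pool.Agent.Helper80.OF.TR

/-!
# OFS-SH5: transport data of the shear

`into`, `onto`: SH3. `phi`: `g = shN β n (Phi α β' (toC w)) - Phi α β (toC w)` is nice with corner values `w - w = 0` (SH2 nice_shN, FT7 nice_Phi for both markings [w is invariant under `zeta α β' = zeta α β`], FT1 nice_add, nice_smul).
On the unit squares `fl g q = Φ'(T q) - Φ q`, `g_x = Φ'_x(T q) - Φ_x q`, `g_y = n Φ'_x(T q) + Φ'_y(T q) - Φ_y q` (SH2 shN_unitSq, FT1 dx_add, dx_smul). `fl g ∈ L²` by SH4, derivatives in L² by FT7 Phi_energy and S0 memLp_T.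
So `trip g ∈ H1 α β` by FT8 `cut`; δ := trip g. (cls_ae, cls_add, cls_smul, Uc_cls.)
The final statement: `Tr.hh_eq`, `Tr.Kf_eq` of TR for this data.
-/

set_option autoImplicit false

open MeasureTheory

namespace Pool.Agent.Helper96.OF

variable {X : Type} [Countable X] [MeasurableSpace X] [DiscreteMeasurableSpace X]
  {α β : Equiv.Perm X}

theorem shear_Tr {w : X → ℝ} (hw : InW α β w) (n : ℤ) :
    Tr α β α (β * α ^ (-n)) w w (shT α n) (shT_mp α n) (n : ℝ) where
  into := fun v hv => shear_into n hv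
  onto := fun v hv => shear_onto n hv
  phi := by
    have hw' := inW_shear hw n
    have hT := shT_mp α n
    have hc : ∀ s, toC w (zeta α β s) = toC w s := fun s => by simp [toC, hw.inv]
    have hc' : ∀ s, toC w (zeta α (β * α ^ (-n)) s) = toC w s := fun s => by
      have h := hw'.inv s
      simp only [toC, h]
    have hN : Nice α β (Phi α β (toC w)) (toC w) := nice_Phi hc
    have hN' : Nice α (β * α ^ (-n)) (Phi α (β * α ^ (-n)) (toC w)) (toC w) := nice_Phi hc'
    set F : X → ℝ × ℝ → ℂ := Phi α β (toC w) with hF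
    set F' : X → ℝ × ℝ → ℂ := Phi α (β * α ^ (-n)) (toC w) with hF'
    have hS : Nice α β (shN β n F') (toC w) := nice_shN n hN'
    have hm : Nice α β (fun s p => (-1 : ℂ) * F s p) (fun s => (-1 : ℂ) * toC w s) := nice_smul (-1) hN
    set g : X → ℝ × ℝ → ℂ := fun s p => shN β n F' s p + (-1 : ℂ) * F s p with hg
    have hgN : Nice α β g (fun _ => 0) := by
      have h := nice_add hS hm
      have e : (fun s => toC w s + (-1 : ℂ) * toC w s) = fun _ => (0:ℂ) := by funext s; ring
      rw [e] at h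
      exact h
    have hE := Phi_energy hw
    have hE' := Phi_energy hw'
    have v0 : ∀ᵐ q ∂(mu X), fl g q = fl F' (shT α n q) - fl F q := by
      refine ae_mu_of _ fun s p hp => ?_
      have h := (shN_unitSq n hN' s p hp).1
      rw [← h]
      simp only [fl, hg]; ring
    have v1 : ∀ᵐ q ∂(mu X), fl (dx g) q = fl (dx F') (shT α n q) + (-1 : ℂ) * fl (dx F) q := by
      refine ae_mu_of _ fun s p hp => ?_
      have h := (shN_unitSq n hN' s p hp).2.1
      have h2 := (dx_add hS hm s p (unitSq_subset_Cross hp)).1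
      have h3 := (dx_smul (-1) hN s p (unitSq_subset_Cross hp)).1
      rw [← h]
      simp only [fl, hg]
      rw [h2, h3]
    have v2 : ∀ᵐ q ∂(mu X), fl (dy g) q =
        ((n : ℂ) * fl (dx F') (shT α n q) + fl (dy F') (shT α n q)) + (-1 : ℂ) * fl (dy F) q := by
      refine ae_mu_of _ fun s p hp => ?_
      have h := (shN_unitSq n hN' s p hp).2.2
      have h2 := (dx_add hS hm s p (unitSq_subset_Cross hp)).2
      have h3 := (dx_smul (-1) hN s p (unitSq_subset_Cross hp)).2
      rw [← h]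
      simp only [fl, hg]
      rw [h2, h3]
    have m1 := memLp_T hT hE'.1
    have m2 := memLp_T hT hE'.2
    have L0 : MemLp (fl g) 2 (mu X) := (shear_phi_L2 hw n).ae_eq (v0.mono fun q h => h.symm)
    have L1 : MemLp (fl (dx g)) 2 (mu X) :=
      (m1.add (hE.1.const_mul (-1))).ae_eq (v1.mono fun q h => by rw [h]; rfl)
    have L2 : MemLp (fl (dy g)) 2 (mu X) :=
      (((m1.const_mul (n : ℂ)).add m2).add (hE.2.const_mul (-1))).ae_eq
        (v2.mono fun q h => by rw [h]; rfl)
    refine ⟨trip g, cut hgN L0 L1 L2, ?_, ?_, ?_⟩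
    · have e : trip g 0 = cls (fl g) := rfl
      rw [e]
      exact (cls_ae L0).trans v0
    · have e : trip g 1 = cls (fl (dx g)) := rfl
      rw [e, ph1, ph1, Uc_cls _ hE'.1, cls_congr v1, cls_add m1 (hE.1.const_mul (-1)), cls_smul hE.1]
      rw [neg_one_smul]
      abel
    · have e : trip g 2 = cls (fl (dy g)) := rfl
      have m12 : MemLp (fun q => (n : ℂ) * fl (dx F') (shT α n q) + fl (dy F') (shT α n q)) 2 (mu X) :=
        (m1.const_mul (n : ℂ)).add m2
      have e1 := cls_add m12 (hE.2.const_mul (-1))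
      have e2 := cls_add (m1.const_mul (n : ℂ)) m2
      rw [e, ph1, ph2, ph2, Uc_cls _ hE'.1, Uc_cls _ hE'.2, cls_congr v2, e1, e2, cls_smul hE.2,
        cls_smul m1]
      rw [neg_one_smul]
      push_cast
      abel

theorem sg_shear (h : SG α β) (n : ℤ) : SG α (β * α ^ (-n)) := by
  refine sg_marking h (Subgroup.subset_closure (by simp)) ?_
  have h1 : α ∈ Subgroup.closure ({α, β * α ^ (-n)} : Set (Equiv.Perm X)) :=
    Subgroup.subset_closure (by simp)
  have h2 : β * α ^ (-n) ∈ Subgroup.closure ({α, β * α ^ (-n)} : Set (Equiv.Perm X)) :=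
    Subgroup.subset_closure (by simp)
  have h3 := Subgroup.mul_mem _ h2 (Subgroup.zpow_mem _ h1 n)
  rwa [mul_assoc, ← zpow_add, neg_add_cancel, zpow_zero, mul_one] at h3

theorem shear_eq (hSG : SG α β) {w : X → ℝ} (hw : InW α β w) (n : ℤ) {τ : ℂ} (hτ : τ ∈ HH) :
    hh α β w τ = Uc (shT α n) (shT_mp α n) (hh α (β * α ^ (-n)) w (τ - n)) ∧
    (FF α β w τ =ᵐ[mu X] fun q => FF α (β * α ^ (-n)) w (τ - n) (shT α n q)) ∧
    EE α β w τ = EE α (β * α ^ (-n)) w (τ - n) := by
  have h := (shear_Tr hw n).hh_eq hSG (sg_shear hSG n) hw (inW_shear hw n) hτ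
  simpa using h

theorem shear_Kf (hSG : SG α β) {w w' : X → ℝ} (hw : InW α β w) (hw' : InW α β w') (n : ℤ) {τ : ℂ}
    (hτ : τ ∈ HH) : Kf α β w w' τ = Kf α (β * α ^ (-n)) w w' (τ - n) := by
  have h := (shear_Tr hw n).Kf_eq (shear_Tr hw' n) hSG (sg_shear hSG n) hw (inW_shear hw n) hw'
    (inW_shear hw' n) hτ
  simpa using h

end Pool.Agent.Helper96.OF
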