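import Pool.Agent.Helper80.OF.M0
import Pool.Agent.Helper80.OF.SH5
import Pool.Agent.Helper80.OF.RF2
import Pool.Agent.Helper80.OF.RL

/-!
# OFS-M1: energies of the markings `act^ψ`
-/

set_option autoImplicit false

open MeasureTheory
open scoped ComplexConjugate

namespace Pool.Agent.Helper96.OF

private lemma sub_one_mem_HH {τ : ℂ} (hτ : τ ∈ HH) : τ - 1 ∈ HH := by
  simpa [HH] using hτ

private lemma t2_aux {τ : ℂ} (hτ : τ ∈ HH) :
    1 / conj (1 / conj τ - 1) = τ / (1 - τ) := by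
  have h0 : τ ≠ 0 := by
    rintro rfl
    simp [HH] at hτ
  have h1 : (1 : ℂ) - τ ≠ 0 := by
    intro h
    have : τ = 1 := by linear_combination -h
    rw [this] at hτ
    simp [HH] at hτ
  have h2 : conj (1 / conj τ - 1) = 1 / τ - 1 := by
    simp
  rw [h2]
  have h3 : 1 / τ - 1 = (1 - τ) / τ := by
    field_simp
  rw [h3, one_div_div]

variable {X : Type} [MulAction A X] [Countable X] [MeasurableSpace X] [DiscreteMeasurableSpace X]

private lemma sg_swap {α β : Equiv.Perm X} (h : SG α β) : SG β α := by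
  obtain ⟨C, h0, hC⟩ := h
  refine ⟨C, h0, fun w hw => ?_⟩
  rw [add_comm (∑' x, (w (β x) - w x) ^ 2)]
  exact hC w hw

private lemma shear_one {α β : Equiv.Perm X} (hSG : SG α β) {w : X → ℝ} (hw : InW α β w) {τ : ℂ}
    (hτ : τ ∈ HH) : EE α (β * α⁻¹) w (τ - 1) = EE α β w τ := by
  have h := (shear_eq hSG hw 1 hτ).2.2
  simp only [zpow_neg, zpow_one, Int.cast_one] at h
  exact h.symm

private lemma shear_one_Kf {α β : Equiv.Perm X} (hSG : SG α β) {w w' : X → ℝ} (hw : InW α β w)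
    (hw' : InW α β w') {τ : ℂ} (hτ : τ ∈ HH) :
    Kf α (β * α⁻¹) w w' (τ - 1) = Kf α β w w' τ := by
  have h := shear_Kf hSG hw hw' 1 hτ
  simp only [zpow_neg, zpow_one, Int.cast_one] at h
  exact h.symm

private lemma sg_one {α β : Equiv.Perm X} (h : SG α β) : SG α (β * α⁻¹) := by
  have := sg_shear h 1
  simpa only [zpow_neg, zpow_one] using this

private lemma inW_one {α β : Equiv.Perm X} {w : X → ℝ} (hw : InW α β w) :
    InW α (β * α⁻¹) w := by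
  have := inW_shear hw 1
  simpa only [zpow_neg, zpow_one] using this

theorem EE_t1 (hSG : SG (MulAction.toPerm ga : Equiv.Perm X) (MulAction.toPerm gb)) {w : X → ℝ}
    (hw : InW (MulAction.toPerm ga : Equiv.Perm X) (MulAction.toPerm gb) w) {ψ : MulAut A}
    (hψ : ψ ∈ B3) {τ : ℂ} (hτ : τ ∈ HH) :
    EE (al X (t1 * ψ)) (be X (t1 * ψ)) w (τ - 1) = EE (al X ψ) (be X ψ) w τ := by
  rw [(al_t1 ψ).1, (al_t1 ψ).2]
  exact shear_one (sg_psi ψ hSG) (inW_psi hψ hw) hτ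

theorem EE_t2 (hSG : SG (MulAction.toPerm ga : Equiv.Perm X) (MulAction.toPerm gb)) {w : X → ℝ}
    (hw : InW (MulAction.toPerm ga : Equiv.Perm X) (MulAction.toPerm gb) w) {ψ : MulAut A}
    (hψ : ψ ∈ B3) {τ : ℂ} (hτ : τ ∈ HH) :
    EE (al X (t2 * ψ)) (be X (t2 * ψ)) w (τ / (1 - τ)) = EE (al X ψ) (be X ψ) w τ := by
  rw [(al_t2 ψ).1, (al_t2 ψ).2]
  have hS := sg_psi ψ hSG
  have hW := inW_psi hψ hw
  have hS' := sg_swap hS
  have hτ' := inv_conj_mem_HH hτ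
  have e1 := (refl_eq hS hS' hW hτ).2.2
  have e2 := shear_one hS' (inW_swap hW) hτ'
  have e3 := (refl_eq (sg_one hS') (sg_swap (sg_one hS')) (inW_one (inW_swap hW))
    (sub_one_mem_HH hτ')).2.2
  rw [t2_aux hτ] at e3
  rw [← e3, e2, e1]

theorem Kf_t1 (hSG : SG (MulAction.toPerm ga : Equiv.Perm X) (MulAction.toPerm gb)) {w w' : X → ℝ}
    (hw : InW (MulAction.toPerm ga : Equiv.Perm X) (MulAction.toPerm gb) w)
    (hw' : InW (MulAction.toPerm ga : Equiv.Perm X) (MulAction.toPerm gb) w') {ψ : MulAut A}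
    (hψ : ψ ∈ B3) {τ : ℂ} (hτ : τ ∈ HH) :
    Kf (al X (t1 * ψ)) (be X (t1 * ψ)) w w' (τ - 1) = Kf (al X ψ) (be X ψ) w w' τ := by
  rw [(al_t1 ψ).1, (al_t1 ψ).2]
  exact shear_one_Kf (sg_psi ψ hSG) (inW_psi hψ hw) (inW_psi hψ hw') hτ

theorem Kf_t2 (hSG : SG (MulAction.toPerm ga : Equiv.Perm X) (MulAction.toPerm gb)) {w w' : X → ℝ}
    (hw : InW (MulAction.toPerm ga : Equiv.Perm X) (MulAction.toPerm gb) w)
    (hw' : InW (MulAction.toPerm ga : Equiv.Perm X) (MulAction.toPerm gb) w') {ψ : MulAut A}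
    (hψ : ψ ∈ B3) {τ : ℂ} (hτ : τ ∈ HH) :
    Kf (al X (t2 * ψ)) (be X (t2 * ψ)) w w' (τ / (1 - τ)) = Kf (al X ψ) (be X ψ) w w' τ := by
  rw [(al_t2 ψ).1, (al_t2 ψ).2]
  have hS := sg_psi ψ hSG
  have hW := inW_psi hψ hw
  have hW' := inW_psi hψ hw'
  have hS' := sg_swap hS
  have hτ' := inv_conj_mem_HH hτ
  have e1 := refl_Kf hS hS' hW hW' hτ
  have e2 := shear_one_Kf hS' (inW_swap hW) (inW_swap hW') hτ'
  have e3 := refl_Kf (sg_one hS') (sg_swap (sg_one hS')) (inW_one (inW_swap hW))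
    (inW_one (inW_swap hW')) (sub_one_mem_HH hτ')
  rw [t2_aux hτ] at e3
  rw [← e3, e2, e1]

theorem EE_theta (hSG : SG (MulAction.toPerm ga : Equiv.Perm X) (MulAction.toPerm gb)) {w : X → ℝ}
    (hw : InW (MulAction.toPerm ga : Equiv.Perm X) (MulAction.toPerm gb) w) {μ ψ : MulAut A}
    (hμ : μ ∈ B3) (hψ : ψ ∈ B3) {θ : Equiv.Perm X}
    (hθ : ∀ (g : A) (x : X), θ ((μ⁻¹ g) • x) = g • θ x) (h2 : L2s (fun x => w (θ x) - w x))
    {τ : ℂ} (hτ : τ ∈ HH) :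
    EE (al X (ψ * μ)) (be X (ψ * μ)) w τ = EE (al X ψ) (be X ψ) w τ := by
  have hψμ : ψ * μ ∈ B3 := mul_mem hψ hμ
  have hI := theta_al hθ ψ
  have e1 := (relabel_eq hI.1 hI.2 (sg_psi (ψ * μ) hSG) (sg_psi ψ hSG) (inW_psi hψ hw) hτ).2.2
  have e2 := (FF_L2 (sg_psi (ψ * μ) hSG) (inW_relabel hI.1 hI.2 (inW_psi hψ hw))
    (inW_psi hψμ hw) h2 hτ).1
  rw [← e1]
  unfold EE
  rw [e2]

theorem Kf_theta (hSG : SG (MulAction.toPerm ga : Equiv.Perm X) (MulAction.toPerm gb))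
    {w w' : X → ℝ} (hw : InW (MulAction.toPerm ga : Equiv.Perm X) (MulAction.toPerm gb) w)
    (hw' : InW (MulAction.toPerm ga : Equiv.Perm X) (MulAction.toPerm gb) w') {μ ψ : MulAut A}
    (hμ : μ ∈ B3) (hψ : ψ ∈ B3) {θ : Equiv.Perm X}
    (hθ : ∀ (g : A) (x : X), θ ((μ⁻¹ g) • x) = g • θ x) (h2 : L2s (fun x => w (θ x) - w x))
    (h2' : L2s (fun x => w' (θ x) - w' x)) {τ : ℂ} (hτ : τ ∈ HH) :
    Kf (al X (ψ * μ)) (be X (ψ * μ)) w w' τ = Kf (al X ψ) (be X ψ) w w' τ := by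
  have hψμ : ψ * μ ∈ B3 := mul_mem hψ hμ
  have hI := theta_al hθ ψ
  have e1 := relabel_Kf hI.1 hI.2 (sg_psi (ψ * μ) hSG) (sg_psi ψ hSG) (inW_psi hψ hw)
    (inW_psi hψ hw') hτ
  have e2 := (FF_L2 (sg_psi (ψ * μ) hSG) (inW_relabel hI.1 hI.2 (inW_psi hψ hw))
    (inW_psi hψμ hw) h2 hτ).2
  have e3 := (FF_L2 (sg_psi (ψ * μ) hSG) (inW_relabel hI.1 hI.2 (inW_psi hψ hw'))
    (inW_psi hψμ hw') h2' hτ).1
  rw [← e1]
  unfold Kf
  rw [e3]
  congr 1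
  refine integral_congr_ae ?_
  filter_upwards [e2] with q hq
  rw [hq]

end Pool.Agent.Helper96.OF
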