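import Pool.Agent.Helper96.OF.FT10

/-!
# OFS-SDefs: transformations of the surface (shear, reflection, relabelling), general transport data
-/

set_option autoImplicit false

open MeasureTheory
open scoped ComplexConjugate

namespace Pool.Agent.Helper96.OF

variable {X : Type}

/-- shear `(s; x, y) ↦ (s; x + n y, y)` from the surface of `(α, β)` to that of `(α, β α⁻ⁿ)` -/
noncomputable def shT (α : Equiv.Perm X) (n : ℤ) : Sq X → Sq X := fun q =>
  ((α ^ ⌊q.2.1 + (n : ℝ) * q.2.2⌋) q.1, (Int.fract (q.2.1 + (n : ℝ) * q.2.2), q.2.2))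

/-- sheared family: `f` nice for `(α, β α⁻ⁿ)`, the result is nice for `(α, β)` -/
noncomputable def shN (β : Equiv.Perm X) (n : ℤ) (f : X → ℝ × ℝ → ℂ) : X → ℝ × ℝ → ℂ := fun s p =>
  f ((β ^ ⌊p.2⌋) s) (p.1 + (n : ℝ) * Int.fract p.2, Int.fract p.2)

/-- reflection `(s; x, y) ↦ (s; y, x)` from the surface of `(α, β)` to that of `(β, α)` -/
def rfT : Sq X → Sq X := fun q => (q.1, (q.2.2, q.2.1))

/-- reflected family -/
def rfN (f : X → ℝ × ℝ → ℂ) : X → ℝ × ℝ → ℂ := fun s p => f s (p.2, p.1)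

/-- relabelling -/
def rlT (θ : Equiv.Perm X) : Sq X → Sq X := fun q => (θ q.1, q.2)

/-- relabelled family -/
def rlN (θ : Equiv.Perm X) (f : X → ℝ × ℝ → ℂ) : X → ℝ × ℝ → ℂ := fun s p => f (θ s) p

variable [MeasurableSpace X]

/-- composition with a measure preserving map as an isometry of `L²` -/
noncomputable def Uc (T : Sq X → Sq X) (hT : MeasurePreserving T (mu X) (mu X)) :
    KK X →ₗᵢ[ℂ] KK X := Lp.compMeasurePreservingₗᵢ ℂ T hT

/-- action on triples: `(v0, v1, v2) ↦ (U v0, U v1, n U v1 + U v2)` -/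
noncomputable def U3 (T : Sq X → Sq X) (hT : MeasurePreserving T (mu X) (mu X)) (n : ℝ)
    (v : K3 X) : K3 X :=
  WithLp.toLp 2 ![Uc T hT (v 0), Uc T hT (v 1), (n : ℂ) • Uc T hT (v 1) + Uc T hT (v 2)]

/-- transport data from the surface `(α, β)` with `w` to the surface `(α', β')` with `w'`;
`z` on the first surface at `τ` is `z` on the second surface at `τ - n` -/
structure Tr (α β α' β' : Equiv.Perm X) (w w' : X → ℝ) (T : Sq X → Sq X)
    (hT : MeasurePreserving T (mu X) (mu X)) (n : ℝ) : Prop where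
  into : ∀ v ∈ H1 α' β', U3 T hT n v ∈ H1 α β
  onto : ∀ v ∈ H1 α β, ∃ v' ∈ H1 α' β', U3 T hT n v' = v
  phi : ∃ δ ∈ H1 α β,
    ((δ 0 : Sq X → ℂ) =ᵐ[mu X] fun q =>
      fl (Phi α' β' (toC w')) (T q) - fl (Phi α β (toC w)) q) ∧
    ph1 α β w + δ 1 = Uc T hT (ph1 α' β' w') ∧
    ph2 α β w + δ 2 = (n : ℂ) • Uc T hT (ph1 α' β' w') + Uc T hT (ph2 α' β' w')

/-! ## group level -/

/-- horizontal permutation of the marking `act^ψ` -/
def al (X : Type) [MulAction A X] (ψ : MulAut A) : Equiv.Perm X := MulAction.toPerm (ψ⁻¹ ga)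

/-- vertical permutation of the marking `act^ψ` -/
def be (X : Type) [MulAction A X] (ψ : MulAut A) : Equiv.Perm X := MulAction.toPerm (ψ⁻¹ gb)

end Pool.Agent.Helper96.OF
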