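import Pool.Agent.Helper42.OF.L11

/-!
# OFL-B3: change of marking by an element of B3 for the corner value AA
-/

set_option autoImplicit false

open MeasureTheory
open scoped ComplexConjugate

namespace Pool.Agent.Helper96.OF

theorem AA_B3 {X : Type} [Countable X] [MeasurableSpace X] [DiscreteMeasurableSpace X] [MulAction A X]
    (hSG : SG (MulAction.toPerm ga : Equiv.Perm X) (MulAction.toPerm gb))
    {s0 : X} {k : ℕ} (hk : 0 < k) (hs0 : (gz ^ k) • s0 = s0)
    (μ : MulAut A) (hμ : μ ∈ B3) (τ : ℂ) (hτ : τ ∈ HH) :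
    ∃ τ' ∈ HH, ∀ w, InW (MulAction.toPerm ga : Equiv.Perm X) (MulAction.toPerm gb) w →
      AA (al X μ) (be X μ) w s0 τ = AA (MulAction.toPerm ga) (MulAction.toPerm gb) w s0 τ' := by
  have ht1 : t1 ∈ B3 := Subgroup.subset_closure (by simp)
  have ht2 : t2 ∈ B3 := Subgroup.subset_closure (by simp)
  have H1 : ∀ ψ ∈ B3, ∀ τ ∈ HH, ∀ w,
      InW (MulAction.toPerm ga : Equiv.Perm X) (MulAction.toPerm gb) w →
      AA (al X (t1 * ψ)) (be X (t1 * ψ)) w s0 (τ - 1) = AA (al X ψ) (be X ψ) w s0 τ :=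
    fun ψ hψ τ hτ w hw => AA_t1 hSG hw hψ hτ hk hs0
  have H2 : ∀ ψ ∈ B3, ∀ τ ∈ HH, ∀ w,
      InW (MulAction.toPerm ga : Equiv.Perm X) (MulAction.toPerm gb) w →
      AA (al X (t2 * ψ)) (be X (t2 * ψ)) w s0 (τ / (1 - τ)) = AA (al X ψ) (be X ψ) w s0 τ :=
    fun ψ hψ τ hτ w hw => AA_t2 hSG hw hψ hτ hk hs0
  have hsub : ∀ τ ∈ HH, τ - 1 ∈ HH := by
    intro τ hτ
    have : 0 < τ.im := hτ
    simpa [HH] using this
  have hadd : ∀ τ ∈ HH, τ + 1 ∈ HH := by
    intro τ hτ
    have : 0 < τ.im := hτ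
    simpa [HH] using this
  have hdiv : ∀ τ ∈ HH, τ / (1 - τ) ∈ HH := by
    intro τ hτ
    have h0 : 0 < τ.im := hτ
    have h1 : (1 : ℂ) - τ ≠ 0 := by
      intro h
      have h2 := congrArg Complex.im h
      simp at h2
      exact h0.ne' h2
    have h2 : 0 < Complex.normSq (1 - τ) := Complex.normSq_pos.2 h1
    simp only [HH, Set.mem_ofPred_eq, Complex.div_im, Complex.sub_re, Complex.one_re,
      Complex.sub_im, Complex.one_im]
    have h3 : τ.im * (1 - τ.re) / Complex.normSq (1 - τ) -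
        τ.re * (0 - τ.im) / Complex.normSq (1 - τ) = τ.im / Complex.normSq (1 - τ) := by
      field_simp
      ring
    rw [h3]
    positivity
  have hdiv' : ∀ τ ∈ HH, τ / (1 + τ) ∈ HH ∧ (τ / (1 + τ)) / (1 - τ / (1 + τ)) = τ := by
    intro τ hτ
    have h0 : 0 < τ.im := hτ
    have h1 : (1 : ℂ) + τ ≠ 0 := by
      intro h
      have h2 := congrArg Complex.im h
      simp at h2
      exact h0.ne' h2
    have h2 : 0 < Complex.normSq (1 + τ) := Complex.normSq_pos.2 h1
    constructor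
    · simp only [HH, Set.mem_ofPred_eq, Complex.div_im, Complex.add_re, Complex.one_re,
        Complex.add_im, Complex.one_im]
      have h3 : τ.im * (1 + τ.re) / Complex.normSq (1 + τ) -
          τ.re * (0 + τ.im) / Complex.normSq (1 + τ) = τ.im / Complex.normSq (1 + τ) := by
        field_simp
        ring
      rw [h3]
      positivity
    · have h4 : 1 - τ / (1 + τ) = 1 / (1 + τ) := by
        field_simp
        ring
      rw [h4]
      field_simp
  -- induction
  have key : ∀ μ : MulAut A, μ ∈ B3 → μ ∈ B3 ∧ ∀ τ ∈ HH, ∃ τ' ∈ HH, ∀ w,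
      InW (MulAction.toPerm ga : Equiv.Perm X) (MulAction.toPerm gb) w →
      AA (al X μ) (be X μ) w s0 τ = AA (MulAction.toPerm ga) (MulAction.toPerm gb) w s0 τ' := by
    intro μ hμ
    refine ⟨hμ, ?_⟩
    refine Subgroup.closure_induction_left
      (p := fun μ _ => ∀ τ ∈ HH, ∃ τ' ∈ HH, ∀ w,
        InW (MulAction.toPerm ga : Equiv.Perm X) (MulAction.toPerm gb) w →
        AA (al X μ) (be X μ) w s0 τ = AA (MulAction.toPerm ga) (MulAction.toPerm gb) w s0 τ')
      ?_ ?_ ?_ (h := hμ)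
    · intro τ hτ
      refine ⟨τ, hτ, fun w _ => ?_⟩
      rw [al_one.1, al_one.2]
    · intro x hx y hy ih τ hτ
      rcases hx with rfl | hx
      · obtain ⟨τ', hτ', h⟩ := ih (τ + 1) (hadd τ hτ)
        refine ⟨τ', hτ', fun w hw => ?_⟩
        have h1 := H1 y hy (τ + 1) (hadd τ hτ) w hw
        rw [add_sub_cancel_right] at h1
        rw [h1, h w hw]
      · rcases hx with rfl
        obtain ⟨h3, h4⟩ := hdiv' τ hτ
        obtain ⟨τ', hτ', h⟩ := ih (τ / (1 + τ)) h3
        refine ⟨τ', hτ', fun w hw => ?_⟩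
        have h1 := H2 y hy (τ / (1 + τ)) h3 w hw
        rw [h4] at h1
        rw [h1, h w hw]
    · intro x hx y hy ih τ hτ
      rcases hx with rfl | hx
      · obtain ⟨τ', hτ', h⟩ := ih (τ - 1) (hsub τ hτ)
        refine ⟨τ', hτ', fun w hw => ?_⟩
        have h1 := H1 (t1⁻¹ * y) (mul_mem (inv_mem ht1) hy) τ hτ w hw
        rw [mul_inv_cancel_left] at h1
        rw [← h1, h w hw]
      · rcases hx with rfl
        obtain ⟨τ', hτ', h⟩ := ih (τ / (1 - τ)) (hdiv τ hτ)
        refine ⟨τ', hτ', fun w hw => ?_⟩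
        have h1 := H2 (t2⁻¹ * y) (mul_mem (inv_mem ht2) hy) τ hτ w hw
        rw [mul_inv_cancel_left] at h1
        rw [← h1, h w hw]
  exact (key μ hμ).2 τ hτ

end Pool.Agent.Helper96.OF
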