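import Pool.Agent.Helper96.OF.Defs

/-!
# OFS-G1: cut-off functions with small energy along the orbits of one permutation

Proof. One point s: if the α-orbit of s is finite, η_s = indicator of the orbit (energy 0). If it is infinite, `k ↦ α^k s` is injective; η_s(α^k s) = max 0 (1 - |k|/N), 0 outside the orbit: finitely supported, η_s s = 1 and
the energy is `2 N (1/N)² = 2/N`. For the finite set S take `η x = max over s ∈ S of η_s x` (`Finset.sup'`, or induction on S with `max`): `|max a b - max a' b'|² ≤ |a-a'|² + |b-b'|²`, so the energies add up: ≤ |S|·2/N ≤ ε.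
(Induction on S: S = ∅ : η = 0; insert s: η' = max η η_s.)
-/

set_option autoImplicit false

namespace Pool.Agent.Helper96.OF

private theorem ofsG1_supp {X : Type} (α : Equiv.Perm X) (η : X → ℝ)
    (h : (Function.support η).Finite) :
    (Function.support fun x => (η (α x) - η x) ^ 2).Finite := by
  have h1 : (α ⁻¹' (Function.support η)).Finite := h.preimage α.injective.injOn
  refine (h1.union h).subset ?_
  intro x hx
  by_contra hcon
  rw [Set.mem_union, not_or] at hcon
  have h2 : η (α x) = 0 := by
    by_contra h3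
    exact hcon.1 h3
  have h3 : η x = 0 := by
    by_contra h3
    exact hcon.2 h3
  exact hx (by simp [h2, h3])

private theorem ofsG1_max (a b a' b' : ℝ) :
    (max a b - max a' b') ^ 2 ≤ (a - a') ^ 2 + (b - b') ^ 2 := by
  rcases le_total a b with h1 | h1 <;> rcases le_total a' b' with h2 | h2
  · rw [max_eq_right h1, max_eq_right h2]
    nlinarith [sq_nonneg (a - a')]
  · rw [max_eq_right h1, max_eq_left h2]
    rcases le_total b a' with h3 | h3
    · have h4 : (b - a') ^ 2 ≤ (a - a') ^ 2 := by
        rw [sq_le_sq, abs_of_nonpos (by linarith), abs_of_nonpos (by linarith)]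
        linarith
      nlinarith [sq_nonneg (b - b')]
    · have h4 : (b - a') ^ 2 ≤ (b - b') ^ 2 := by
        rw [sq_le_sq, abs_of_nonneg (by linarith), abs_of_nonneg (by linarith)]
        linarith
      nlinarith [sq_nonneg (a - a')]
  · rw [max_eq_left h1, max_eq_right h2]
    rcases le_total a b' with h3 | h3
    · have h4 : (a - b') ^ 2 ≤ (b - b') ^ 2 := by
        rw [sq_le_sq, abs_of_nonpos (by linarith), abs_of_nonpos (by linarith)]
        linarith
      nlinarith [sq_nonneg (a - a')]
    · have h4 : (a - b') ^ 2 ≤ (a - a') ^ 2 := by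
        rw [sq_le_sq, abs_of_nonneg (by linarith), abs_of_nonneg (by linarith)]
        linarith
      nlinarith [sq_nonneg (b - b')]
  · rw [max_eq_left h1, max_eq_left h2]
    nlinarith [sq_nonneg (b - b')]

private theorem ofsG1_tent (N : ℕ) (hN : 0 < N) (k : ℤ) :
    (max 0 (1 - |((k + 1 : ℤ) : ℝ)| / N) - max 0 (1 - |(k : ℝ)| / N)) ^ 2 ≤
      if k ∈ Finset.Ico (-(N : ℤ)) N then (1 / (N : ℝ)) ^ 2 else 0 := by
  have hN' : (0 : ℝ) < N := by exact_mod_cast hN
  split_ifs with h
  · rw [sq_le_sq, abs_of_pos (by positivity : (0 : ℝ) < 1 / N)]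
    have h1 := abs_max_sub_max_le_max (0 : ℝ) (1 - |((k + 1 : ℤ) : ℝ)| / N) 0 (1 - |(k : ℝ)| / N)
    refine h1.trans ?_
    rw [sub_self, abs_zero]
    refine max_le (by positivity) ?_
    have h2 : 1 - |((k + 1 : ℤ) : ℝ)| / N - (1 - |(k : ℝ)| / N) =
        (|(k : ℝ)| - |((k + 1 : ℤ) : ℝ)|) / N := by ring
    rw [h2, abs_div, abs_of_pos hN']
    refine div_le_div_of_nonneg_right ?_ hN'.le
    refine (abs_abs_sub_abs_le_abs_sub _ _).trans ?_
    push_cast
    have : (k : ℝ) - (k + 1) = -1 := by ring
    rw [this]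
    simp
  · rw [Finset.mem_Ico, not_and_or, not_le, not_lt] at h
    have h1 : (N : ℝ) ≤ |(k : ℝ)| ∧ (N : ℝ) ≤ |((k + 1 : ℤ) : ℝ)| := by
      rcases h with h | h
      · constructor
        · have : (k : ℝ) ≤ -N := by
            have : k ≤ -(N : ℤ) := by omega
            exact_mod_cast this
          rw [abs_of_nonpos (by linarith)]
          linarith
        · have h3 : ((k + 1 : ℤ) : ℝ) ≤ -N := by
            have : k + 1 ≤ -(N : ℤ) := by omega
            exact_mod_cast this
          rw [abs_of_nonpos (by linarith)]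
          linarith
      · constructor
        · have : (N : ℝ) ≤ k := by exact_mod_cast h
          exact this.trans (le_abs_self _)
        · have h3 : (N : ℝ) ≤ ((k + 1 : ℤ) : ℝ) := by
            have : (N : ℤ) ≤ k + 1 := by omega
            exact_mod_cast this
          exact h3.trans (le_abs_self _)
    have h2 : 1 - |(k : ℝ)| / N ≤ 0 := by
      rw [sub_nonpos, le_div_iff₀ hN']
      linarith [h1.1]
    have h3 : 1 - |((k + 1 : ℤ) : ℝ)| / N ≤ 0 := by
      rw [sub_nonpos, le_div_iff₀ hN']
      linarith [h1.2]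
    rw [max_eq_left h2, max_eq_left h3]
    simp

private theorem ofsG1_one {X : Type} (α : Equiv.Perm X) (s : X) (ε : ℝ) (hε : 0 < ε) :
    ∃ η : X → ℝ, (∀ x, 0 ≤ η x ∧ η x ≤ 1) ∧ η s = 1 ∧ (Function.support η).Finite ∧
      ∑' x, (η (α x) - η x) ^ 2 ≤ ε := by
  classical
  set f : ℤ → X := fun k => (α ^ k) s with hf
  have hstep : ∀ k, α (f k) = f (k + 1) := by
    intro k
    simp only [hf]
    rw [add_comm k 1, zpow_add, zpow_one, Equiv.Perm.mul_apply]
  have hf0 : f 0 = s := by simp [hf]
  have hback : ∀ x, α x ∈ Set.range f → x ∈ Set.range f := by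
    rintro x ⟨k, hk⟩
    refine ⟨k - 1, ?_⟩
    apply α.injective
    rw [hstep, ← hk]
    congr 1
    ring
  have hfwd : ∀ x, x ∈ Set.range f → α x ∈ Set.range f := by
    rintro _ ⟨k, rfl⟩
    exact ⟨k + 1, (hstep k).symm⟩
  by_cases hinj : Function.Injective f
  · -- infinite orbit
    obtain ⟨N, hN⟩ := exists_nat_gt (2 / ε)
    have hN' : (0 : ℝ) < N := lt_trans (by positivity) hN
    have hN0 : 0 < N := by exact_mod_cast hN'
    set g : ℤ → ℝ := fun k => max 0 (1 - |(k : ℝ)| / N) with hg
    set η : X → ℝ := Function.extend f g 0 with hη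
    have hηf : ∀ k, η (f k) = g k := fun k => hinj.extend_apply g 0 k
    have hη0 : ∀ x, x ∉ Set.range f → η x = 0 := by
      intro x hx
      rw [hη, Function.extend_apply' _ _ _ (by
        rintro ⟨k, hk⟩
        exact hx ⟨k, hk⟩)]
      rfl
    have hg01 : ∀ k, 0 ≤ g k ∧ g k ≤ 1 := by
      intro k
      refine ⟨le_max_left _ _, max_le (by norm_num) ?_⟩
      have : 0 ≤ |(k : ℝ)| / N := by positivity
      linarith
    refine ⟨η, fun x => ?_, ?_, ?_, ?_⟩
    · by_cases hx : x ∈ Set.range f
      · obtain ⟨k, rfl⟩ := hx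
        rw [hηf]
        exact hg01 k
      · rw [hη0 x hx]
        exact ⟨le_rfl, zero_le_one⟩
    · rw [← hf0, hηf]
      simp [hg]
    · have h1 : (f '' (Set.Icc (-(N : ℤ)) N)).Finite := (Set.finite_Icc _ _).image f
      refine h1.subset ?_
      intro x hx
      by_cases hxr : x ∈ Set.range f
      · obtain ⟨k, rfl⟩ := hxr
        refine ⟨k, ?_, rfl⟩
        by_contra hcon
        rw [Set.mem_Icc, not_and_or, not_le, not_le] at hcon
        apply hx
        rw [hηf]
        have h2 : (N : ℝ) ≤ |(k : ℝ)| := by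
          rcases hcon with h | h
          · have h3 : (k : ℝ) ≤ -N := by
              have : k ≤ -(N : ℤ) := by omega
              exact_mod_cast this
            rw [abs_of_nonpos (by linarith)]
            linarith
          · have h3 : (N : ℝ) ≤ k := by exact_mod_cast h.le
            exact h3.trans (le_abs_self _)
        have h3 : 1 - |(k : ℝ)| / N ≤ 0 := by
          rw [sub_nonpos, le_div_iff₀ hN']
          linarith
        exact max_eq_left h3
      · exact absurd (hη0 x hxr) hx
    · have h1 : ∑' x, (η (α x) - η x) ^ 2 = ∑' k, (η (α (f k)) - η (f k)) ^ 2 := by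
        refine (hinj.tsum_eq ?_).symm
        intro x hx
        by_contra hxr
        refine hx ?_
        have h2 : α x ∉ Set.range f := fun h => hxr (hback x h)
        simp only
        rw [hη0 x hxr, hη0 _ h2]
        norm_num
      rw [h1]
      have h2 : ∀ k, (η (α (f k)) - η (f k)) ^ 2 =
          (max 0 (1 - |((k + 1 : ℤ) : ℝ)| / N) - max 0 (1 - |(k : ℝ)| / N)) ^ 2 := by
        intro k
        rw [hstep, hηf, hηf]
      simp_rw [h2]
      have hterm : ∀ k : ℤ, (max 0 (1 - |((k + 1 : ℤ) : ℝ)| / N) -
          max 0 (1 - |(k : ℝ)| / N)) ^ 2 ≤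
          if k ∈ Finset.Ico (-(N : ℤ)) N then (1 / (N : ℝ)) ^ 2 else 0 := ofsG1_tent N hN0
      have hz : ∀ k ∉ Finset.Ico (-(N : ℤ)) N, (max 0 (1 - |((k + 1 : ℤ) : ℝ)| / N) -
          max 0 (1 - |(k : ℝ)| / N)) ^ 2 = 0 := by
        intro k hk
        have h3 := hterm k
        rw [if_neg hk] at h3
        exact le_antisymm h3 (sq_nonneg _)
      rw [tsum_eq_sum hz]
      calc ∑ k ∈ Finset.Ico (-(N : ℤ)) N, (max 0 (1 - |((k + 1 : ℤ) : ℝ)| / N) -
          max 0 (1 - |(k : ℝ)| / N)) ^ 2
          ≤ ∑ k ∈ Finset.Ico (-(N : ℤ)) N, (1 / (N : ℝ)) ^ 2 := by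
            refine Finset.sum_le_sum fun k hk => ?_
            have h3 := hterm k
            rwa [if_pos hk] at h3
        _ = 2 / N := by
            rw [Finset.sum_const, Int.card_Ico, nsmul_eq_mul]
            have : (((N : ℤ) - -(N : ℤ)).toNat : ℝ) = 2 * N := by
              have h4 : ((N : ℤ) - -(N : ℤ)).toNat = 2 * N := by omega
              rw [h4]
              push_cast
              ring
            rw [this]
            field_simp
        _ ≤ ε := by
            rw [div_le_iff₀ hN']
            rw [div_lt_iff₀ hε] at hN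
            linarith
  · -- finite orbit
    have hfin : (Set.range f).Finite := by
      unfold Function.Injective at hinj
      push Not at hinj
      obtain ⟨k, l, hkl, hne⟩ := hinj
      obtain ⟨m, hm0, hm⟩ : ∃ m : ℤ, 0 < m ∧ (α ^ m) s = s := by
        rcases lt_or_gt_of_ne hne with h | h
        · refine ⟨l - k, by omega, ?_⟩
          apply (α ^ k).injective
          rw [← Equiv.Perm.mul_apply, ← zpow_add]
          have : k + (l - k) = l := by ring
          rw [this]
          exact hkl.symm
        · refine ⟨k - l, by omega, ?_⟩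
          apply (α ^ l).injective
          rw [← Equiv.Perm.mul_apply, ← zpow_add]
          have : l + (k - l) = k := by ring
          rw [this]
          exact hkl
      refine ((Set.finite_Ico (0 : ℤ) m).image f).subset ?_
      rintro _ ⟨j, rfl⟩
      refine ⟨j % m, ⟨Int.emod_nonneg _ (by omega), Int.emod_lt_of_pos _ hm0⟩, ?_⟩
      simp only [hf]
      have h1 : (α ^ (m * (j / m))) s = s := by
        rw [zpow_mul]
        exact Equiv.Perm.zpow_apply_eq_self_of_apply_eq_self hm _
      have h2 : j = j % m + m * (j / m) := (Int.emod_add_mul_ediv j m).symm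
      conv_rhs => rw [h2, zpow_add, Equiv.Perm.mul_apply, h1]
    refine ⟨(Set.range f).indicator 1, fun x => ?_, ?_, ?_, ?_⟩
    · by_cases hx : x ∈ Set.range f
      · rw [Set.indicator_of_mem hx]
        simp
      · rw [Set.indicator_of_notMem hx]
        simp
    · have hs : s ∈ Set.range f := ⟨0, hf0⟩
      rw [Set.indicator_of_mem hs]
      rfl
    · exact hfin.subset Set.support_indicator_subset
    · have h1 : ∀ x, ((Set.range f).indicator (1 : X → ℝ) (α x) -
          (Set.range f).indicator (1 : X → ℝ) x) ^ 2 = 0 := by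
        intro x
        by_cases hx : x ∈ Set.range f
        · rw [Set.indicator_of_mem hx, Set.indicator_of_mem (hfwd x hx)]
          simp
        · rw [Set.indicator_of_notMem hx,
            Set.indicator_of_notMem (fun h => hx (hback x h))]
          simp
      simp_rw [h1]
      simp only [tsum_zero]
      exact hε.le

theorem rowcut {X : Type} (α : Equiv.Perm X) (S : Finset X) (ε : ℝ) (hε : 0 < ε) :
    ∃ η : X → ℝ, (∀ x, 0 ≤ η x ∧ η x ≤ 1) ∧ (∀ x ∈ S, η x = 1) ∧ (Function.support η).Finite ∧
      ∑' x, (η (α x) - η x) ^ 2 ≤ ε := by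
  classical
  induction S using Finset.induction_on generalizing ε with
  | empty =>
    refine ⟨fun _ => 0, fun x => ⟨le_rfl, zero_le_one⟩, fun x hx => ?_, ?_, ?_⟩
    · exact absurd hx (Finset.notMem_empty x)
    · simp
    · simp only [sub_self, ne_eq, OfNat.ofNat_ne_zero, not_false_eq_true, zero_pow, tsum_zero]
      exact hε.le
  | insert s S _ ih =>
    obtain ⟨η, h1, h2, h3, h4⟩ := ih (ε / 2) (by positivity)
    obtain ⟨θ, k1, k2, k3, k4⟩ := ofsG1_one α s (ε / 2) (by positivity)
    have hsup : (Function.support fun x => max (η x) (θ x)).Finite := by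
      refine (h3.union k3).subset ?_
      intro x hx
      by_contra hcon
      rw [Set.mem_union, not_or] at hcon
      have e1 : η x = 0 := by
        by_contra h
        exact hcon.1 h
      have e2 : θ x = 0 := by
        by_contra h
        exact hcon.2 h
      exact hx (by simp [e1, e2])
    refine ⟨fun x => max (η x) (θ x), fun x => ⟨le_max_of_le_left (h1 x).1,
      max_le (h1 x).2 (k1 x).2⟩, fun x hx => ?_, hsup, ?_⟩
    · rw [Finset.mem_insert] at hx
      rcases hx with rfl | hx
      · show max (η x) (θ x) = 1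
        rw [k2]
        exact max_eq_right (h1 x).2
      · show max (η x) (θ x) = 1
        rw [h2 x hx]
        exact max_eq_left (k1 x).2
    · have s1 : Summable fun x => (η (α x) - η x) ^ 2 :=
        summable_of_hasFiniteSupport (ofsG1_supp α η h3)
      have s2 : Summable fun x => (θ (α x) - θ x) ^ 2 :=
        summable_of_hasFiniteSupport (ofsG1_supp α θ k3)
      have s3 : Summable fun x => (max (η (α x)) (θ (α x)) - max (η x) (θ x)) ^ 2 :=
        summable_of_hasFiniteSupport (ofsG1_supp α (fun x => max (η x) (θ x)) hsup)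
      calc ∑' x, (max (η (α x)) (θ (α x)) - max (η x) (θ x)) ^ 2
          ≤ ∑' x, ((η (α x) - η x) ^ 2 + (θ (α x) - θ x) ^ 2) :=
            s3.tsum_le_tsum (fun x => ofsG1_max _ _ _ _) (s1.add s2)
        _ = ∑' x, (η (α x) - η x) ^ 2 + ∑' x, (θ (α x) - θ x) ^ 2 := s1.tsum_add s2
        _ ≤ ε := by linarith

end Pool.Agent.Helper96.OF
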