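import Pool.Agent.Helper96.OF.FT7
import Pool.Agent.Helper96.OF.FT5
import Pool.Agent.Helper80.OF.G1

/-!
# OFS-G2: the cut-off family `Gc`

`lamd δ y` : smooth, 0 for y ≤ δ/2 and y ≥ 1-δ/2, 1 on [δ, 1-δ], values in [0,1] (0 < δ < 1/2).
`Gc α β δ η` on the unit square of s: `lamd δ y * ((1-σ(x)) η s + σ(x) η(α s))`, σ = sg, extended to Cross by `ext`. It is nice with corner values 0: smoothness on Cross: at x = integer j, 0<y<1: on both sides
(σ = 1 resp. 0 near the edge) it is `lamd y * η(α^j s)`; at y = integer, 0<x<1: it vanishes on both sides near the edge. row/col: floor shifts (ext), as for Phi (FT7). Corner boxes: ρ = δ/2 (δ/2 ≤ 1/2).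
`Gc_bd` on the unit square: value in [0,1], zero if η s = η(α s) = 0; x-derivative `lamd y σ'(x) (η(α s) - η s)`, bounded by `Cσ |η(α s) - η s|` with Cσ = sup|σ'| (σ is smooth and constant outside a compact set).
If η s = η(α s) = 1 then Gc = lamd δ y, so it is 1 unless y < δ or y > 1 - δ.
-/

set_option autoImplicit false

open MeasureTheory

namespace Pool.Agent.Helper96.OF

/-- cut-off in `y` -/
noncomputable def lamd (δ : ℝ) (y : ℝ) : ℝ :=
  Real.smoothTransition (2 * y / δ - 1) * Real.smoothTransition (2 * (1 - y) / δ - 1)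

/-- cut-off family on the surface -/
noncomputable def Gc {X : Type} (α β : Equiv.Perm X) (δ : ℝ) (η : X → ℝ) : X → ℝ × ℝ → ℂ :=
  ext α β fun s p => ((lamd δ p.2 * ((1 - sg p.1) * η s + sg p.1 * η (α s)) : ℝ) : ℂ)

variable {X : Type} {α β : Equiv.Perm X}

private theorem sg_smooth : ContDiff ℝ (⊤ : ℕ∞) sg := by
  have h : ContDiff ℝ (⊤ : ℕ∞) (fun t : ℝ => 3 * t - 1) := (contDiff_const.mul contDiff_id).sub contDiff_const
  exact Real.smoothTransition.contDiff.comp h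

private theorem sg_nonneg (t : ℝ) : 0 ≤ sg t := Real.smoothTransition.nonneg _

private theorem sg_le_one (t : ℝ) : sg t ≤ 1 := Real.smoothTransition.le_one _

private theorem sg_zero {t : ℝ} (ht : t ≤ 1 / 3) : sg t = 0 :=
  Real.smoothTransition.zero_of_nonpos (by linarith)

private theorem sg_one {t : ℝ} (ht : 2 / 3 ≤ t) : sg t = 1 :=
  Real.smoothTransition.one_of_one_le (by linarith)

private theorem lamd_smooth (δ : ℝ) : ContDiff ℝ (⊤ : ℕ∞) (lamd δ) := by
  have h1 : ContDiff ℝ (⊤ : ℕ∞) (fun y : ℝ => 2 * y / δ - 1) :=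
    ((contDiff_const.mul contDiff_id).div_const δ).sub contDiff_const
  have h2 : ContDiff ℝ (⊤ : ℕ∞) (fun y : ℝ => 2 * (1 - y) / δ - 1) :=
    ((contDiff_const.mul (contDiff_const.sub contDiff_id)).div_const δ).sub contDiff_const
  exact (Real.smoothTransition.contDiff.comp h1).mul (Real.smoothTransition.contDiff.comp h2)

private theorem lamd_nonneg (δ y : ℝ) : 0 ≤ lamd δ y :=
  mul_nonneg (Real.smoothTransition.nonneg _) (Real.smoothTransition.nonneg _)

private theorem lamd_le_one (δ y : ℝ) : lamd δ y ≤ 1 :=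
  mul_le_one₀ (Real.smoothTransition.le_one _) (Real.smoothTransition.nonneg _)
    (Real.smoothTransition.le_one _)

private theorem lamd_low {δ y : ℝ} (hδ : 0 < δ) (hy : y ≤ δ / 2) : lamd δ y = 0 := by
  have : 2 * y / δ - 1 ≤ 0 := by
    rw [sub_nonpos, div_le_one hδ]
    linarith
  unfold lamd
  rw [Real.smoothTransition.zero_of_nonpos this, zero_mul]

private theorem lamd_high {δ y : ℝ} (hδ : 0 < δ) (hy : 1 - δ / 2 ≤ y) : lamd δ y = 0 := by
  have : 2 * (1 - y) / δ - 1 ≤ 0 := by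
    rw [sub_nonpos, div_le_one hδ]
    linarith
  unfold lamd
  rw [Real.smoothTransition.zero_of_nonpos this, mul_zero]

private theorem lamd_mid {δ y : ℝ} (hδ : 0 < δ) (hy : δ ≤ y) (hy' : y ≤ 1 - δ) : lamd δ y = 1 := by
  have h1 : 1 ≤ 2 * y / δ - 1 := by
    rw [le_sub_iff_add_le, le_div_iff₀ hδ]
    linarith
  have h2 : 1 ≤ 2 * (1 - y) / δ - 1 := by
    rw [le_sub_iff_add_le, le_div_iff₀ hδ]
    linarith
  unfold lamd
  rw [Real.smoothTransition.one_of_one_le h1, Real.smoothTransition.one_of_one_le h2, mul_one]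

/-- gluing along the integers -/
private theorem glue_const (u : ℤ → ℝ → ℝ) (c : ℤ → ℝ) (r : ℝ) (hr : 0 < r)
    (hu : ∀ j, ContDiff ℝ (⊤ : ℕ∞) (u j)) (h0 : ∀ j t, 0 ≤ t → t < r → u j t = c j)
    (h1 : ∀ j t, 1 - r < t → t < 1 → u j t = c (j + 1)) :
    ContDiff ℝ (⊤ : ℕ∞) (fun x : ℝ => u ⌊x⌋ (Int.fract x)) := by
  rw [contDiff_iff_contDiffAt]
  intro x0
  by_cases hx : Int.fract x0 = 0
  · have hx0 : x0 = (⌊x0⌋ : ℝ) := by
      have := Int.fract_add_floor x0
      rw [hx, zero_add] at this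
      exact this.symm
    set j := ⌊x0⌋ with hj
    have hev : (fun x : ℝ => u ⌊x⌋ (Int.fract x)) =ᶠ[nhds x0] fun _ => c j := by
      have hm : 0 < min r 1 := lt_min hr one_pos
      filter_upwards [Ioo_mem_nhds (show x0 - min r 1 < x0 by linarith)
        (show x0 < x0 + min r 1 by linarith)] with x hxx
      have hr1 : min r 1 ≤ r := min_le_left _ _
      have hr2 : min r 1 ≤ 1 := min_le_right _ _
      rcases lt_or_ge x x0 with hlt | hge
      · have hfl : ⌊x⌋ = j - 1 := by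
          rw [Int.floor_eq_iff]
          push_cast
          rw [← hx0]
          constructor <;> linarith [hxx.1, hxx.2]
        have hfr : Int.fract x = x - (x0 - 1) := by
          have := Int.self_sub_floor x
          rw [hfl] at this
          push_cast at this
          rw [← this, ← hx0]
        rw [hfl, h1 (j - 1) (Int.fract x) (by rw [hfr]; linarith [hxx.1]) (Int.fract_lt_one x),
          sub_add_cancel]
      · have hfl : ⌊x⌋ = j := by
          rw [Int.floor_eq_iff, ← hx0]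
          constructor <;> linarith [hxx.1, hxx.2]
        have hfr : Int.fract x = x - x0 := by
          have := Int.self_sub_floor x
          rw [hfl] at this
          rw [← this, ← hx0]
        rw [hfl, h0 j (Int.fract x) (Int.fract_nonneg x) (by rw [hfr]; linarith [hxx.2])]
    exact contDiffAt_const.congr_of_eventuallyEq hev
  · have hpos : 0 < Int.fract x0 := lt_of_le_of_ne (Int.fract_nonneg x0) (Ne.symm hx)
    have hlt : Int.fract x0 < 1 := Int.fract_lt_one x0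
    have hself := Int.fract_add_floor x0
    have hev : (fun x : ℝ => u ⌊x⌋ (Int.fract x)) =ᶠ[nhds x0] fun x => u ⌊x0⌋ (x - ⌊x0⌋) := by
      filter_upwards [Ioo_mem_nhds (show (⌊x0⌋ : ℝ) < x0 by linarith)
        (show x0 < (⌊x0⌋ : ℝ) + 1 by linarith)] with x hxx
      have hfl : ⌊x⌋ = ⌊x0⌋ := by
        rw [Int.floor_eq_iff]
        constructor <;> linarith [hxx.1, hxx.2]
      have hfr : Int.fract x = x - ⌊x0⌋ := by
        rw [← hfl, Int.self_sub_floor]
      rw [hfl, hfr]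
    have : ContDiff ℝ (⊤ : ℕ∞) (fun x : ℝ => u ⌊x0⌋ (x - ⌊x0⌋)) :=
      (hu ⌊x0⌋).comp (contDiff_id.sub contDiff_const)
    exact this.contDiffAt.congr_of_eventuallyEq hev

private theorem floor_zero {y : ℝ} (h0 : 0 < y) (h1 : y < 1) : ⌊y⌋ = 0 ∧ Int.fract y = y :=
  ⟨Int.floor_eq_zero_iff.mpr ⟨h0.le, h1⟩, Int.fract_eq_self.mpr ⟨h0.le, h1⟩⟩

private theorem Gc_strip (δ : ℝ) (η : X → ℝ) (s : X) (x y : ℝ) (h0 : 0 < y) (h1 : y < 1) :
    Gc α β δ η s (x, y) = ((lamd δ y * ((1 - sg (Int.fract x)) * η ((α ^ ⌊x⌋) s) +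
      sg (Int.fract x) * η (α ((α ^ ⌊x⌋) s))) : ℝ) : ℂ) := by
  unfold Gc ext
  simp only
  rw [(floor_zero h0 h1).1, (floor_zero h0 h1).2, zpow_zero, Equiv.Perm.one_apply]

private theorem Gc_strip' (δ : ℝ) (η : X → ℝ) (s : X) (x y : ℝ) (h0 : 0 < x) (h1 : x < 1) :
    Gc α β δ η s (x, y) = ((lamd δ (Int.fract y) * ((1 - sg x) * η ((β ^ ⌊y⌋) s) +
      sg x * η (α ((β ^ ⌊y⌋) s))) : ℝ) : ℂ) := by
  unfold Gc ext
  simp only
  rw [(floor_zero h0 h1).1, (floor_zero h0 h1).2, zpow_zero, Equiv.Perm.one_apply]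

private theorem Gc_sq (δ : ℝ) (η : X → ℝ) (s : X) (p : ℝ × ℝ) (hp : p ∈ unitSq) :
    Gc α β δ η s p = ((lamd δ p.2 * ((1 - sg p.1) * η s + sg p.1 * η (α s)) : ℝ) : ℂ) := by
  obtain ⟨x, y⟩ := p
  obtain ⟨⟨h1, h2⟩, ⟨h3, h4⟩⟩ := hp
  rw [Gc_strip δ η s x y h3 h4, (floor_zero h1 h2).1, (floor_zero h1 h2).2, zpow_zero,
    Equiv.Perm.one_apply]

theorem nice_Gc {δ : ℝ} (h0 : 0 < δ) (h1 : δ < 1 / 2) (η : X → ℝ) :
    Nice α β (Gc α β δ η) (fun _ => 0) := by
  refine ⟨?_, ?_, ?_, ?_, fun _ => rfl⟩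
  · intro s p hp
    apply ContDiffAt.contDiffWithinAt
    rcases hp with ⟨ha, hb⟩ | ⟨ha, hb⟩
    · have hH : ContDiff ℝ (⊤ : ℕ∞) (fun x : ℝ => (fun (j : ℤ) (t : ℝ) => (1 - sg t) * η ((α ^ j) s) +
          sg t * η (α ((α ^ j) s))) ⌊x⌋ (Int.fract x)) := by
        refine glue_const (fun (j : ℤ) (t : ℝ) => (1 - sg t) * η ((α ^ j) s) +
          sg t * η (α ((α ^ j) s))) (fun j => η ((α ^ j) s)) (1 / 3) (by norm_num) ?_ ?_ ?_
        · intro j
          exact ((contDiff_const.sub sg_smooth).mul contDiff_const).add (sg_smooth.mul contDiff_const)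
        · intro j t _ ht
          rw [sg_zero ht.le]
          ring
        · intro j t ht _
          rw [sg_one (by linarith), add_comm j 1, zpow_add, zpow_one, Equiv.Perm.mul_apply]
          ring
      have hG : ContDiff ℝ (⊤ : ℕ∞) (fun q : ℝ × ℝ => ((lamd δ q.2 *
          ((fun x : ℝ => (fun (j : ℤ) (t : ℝ) => (1 - sg t) * η ((α ^ j) s) +
          sg t * η (α ((α ^ j) s))) ⌊x⌋ (Int.fract x)) q.1) : ℝ) : ℂ)) :=
        Complex.ofRealCLM.contDiff.comp
          (((lamd_smooth δ).comp contDiff_snd).mul (hH.comp contDiff_fst))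
      refine hG.contDiffAt.congr_of_eventuallyEq ?_
      have hopen : IsOpen {q : ℝ × ℝ | 0 < q.2 ∧ q.2 < 1} :=
        (isOpen_lt continuous_const continuous_snd).inter (isOpen_lt continuous_snd continuous_const)
      filter_upwards [hopen.mem_nhds (show p ∈ {q : ℝ × ℝ | 0 < q.2 ∧ q.2 < 1} from ⟨ha, hb⟩)] with q hq
      exact Gc_strip δ η s q.1 q.2 hq.1 hq.2
    · have hH : ∀ c : ℤ → ℝ, ContDiff ℝ (⊤ : ℕ∞) (fun y : ℝ =>
          (fun (j : ℤ) (t : ℝ) => lamd δ t * c j) ⌊y⌋ (Int.fract y)) := by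
        intro c
        refine glue_const (fun (j : ℤ) (t : ℝ) => lamd δ t * c j) (fun _ => 0) (δ / 2) (by linarith)
          ?_ ?_ ?_
        · intro j
          exact (lamd_smooth δ).mul contDiff_const
        · intro j t _ ht
          rw [lamd_low h0 ht.le, zero_mul]
        · intro j t ht _
          rw [lamd_high h0 ht.le, zero_mul]
      have hG : ContDiff ℝ (⊤ : ℕ∞) (fun q : ℝ × ℝ => ((((1 - sg q.1) *
          ((fun y : ℝ => (fun (j : ℤ) (t : ℝ) => lamd δ t * η ((β ^ j) s)) ⌊y⌋ (Int.fract y)) q.2) +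
          sg q.1 * ((fun y : ℝ => (fun (j : ℤ) (t : ℝ) => lamd δ t * η (α ((β ^ j) s))) ⌊y⌋
            (Int.fract y)) q.2)) : ℝ) : ℂ)) :=
        Complex.ofRealCLM.contDiff.comp
          (((contDiff_const.sub (sg_smooth.comp contDiff_fst)).mul
              ((hH (fun j => η ((β ^ j) s))).comp contDiff_snd)).add
            ((sg_smooth.comp contDiff_fst).mul
              ((hH (fun j => η (α ((β ^ j) s)))).comp contDiff_snd)))
      refine hG.contDiffAt.congr_of_eventuallyEq ?_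
      have hopen : IsOpen {q : ℝ × ℝ | 0 < q.1 ∧ q.1 < 1} :=
        (isOpen_lt continuous_const continuous_fst).inter (isOpen_lt continuous_fst continuous_const)
      filter_upwards [hopen.mem_nhds (show p ∈ {q : ℝ × ℝ | 0 < q.1 ∧ q.1 < 1} from ⟨ha, hb⟩)] with q hq
      rw [show q = (q.1, q.2) from rfl, Gc_strip' δ η s q.1 q.2 hq.1 hq.2]
      congr 1
      simp only
      ring
  · intro s x y hy0 hy1
    rw [Gc_strip δ η s _ y hy0 hy1, Gc_strip δ η (α s) _ y hy0 hy1, Int.floor_add_one, Int.fract_add_one,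
      zpow_add, zpow_one, Equiv.Perm.mul_apply]
  · intro s x y hx0 hx1
    rw [Gc_strip' δ η s x _ hx0 hx1, Gc_strip' δ η (β s) x _ hx0 hx1, Int.floor_add_one,
      Int.fract_add_one, zpow_add, zpow_one, Equiv.Perm.mul_apply]
  · refine ⟨δ / 2, by linarith, by linarith, ?_⟩
    intro s x y hx0 hx1 hy0 hy1
    refine ⟨?_, ?_, ?_, ?_⟩
    · rw [Gc_sq δ η s (x, y) ⟨⟨hx0, by linarith⟩, ⟨hy0, by linarith⟩⟩, lamd_low h0 hy1.le, zero_mul]
      rfl
    · rw [Gc_sq δ η s (1 - x, y) ⟨⟨by linarith, by linarith⟩, ⟨hy0, by linarith⟩⟩, lamd_low h0 hy1.le,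
        zero_mul]
      rfl
    · rw [Gc_sq δ η s (x, 1 - y) ⟨⟨hx0, by linarith⟩, ⟨by linarith, by linarith⟩⟩,
        lamd_high h0 (by simp only; linarith), zero_mul]
      rfl
    · rw [Gc_sq δ η s (1 - x, 1 - y) ⟨⟨by linarith, by linarith⟩, ⟨by linarith, by linarith⟩⟩,
        lamd_high h0 (by simp only; linarith), zero_mul]
      rfl

theorem Gc_bd : ∃ C : ℝ, 0 < C ∧ ∀ (α β : Equiv.Perm X) (δ : ℝ) (η : X → ℝ), 0 < δ → δ < 1 / 2 →
    (∀ x, 0 ≤ η x ∧ η x ≤ 1) → ∀ s, ∀ p ∈ unitSq,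
      (∃ t : ℝ, 0 ≤ t ∧ t ≤ 1 ∧ Gc α β δ η s p = (t : ℂ)) ∧
      (η s = 0 → η (α s) = 0 → Gc α β δ η s p = 0) ∧
      ‖dx (Gc α β δ η) s p‖ ≤ C * |η (α s) - η s| ∧
      (η s = 1 → η (α s) = 1 → δ < p.2 → p.2 < 1 - δ → Gc α β δ η s p = 1) := by
  have hcont : Continuous (deriv sg) := sg_smooth.continuous_deriv (by norm_num)
  obtain ⟨C0, hC0⟩ := (isCompact_Icc (a := (0 : ℝ)) (b := 1)).exists_bound_of_continuousOn
    hcont.continuousOn
  have hC0' : 0 ≤ C0 := (norm_nonneg _).trans (hC0 0 ⟨le_rfl, zero_le_one⟩)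
  refine ⟨C0 + 1, by linarith, ?_⟩
  intro α β δ η hδ hδ' hη s p hp
  obtain ⟨⟨hx0, hx1⟩, ⟨hy0, hy1⟩⟩ := hp
  have hp' : p ∈ unitSq := ⟨⟨hx0, hx1⟩, ⟨hy0, hy1⟩⟩
  have hs0 := sg_nonneg p.1
  have hs1 := sg_le_one p.1
  have hl0 := lamd_nonneg δ p.2
  have hl1 := lamd_le_one δ p.2
  obtain ⟨ha0, ha1⟩ := hη s
  obtain ⟨hb0, hb1⟩ := hη (α s)
  refine ⟨⟨_, ?_, ?_, Gc_sq δ η s p hp'⟩, ?_, ?_, ?_⟩
  · have : 0 ≤ 1 - sg p.1 := by linarith
    positivity
  · have h2 : 0 ≤ 1 - sg p.1 := by linarith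
    have h3 : (1 - sg p.1) * η s + sg p.1 * η (α s) ≤ 1 := by nlinarith
    have h4 : 0 ≤ (1 - sg p.1) * η s + sg p.1 * η (α s) := by positivity
    exact mul_le_one₀ hl1 h4 h3
  · intro h1 h2
    rw [Gc_sq δ η s p hp', h1, h2]
    simp
  · have hev : Gc α β δ η s =ᶠ[nhds p] fun q : ℝ × ℝ =>
        Complex.ofRealCLM (lamd δ q.2 * ((1 - sg q.1) * η s + sg q.1 * η (α s))) := by
      have hopen : IsOpen unitSq := isOpen_Ioo.prod isOpen_Ioo
      filter_upwards [hopen.mem_nhds hp'] with q hq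
      exact Gc_sq δ η s q hq
    have hsg : HasFDerivAt (fun q : ℝ × ℝ => sg q.1)
        ((deriv sg p.1) • ContinuousLinearMap.fst ℝ ℝ ℝ) p :=
      (sg_smooth.differentiable (by norm_num) p.1).hasDerivAt.comp_hasFDerivAt p hasFDerivAt_fst
    have hla : HasFDerivAt (fun q : ℝ × ℝ => lamd δ q.2)
        ((deriv (lamd δ) p.2) • ContinuousLinearMap.snd ℝ ℝ ℝ) p :=
      ((lamd_smooth δ).differentiable (by norm_num) p.2).hasDerivAt.comp_hasFDerivAt p hasFDerivAt_snd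
    have h1 := hla.mul (((hsg.const_sub 1).mul_const (η s)).add (hsg.mul_const (η (α s))))
    have h2 := Complex.ofRealCLM.hasFDerivAt.comp p h1
    have h3 : fderiv ℝ (Gc α β δ η s) p = _ := hev.fderiv_eq.trans h2.fderiv
    unfold dx
    rw [h3]
    have h4 : (Complex.ofRealCLM.comp (lamd δ p.2 • ((η s • -(deriv sg p.1 • ContinuousLinearMap.fst ℝ ℝ ℝ) +
        η (α s) • deriv sg p.1 • ContinuousLinearMap.fst ℝ ℝ ℝ)) +
        ((1 - sg p.1) * η s + sg p.1 * η (α s)) • deriv (lamd δ) p.2 • ContinuousLinearMap.snd ℝ ℝ ℝ))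
        ((1 : ℝ), (0 : ℝ)) = ((lamd δ p.2 * (deriv sg p.1 * (η (α s) - η s)) : ℝ) : ℂ) := by
      simp only [ContinuousLinearMap.comp_apply, add_apply, smul_apply, neg_apply,
        ContinuousLinearMap.coe_fst', ContinuousLinearMap.coe_snd', smul_eq_mul, mul_one, mul_zero,
        add_zero, Complex.ofRealCLM_apply]
      congr 1
      ring
    have h5 : ‖((lamd δ p.2 * (deriv sg p.1 * (η (α s) - η s)) : ℝ) : ℂ)‖ ≤
        (C0 + 1) * |η (α s) - η s| := by
      rw [Complex.norm_real, Real.norm_eq_abs, abs_mul, abs_mul, abs_of_nonneg hl0]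
      have h6 : |deriv sg p.1| ≤ C0 := hC0 p.1 ⟨hx0.le, hx1.le⟩
      calc lamd δ p.2 * (|deriv sg p.1| * |η (α s) - η s|) ≤ 1 * (|deriv sg p.1| * |η (α s) - η s|) :=
            mul_le_mul_of_nonneg_right hl1 (by positivity)
        _ = |deriv sg p.1| * |η (α s) - η s| := one_mul _
        _ ≤ (C0 + 1) * |η (α s) - η s| := mul_le_mul_of_nonneg_right (by linarith) (abs_nonneg _)
    refine le_trans (le_of_eq ?_) h5
    rw [← h4]
    rfl
  · intro h1 h2 h3 h4
    rw [Gc_sq δ η s p hp', h1, h2, lamd_mid hδ h3.le h4.le]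
    simp

end Pool.Agent.Helper96.OF
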