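import Pool.Agent.Helper80.OF.G2

/-!
# OFS-G3 (GROWTH): the x-derivative of Φ_w can be made small by adding elements of H1

Given ε > 0. Let B bound |w|. `Φ_x ∈ L²` (FT7 Phi_energy): choose a finite set S of squares with `∑_{s∉S} ∫_{unitSq} |Φ_x|² < ε²/16` (FT2 integral_mu, summability), choose δ < 1/2 with
`∑_{s∈S} ∫_{unitSq ∩ {y ≤ δ or y ≥ 1-δ}} |Φ_x|² < ε²/16` (finitely many s; Φ_x bounded on each square by FT2 nice_bdd for `nice_dx`, the set has measure ≤ 2δ), and η from G1 `rowcut` for `S ∪ α(S)` with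
`∑ (η(α x) - η x)² ≤ ε'`, `C² B² ε' ≤ ε²/4`. Put `f = - Φ · Gc` : nice with corner values 0, FinS (support of η finite), χ = trip f ∈ H1 (FT5 trip_mem). `f_x = - Φ_x Gc - Φ Gc_x` (FT1 dx_mul), so a.e.
`Φ_x + f_x = Φ_x (1 - Gc) - Φ Gc_x`; `∫|Φ Gc_x|² ≤ B² C² ∑ (η(αs)-ηs)²` and `∫|Φ_x(1-Gc)|² ≤ (tail) + (strips)`. Hence `‖ph1 + χ 1‖ ≤ ε` (`ph1 + χ 1 = cls (Φ_x + f_x)`; cls_add, cls_norm; Minkowski or (a+b)² ≤ 2a²+2b²).
-/

set_option autoImplicit false

open MeasureTheory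

namespace Pool.Agent.Helper96.OF

variable {X : Type} [Countable X] [MeasurableSpace X] [DiscreteMeasurableSpace X]
  {α β : Equiv.Perm X}

private theorem lint_mu3 (f : Sq X → ENNReal) (hf : AEMeasurable f (mu X)) :
    ∫⁻ q, f q ∂(mu X) = ∑' s, ∫⁻ p in unitSq, f (s, p) := by
  unfold mu
  rw [lintegral_prod _ hf, lintegral_count]

private theorem vol_unitSq : (volume : Measure (ℝ × ℝ)) unitSq = 1 := by
  unfold unitSq
  rw [Measure.volume_eq_prod, Measure.prod_prod]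
  simp

private theorem strip_vol (δ : ℝ) (h0 : 0 < δ) :
    ((volume : Measure (ℝ × ℝ)).restrict unitSq) {p | p.2 ≤ δ ∨ 1 - δ ≤ p.2} ≤
      ENNReal.ofReal (2 * δ) := by
  have hm : MeasurableSet {p : ℝ × ℝ | p.2 ≤ δ ∨ 1 - δ ≤ p.2} :=
    (measurableSet_le measurable_snd measurable_const).union
      (measurableSet_le measurable_const measurable_snd)
  rw [Measure.restrict_apply hm]
  have hs : {p : ℝ × ℝ | p.2 ≤ δ ∨ 1 - δ ≤ p.2} ∩ unitSq ⊆
      (Set.Ioo (0:ℝ) 1 ×ˢ Set.Icc (0:ℝ) δ) ∪ (Set.Ioo (0:ℝ) 1 ×ˢ Set.Icc (1 - δ) 1) := by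
    rintro p ⟨hp | hp, h1, h2⟩
    · exact Or.inl ⟨h1, h2.1.le, hp⟩
    · exact Or.inr ⟨h1, hp, h2.2.le⟩
  refine (measure_mono hs).trans ((measure_union_le _ _).trans ?_)
  rw [Measure.volume_eq_prod, Measure.prod_prod, Measure.prod_prod, Real.volume_Ioo,
    Real.volume_Icc, Real.volume_Icc, ← ENNReal.ofReal_mul (by norm_num),
    ← ENNReal.ofReal_mul (by norm_num), ← ENNReal.ofReal_add (by nlinarith) (by nlinarith)]
  exact ENNReal.ofReal_le_ofReal (by linarith)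

private theorem sq_bound (a b g h : ℂ) {A H : ℝ} (ha : ‖a * g‖ ^ 2 ≤ A) (hb : ‖b * h‖ ^ 2 ≤ H) :
    ‖a * g - b * h‖ ^ 2 ≤ 2 * A + 2 * H := by
  have h1 : ‖a * g - b * h‖ ≤ ‖a * g‖ + ‖b * h‖ := norm_sub_le _ _
  have h2 : ‖a * g - b * h‖ ^ 2 ≤ (‖a * g‖ + ‖b * h‖) ^ 2 :=
    pow_le_pow_left₀ (norm_nonneg _) h1 2
  nlinarith [sq_nonneg (‖a * g‖ - ‖b * h‖)]

theorem growth {w : X → ℝ} (hw : InW α β w) (ε : ℝ) (hε : 0 < ε) :
    ∃ χ ∈ H1 α β, ‖ph1 α β w + χ 1‖ ≤ ε := by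
  obtain ⟨C, hC, hGc⟩ := Gc_bd (X := X)
  obtain ⟨B, hB0, hB⟩ : ∃ B : ℝ, 0 ≤ B ∧ ∀ x, |w x| ≤ B := by
    obtain ⟨B, hB⟩ := hw.bdd
    exact ⟨max B 0, le_max_right _ _, fun x => (hB x).trans (le_max_left _ _)⟩
  have hinv : ∀ s, toC w (zeta α β s) = toC w s := by
    intro s
    unfold toC
    rw [hw.inv]
  have hn : Nice α β (Phi α β (toC w)) (toC w) := nice_Phi hinv
  have hnx := nice_dx hn
  have hL := (Phi_energy hw).1
  set Φ := Phi α β (toC w) with hΦ
  -- the square integrals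
  have hsum : ∑' s, ∫⁻ p in unitSq, ENNReal.ofReal (‖dx Φ s p‖ ^ 2) ≠ ⊤ := by
    have h1 := ((memLp_two_iff_integrable_sq_norm hL.1).1 hL).2
    rw [hasFiniteIntegral_iff_ofReal (Filter.Eventually.of_forall fun x => sq_nonneg _),
      lint_mu3 (fun x => ENNReal.ofReal (‖fl (dx Φ) x‖ ^ 2))
        (hL.1.norm.pow 2).aemeasurable.ennreal_ofReal] at h1
    exact h1.ne
  have ht : 0 < ENNReal.ofReal (ε ^ 2 / 6) := ENNReal.ofReal_pos.2 (by positivity)
  obtain ⟨S, hS⟩ := ((ENNReal.tendsto_tsum_compl_atTop_zero hsum).eventually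
    (gt_mem_nhds ht)).exists
  -- bound on the squares of `S`
  obtain ⟨K, hK0, hK⟩ : ∃ K : ℝ, 0 ≤ K ∧ ∀ s ∈ S, ∀ p ∈ unitSq, ‖dx Φ s p‖ ≤ K := by
    choose k hk using fun s => nice_bdd hnx s
    refine ⟨∑ s ∈ S, |k s|, Finset.sum_nonneg fun _ _ => abs_nonneg _, fun s hs p hp => ?_⟩
    exact ((hk s p hp).trans (le_abs_self _)).trans
      (Finset.single_le_sum (f := fun s => |k s|) (fun _ _ => abs_nonneg _) hs)
  -- choice of the width
  obtain ⟨δ, hδ0, hδ1, hδ⟩ : ∃ δ : ℝ, 0 < δ ∧ δ < 1 / 2 ∧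
      2 * (S.card * (K ^ 2 * (2 * δ))) ≤ ε ^ 2 / 3 := by
    set D : ℝ := 12 * (S.card * K ^ 2 + 1) with hD
    have hD0 : 0 < D := by positivity
    refine ⟨min (1 / 4) (ε ^ 2 / D), lt_min (by norm_num) (by positivity),
      lt_of_le_of_lt (min_le_left _ _) (by norm_num), ?_⟩
    have h1 : min (1 / 4) (ε ^ 2 / D) ≤ ε ^ 2 / D := min_le_right _ _
    have h2 : 0 < min (1 / 4) (ε ^ 2 / D) := lt_min (by norm_num) (by positivity)
    have h3 : (S.card : ℝ) * K ^ 2 ≤ D / 12 := by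
      rw [hD]
      linarith
    calc 2 * (S.card * (K ^ 2 * (2 * min (1 / 4) (ε ^ 2 / D))))
        = 4 * (S.card * K ^ 2) * min (1 / 4) (ε ^ 2 / D) := by ring
      _ ≤ 4 * (D / 12) * (ε ^ 2 / D) := by
          refine mul_le_mul (by linarith) h1 h2.le (by positivity)
      _ = ε ^ 2 / 3 := by
          field_simp
          ring
  -- the cut-off
  classical
  obtain ⟨η, hη01, hηS, hηf, hηe⟩ := rowcut α (S ∪ S.image α) (ε ^ 2 / (6 * (B ^ 2 * C ^ 2 + 1)))
    (by positivity)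
  have hnG : Nice α β (Gc α β δ η) (fun _ => 0) := nice_Gc hδ0 hδ1 η
  have hFS : FinS (Gc α β δ η) := by
    refine ⟨hηf.toFinset ∪ hηf.toFinset.image α.symm, fun s hs p hp => ?_⟩
    have h1 : η s = 0 := by
      by_contra h
      exact hs (Finset.mem_union_left _ (hηf.mem_toFinset.2 h))
    have h2 : η (α s) = 0 := by
      by_contra h
      refine hs (Finset.mem_union_right _ (Finset.mem_image.2 ⟨α s, hηf.mem_toFinset.2 h, ?_⟩))
      simp
    exact (hGc α β δ η hδ0 hδ1 hη01 s p hp).2.1 h1 h2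
  set f : X → ℝ × ℝ → ℂ := fun s p => Gc α β δ η s p * (-1 * Φ s p) with hf
  have hnf : Nice α β f (fun s => 0 * (-1 * toC w s)) := nice_mul hnG (nice_smul (-1) hn)
  have hFf : FinS f := finS_mul_left hFS
  refine ⟨trip f, trip_mem hnf hFf, ?_⟩
  have hLf : MemLp (fl (dx f)) 2 (mu X) := nice_memLp (nice_dx hnf) (finS_dx hFf).1 2
  have he : ph1 α β w + (trip f) 1 = cls (fun q => fl (dx Φ) q + fl (dx f) q) := by
    rw [cls_add hL hLf]
    rfl
  rw [he]
  refine le_of_sq_le_sq ?_ hε.le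
  have hLs : MemLp (fun q => fl (dx Φ) q + fl (dx f) q) 2 (mu X) := hL.add hLf
  rw [cls_norm hLs, integral_eq_lintegral_of_nonneg_ae
    (Filter.Eventually.of_forall fun x => sq_nonneg _) (hLs.1.norm.pow 2)]
  refine ENNReal.toReal_le_of_le_ofReal (sq_nonneg _) ?_
  rw [lint_mu3 (fun x => ENNReal.ofReal (‖fl (dx Φ) x + fl (dx f) x‖ ^ 2))
        (hLs.1.norm.pow 2).aemeasurable.ennreal_ofReal]
  -- pointwise formula
  have hpt : ∀ s, ∀ p ∈ unitSq, fl (dx Φ) (s, p) + fl (dx f) (s, p) =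
      dx Φ s p * (1 - Gc α β δ η s p) - dx (Gc α β δ η) s p * Φ s p := by
    intro s p hp
    have hp' := unitSq_subset_Cross hp
    change dx Φ s p + dx f s p = _
    rw [hf, (dx_mul hnG (nice_smul (-1) hn) s p hp').1, (dx_smul (-1) hn s p hp').1]
    ring
  have hk : ∀ s, ∀ p ∈ unitSq, ‖dx (Gc α β δ η) s p * Φ s p‖ ^ 2 ≤
      B ^ 2 * C ^ 2 * (η (α s) - η s) ^ 2 := by
    intro s p hp
    have h1 := (hGc α β δ η hδ0 hδ1 hη01 s p hp).2.2.1
    have h2 : ‖Φ s p‖ ≤ B := (Phi_bound hB s p).1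
    rw [norm_mul]
    have h3 : ‖dx (Gc α β δ η) s p‖ * ‖Φ s p‖ ≤ (C * |η (α s) - η s|) * B :=
      mul_le_mul h1 h2 (norm_nonneg _) (by positivity)
    refine (pow_le_pow_left₀ (by positivity) h3 2).trans (le_of_eq ?_)
    rw [mul_pow, mul_pow, sq_abs]
    ring
  have hG1 : ∀ s, ∀ p ∈ unitSq, ‖(1 : ℂ) - Gc α β δ η s p‖ ≤ 1 := by
    intro s p hp
    obtain ⟨t, ht0, ht1, ht⟩ := (hGc α β δ η hδ0 hδ1 hη01 s p hp).1
    rw [ht]
    have : (1 : ℂ) - (t : ℂ) = ((1 - t : ℝ) : ℂ) := by push_cast; ring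
    rw [this, Complex.norm_real, Real.norm_eq_abs, abs_of_nonneg (by linarith)]
    linarith
  -- bound on one square
  have hm : MeasurableSet (unitSq : Set (ℝ × ℝ)) := measurableSet_Ioo.prod measurableSet_Ioo
  have hsq : ∀ s, ∫⁻ p in unitSq, ENNReal.ofReal (‖fl (dx Φ) (s, p) + fl (dx f) (s, p)‖ ^ 2) ≤
      2 * ((S : Set X).indicator (fun _ => ENNReal.ofReal (K ^ 2 * (2 * δ))) s +
        ((S : Set X)ᶜ).indicator
          (fun s => ∫⁻ p in unitSq, ENNReal.ofReal (‖dx Φ s p‖ ^ 2)) s) +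
      2 * ENNReal.ofReal (B ^ 2 * C ^ 2 * (η (α s) - η s) ^ 2) := by
    intro s
    by_cases hs : s ∈ (S : Set X)
    · rw [Set.indicator_of_mem hs, Set.indicator_of_notMem (by simpa using hs), add_zero]
      have h1 : ∫⁻ p in unitSq, ENNReal.ofReal (‖fl (dx Φ) (s, p) + fl (dx f) (s, p)‖ ^ 2) ≤
          ∫⁻ p in unitSq, ((2 * ENNReal.ofReal (K ^ 2)) *
            ({p : ℝ × ℝ | p.2 ≤ δ ∨ 1 - δ ≤ p.2}.indicator 1 p) +
            2 * ENNReal.ofReal (B ^ 2 * C ^ 2 * (η (α s) - η s) ^ 2)) := by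
        refine setLIntegral_mono' hm fun p hp => ?_
        rw [hpt s p hp]
        by_cases hpm : p ∈ {p : ℝ × ℝ | p.2 ≤ δ ∨ 1 - δ ≤ p.2}
        · rw [Set.indicator_of_mem hpm, Pi.one_apply, mul_one]
          have h2 : ‖dx Φ s p * (1 - Gc α β δ η s p)‖ ^ 2 ≤ K ^ 2 := by
            rw [norm_mul]
            refine pow_le_pow_left₀ (by positivity) ?_ 2
            calc ‖dx Φ s p‖ * ‖1 - Gc α β δ η s p‖ ≤ K * 1 :=
                  mul_le_mul (hK s hs p hp) (hG1 s p hp) (norm_nonneg _) hK0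
              _ = K := mul_one K
          have h3 := sq_bound _ _ _ _ h2 (hk s p hp)
          refine (ENNReal.ofReal_le_ofReal h3).trans (le_of_eq ?_)
          rw [ENNReal.ofReal_add (by positivity) (by positivity), ENNReal.ofReal_mul (by norm_num),
            ENNReal.ofReal_mul (p := 2) (by norm_num)]
          simp
        · rw [Set.indicator_of_notMem hpm, mul_zero, zero_add]
          have h5 : δ < p.2 ∧ p.2 < 1 - δ := by
            have h := hpm
            rw [Set.mem_setOf_eq, not_or, not_le, not_le] at h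
            exact h
          have h6 : η s = 1 := hηS s (Finset.mem_union_left _ hs)
          have h7 : η (α s) = 1 :=
            hηS _ (Finset.mem_union_right _ (Finset.mem_image_of_mem _ hs))
          have h8 := (hGc α β δ η hδ0 hδ1 hη01 s p hp).2.2.2 h6 h7 h5.1 h5.2
          have h2 : ‖dx Φ s p * (1 - Gc α β δ η s p)‖ ^ 2 ≤ 0 := by
            rw [h8]
            simp
          have h3 := sq_bound _ _ _ _ h2 (hk s p hp)
          refine (ENNReal.ofReal_le_ofReal h3).trans (le_of_eq ?_)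
          rw [mul_zero, zero_add, ENNReal.ofReal_mul (p := 2) (by norm_num)]
          simp
      refine h1.trans ?_
      have hmS : MeasurableSet {p : ℝ × ℝ | p.2 ≤ δ ∨ 1 - δ ≤ p.2} :=
        (measurableSet_le measurable_snd measurable_const).union
          (measurableSet_le measurable_const measurable_snd)
      rw [lintegral_add_right _ measurable_const, lintegral_const,
        lintegral_const_mul _ (measurable_one.indicator hmS), lintegral_indicator_one hmS,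
        Measure.restrict_apply_univ, vol_unitSq, mul_one]
      refine add_le_add ?_ le_rfl
      rw [mul_assoc, ENNReal.ofReal_mul (p := K ^ 2) (by positivity)]
      gcongr
      exact strip_vol δ hδ0
    · rw [Set.indicator_of_notMem hs, Set.indicator_of_mem (by simpa using hs), zero_add]
      have h1 : ∫⁻ p in unitSq, ENNReal.ofReal (‖fl (dx Φ) (s, p) + fl (dx f) (s, p)‖ ^ 2) ≤
          ∫⁻ p in unitSq, (2 * ENNReal.ofReal (‖dx Φ s p‖ ^ 2) +
            2 * ENNReal.ofReal (B ^ 2 * C ^ 2 * (η (α s) - η s) ^ 2)) := by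
        refine setLIntegral_mono' hm fun p hp => ?_
        rw [hpt s p hp]
        have h2 : ‖dx Φ s p * (1 - Gc α β δ η s p)‖ ^ 2 ≤ ‖dx Φ s p‖ ^ 2 := by
          rw [norm_mul]
          refine pow_le_pow_left₀ (by positivity) ?_ 2
          exact mul_le_of_le_one_right (norm_nonneg _) (hG1 s p hp)
        have h3 := sq_bound _ _ _ _ h2 (hk s p hp)
        refine (ENNReal.ofReal_le_ofReal h3).trans (le_of_eq ?_)
        rw [ENNReal.ofReal_add (by positivity) (by positivity), ENNReal.ofReal_mul (by norm_num),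
            ENNReal.ofReal_mul (p := 2) (by norm_num)]
        simp
      refine h1.trans (le_of_eq ?_)
      rw [lintegral_add_right _ measurable_const, lintegral_const, Measure.restrict_apply_univ,
        vol_unitSq, mul_one, lintegral_const_mul' _ _ (by norm_num)]
  refine (ENNReal.tsum_le_tsum hsq).trans ?_
  rw [ENNReal.tsum_add, ENNReal.tsum_mul_left, ENNReal.tsum_mul_left, ENNReal.tsum_add]
  have e1 : ∑' s, (S : Set X).indicator (fun _ => ENNReal.ofReal (K ^ 2 * (2 * δ))) s =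
      ENNReal.ofReal (S.card * (K ^ 2 * (2 * δ))) := by
    rw [← tsum_subtype (S : Set X) (fun _ => ENNReal.ofReal (K ^ 2 * (2 * δ)))]
    rw [Finset.tsum_subtype' S (fun _ => ENNReal.ofReal (K ^ 2 * (2 * δ))), Finset.sum_const,
      nsmul_eq_mul, ENNReal.ofReal_mul (p := (S.card : ℝ)) (by positivity),
      ENNReal.ofReal_natCast]
  have e2 : ∑' s, ((S : Set X)ᶜ).indicator
      (fun s => ∫⁻ p in unitSq, ENNReal.ofReal (‖dx Φ s p‖ ^ 2)) s ≤
      ENNReal.ofReal (ε ^ 2 / 6) := by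
    rw [← tsum_subtype ((S : Set X)ᶜ)]
    exact hS.le
  have hηs : Summable fun s => (η (α s) - η s) ^ 2 := by
    refine summable_of_hasFiniteSupport ?_
    refine ((hηf.preimage α.injective.injOn).union hηf).subset ?_
    intro s hs
    by_contra h
    rw [Set.mem_union, not_or] at h
    have h1 : η (α s) = 0 := by simpa using h.1
    have h2 : η s = 0 := by simpa using h.2
    exact hs (by change (η (α s) - η s) ^ 2 = 0; rw [h1, h2]; simp)
  have e3 : ∑' s, ENNReal.ofReal (B ^ 2 * C ^ 2 * (η (α s) - η s) ^ 2) ≤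
      ENNReal.ofReal (ε ^ 2 / 6) := by
    rw [← ENNReal.ofReal_tsum_of_nonneg (fun s => by positivity) (hηs.mul_left _), tsum_mul_left]
    refine ENNReal.ofReal_le_ofReal ?_
    calc B ^ 2 * C ^ 2 * ∑' s, (η (α s) - η s) ^ 2
        ≤ (B ^ 2 * C ^ 2 + 1) * (ε ^ 2 / (6 * (B ^ 2 * C ^ 2 + 1))) :=
          mul_le_mul (by linarith) hηe (tsum_nonneg fun _ => sq_nonneg _) (by positivity)
      _ = ε ^ 2 / 6 := by
          have : B ^ 2 * C ^ 2 + 1 ≠ 0 := by positivity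
          field_simp
  rw [e1]
  calc 2 * (ENNReal.ofReal (S.card * (K ^ 2 * (2 * δ))) + _) + 2 * _
      ≤ 2 * (ENNReal.ofReal (S.card * (K ^ 2 * (2 * δ))) + ENNReal.ofReal (ε ^ 2 / 6)) +
        2 * ENNReal.ofReal (ε ^ 2 / 6) := by gcongr
    _ = ENNReal.ofReal (2 * (S.card * (K ^ 2 * (2 * δ)) + ε ^ 2 / 6) + 2 * (ε ^ 2 / 6)) := by
        rw [ENNReal.ofReal_add (by positivity) (by positivity),
          ENNReal.ofReal_mul (p := 2) (by norm_num),
          ENNReal.ofReal_mul (p := 2) (q := ε ^ 2 / 6) (by norm_num),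
          ENNReal.ofReal_add (by positivity) (by positivity)]
        simp
    _ ≤ ENNReal.ofReal (ε ^ 2) := ENNReal.ofReal_le_ofReal (by linarith)

end Pool.Agent.Helper96.OF
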