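import Pool.Agent.Helper80.OF.LDefs

/-!
# OFL2-L0a: corner functions are nice

Let `ξ` be smooth on ℝ×ℝ, zero outside `{|x| < 1/2, |y| < 1/2}` and constant (= ξ 0) on `{|x| < ε, |y| < ε}`.
`nice_corner`: on the open unit square of s: the four terms have disjoint supports (near the four corners). Smoothness on Cross, row, col: the function is `ext`; for a point (x0,y0) with x0 = j integer, 0<y0<1: on the left
square (t = α^{j-1} s, x near 1) only the terms 2 and 4 are nonzero: `[cor (α t)] ξ(x-1,y) + [cor (β α t)] ξ(x-1,y-1)`, on the right square (t' = α t, x near 0) only the terms 1 and 3: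
`[cor t'] ξ(x,y) + [cor (β t')] ξ(x,y-1)`; they fit together to the smooth function `[cor t'] ξ(x-j,y) + [cor (β t')] ξ(x-j,y-1)`. At y0 = j integer, 0<x0<1: below (t, y near 1) terms 3, 4:
`[cor (β t)] ξ(x,y-1) + [cor (β α t)] ξ(x-1,y-1)`, above (t' = β t) terms 1, 2: `[cor t'] ξ(x,y) + [cor (α t')] ξ(x-1,y)`, and `cor (β α t) ↔ cor (α β t)` since `β α t = ζ (α β t)`. Corner boxes: ρ = min ε (1/2).
`c s = if cor s0 s then ξ 0 else 0` is ζ-invariant (cor_zeta). (See FT7 nice_Phi for the same argument with ext.)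
`dx_corner`: on the open unit square the formula corner_unitSq can be differentiated (floor = 0); both sides are continuous on Cross (nice_corner for ξ and its derivatives) and the open squares (all `(i,i+1) × (j,j+1)`) are
dense in Cross; or directly from the local formulas.
`cor_finite`: if ζ^k s0 = s0, k > 0, then the orbit is finite. `finS_corner`: the function is zero on the open unit square of s unless s, α s, β s or β α s is in the orbit.
`corner_unitSq`: floor = 0, fract = id.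
-/

set_option autoImplicit false

open MeasureTheory

namespace Pool.Agent.Helper96.OF

variable {X : Type} {α β : Equiv.Perm X}

/-! ### a general gluing lemma -/

/-- the sum of two consecutive translates -/
private noncomputable def GF (L : ℝ × ℝ →L[ℝ] ℝ) (A B : ℤ → ℂ) (u v : ℤ → ℝ × ℝ) (ξ : ℝ × ℝ → ℂ)
    (p : ℝ × ℝ) : ℂ :=
  (A ⌊L p⌋ * ξ (p - u ⌊L p⌋) + B ⌊L p⌋ * ξ (p - v ⌊L p⌋)) +
    (A (⌊L p⌋ + 1) * ξ (p - u (⌊L p⌋ + 1)) + B (⌊L p⌋ + 1) * ξ (p - v (⌊L p⌋ + 1)))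

/-- one term -/
private noncomputable def gt (A B : ℤ → ℂ) (u v : ℤ → ℝ × ℝ) (ξ : ℝ × ℝ → ℂ) (n : ℤ)
    (p : ℝ × ℝ) : ℂ := A n * ξ (p - u n) + B n * ξ (p - v n)

private theorem gt_zero {L : ℝ × ℝ →L[ℝ] ℝ} {A B : ℤ → ℂ} {u v : ℤ → ℝ × ℝ} {ξ : ℝ × ℝ → ℂ}
    (hu : ∀ n, L (u n) = n) (hv : ∀ n, L (v n) = n) (hL : ∀ q, ξ q ≠ 0 → |L q| < 1 / 2) {n : ℤ}
    {p : ℝ × ℝ} (h : 1 / 2 ≤ |L p - n|) : gt A B u v ξ n p = 0 := by
  have h1 : ξ (p - u n) = 0 := by
    by_contra hne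
    have := hL _ hne
    rw [map_sub, hu] at this
    linarith
  have h2 : ξ (p - v n) = 0 := by
    by_contra hne
    have := hL _ hne
    rw [map_sub, hv] at this
    linarith
  unfold gt
  rw [h1, h2]
  ring

private theorem GF_local {L : ℝ × ℝ →L[ℝ] ℝ} {A B : ℤ → ℂ} {u v : ℤ → ℝ × ℝ} {ξ : ℝ × ℝ → ℂ}
    (hu : ∀ n, L (u n) = n) (hv : ∀ n, L (v n) = n) (hL : ∀ q, ξ q ≠ 0 → |L q| < 1 / 2) (n : ℤ)
    {p : ℝ × ℝ} (h1 : (n : ℝ) - 1 < L p) (h2 : L p < n + 1) :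
    GF L A B u v ξ p = gt A B u v ξ (n - 1) p + gt A B u v ξ n p + gt A B u v ξ (n + 1) p := by
  rcases lt_or_ge (L p) n with h | h
  · have hf : ⌊L p⌋ = n - 1 := by
      rw [Int.floor_eq_iff]
      push_cast
      constructor <;> linarith
    have h3 : gt A B u v ξ (n + 1) p = 0 := by
      refine gt_zero hu hv hL ?_
      push_cast
      rw [abs_sub_comm, abs_of_pos (by linarith)]
      linarith
    rw [h3, add_zero]
    unfold GF gt
    rw [hf, sub_add_cancel]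
  · have hf : ⌊L p⌋ = n := by
      rw [Int.floor_eq_iff]
      constructor <;> linarith
    have h3 : gt A B u v ξ (n - 1) p = 0 := by
      refine gt_zero hu hv hL ?_
      push_cast
      rw [abs_of_pos (by linarith)]
      linarith
    rw [h3, zero_add]
    unfold GF gt
    rw [hf]

private theorem gt_smooth {A B : ℤ → ℂ} {u v : ℤ → ℝ × ℝ} {ξ : ℝ × ℝ → ℂ}
    (hξ : ContDiff ℝ (⊤ : ℕ∞) ξ) (n : ℤ) : ContDiff ℝ (⊤ : ℕ∞) (gt A B u v ξ n) := by
  unfold gt
  exact (contDiff_const.mul (hξ.comp (contDiff_id.sub contDiff_const))).add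
    (contDiff_const.mul (hξ.comp (contDiff_id.sub contDiff_const)))

private theorem GF_ev {L : ℝ × ℝ →L[ℝ] ℝ} {A B : ℤ → ℂ} {u v : ℤ → ℝ × ℝ} {ξ : ℝ × ℝ → ℂ}
    (hu : ∀ n, L (u n) = n) (hv : ∀ n, L (v n) = n) (hL : ∀ q, ξ q ≠ 0 → |L q| < 1 / 2)
    (p : ℝ × ℝ) : GF L A B u v ξ =ᶠ[nhds p] fun q => gt A B u v ξ (⌊L p⌋ - 1) q +
      gt A B u v ξ ⌊L p⌋ q + gt A B u v ξ (⌊L p⌋ + 1) q := by
  have h1 : ((⌊L p⌋ : ℝ) - 1) < L p := by
    have := Int.floor_le (L p)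
    linarith
  have h2 := Int.lt_floor_add_one (L p)
  have ho : IsOpen {q : ℝ × ℝ | ((⌊L p⌋ : ℝ) - 1) < L q ∧ L q < ⌊L p⌋ + 1} :=
    (isOpen_lt continuous_const L.continuous).inter (isOpen_lt L.continuous continuous_const)
  filter_upwards [ho.mem_nhds ⟨h1, h2⟩] with q hq
  exact GF_local hu hv hL _ hq.1 hq.2

private theorem GF_smooth {L : ℝ × ℝ →L[ℝ] ℝ} {A B : ℤ → ℂ} {u v : ℤ → ℝ × ℝ} {ξ : ℝ × ℝ → ℂ}
    (hξ : ContDiff ℝ (⊤ : ℕ∞) ξ) (hu : ∀ n, L (u n) = n) (hv : ∀ n, L (v n) = n)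
    (hL : ∀ q, ξ q ≠ 0 → |L q| < 1 / 2) : ContDiff ℝ (⊤ : ℕ∞) (GF L A B u v ξ) := by
  rw [contDiff_iff_contDiffAt]
  intro p
  have hg : ContDiff ℝ (⊤ : ℕ∞) (fun q => gt A B u v ξ (⌊L p⌋ - 1) q +
      gt A B u v ξ ⌊L p⌋ q + gt A B u v ξ (⌊L p⌋ + 1) q) :=
    ((gt_smooth hξ _).add (gt_smooth hξ _)).add (gt_smooth hξ _)
  exact hg.contDiffAt.congr_of_eventuallyEq (GF_ev hu hv hL p)

private theorem gt_deriv {A B : ℤ → ℂ} {u v : ℤ → ℝ × ℝ} {ξ : ℝ × ℝ → ℂ}
    (hξ : ContDiff ℝ (⊤ : ℕ∞) ξ) (n : ℤ) (p e : ℝ × ℝ) :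
    fderiv ℝ (gt A B u v ξ n) p e = gt A B u v (fun q => fderiv ℝ ξ q e) n p := by
  have hd : ∀ c : ℝ × ℝ, HasFDerivAt (fun q : ℝ × ℝ => ξ (q - c)) (fderiv ℝ ξ (p - c)) p := by
    intro c
    have h1 : HasFDerivAt ξ (fderiv ℝ ξ (p - c)) (p - c) :=
      (hξ.differentiable (by simp)).differentiableAt.hasFDerivAt
    have h2 : HasFDerivAt (fun q : ℝ × ℝ => q - c) (ContinuousLinearMap.id ℝ (ℝ × ℝ)) p :=
      (hasFDerivAt_id p).sub_const c
    have h3 := h1.comp p h2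
    rwa [ContinuousLinearMap.comp_id] at h3
  have h : HasFDerivAt (gt A B u v ξ n)
      (A n • fderiv ℝ ξ (p - u n) + B n • fderiv ℝ ξ (p - v n)) p := by
    unfold gt
    exact ((hd (u n)).const_mul (A n)).add ((hd (v n)).const_mul (B n))
  rw [h.fderiv]
  unfold gt
  simp [smul_eq_mul]

private theorem GF_deriv {L : ℝ × ℝ →L[ℝ] ℝ} {A B : ℤ → ℂ} {u v : ℤ → ℝ × ℝ} {ξ : ℝ × ℝ → ℂ}
    (hξ : ContDiff ℝ (⊤ : ℕ∞) ξ) (hu : ∀ n, L (u n) = n) (hv : ∀ n, L (v n) = n)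
    (hL : ∀ q, ξ q ≠ 0 → |L q| < 1 / 2) (p e : ℝ × ℝ) :
    fderiv ℝ (GF L A B u v ξ) p e = GF L A B u v (fun q => fderiv ℝ ξ q e) p := by
  rw [(GF_ev hu hv hL p).fderiv_eq]
  have d1 := ((gt_smooth (A := A) (B := B) (u := u) (v := v) hξ (⌊L p⌋ - 1)).differentiable
    (by simp)).differentiableAt (x := p)
  have d2 := ((gt_smooth (A := A) (B := B) (u := u) (v := v) hξ ⌊L p⌋).differentiable
    (by simp)).differentiableAt (x := p)
  have d3 := ((gt_smooth (A := A) (B := B) (u := u) (v := v) hξ (⌊L p⌋ + 1)).differentiable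
    (by simp)).differentiableAt (x := p)
  have h1 : HasFDerivAt (fun q => gt A B u v ξ (⌊L p⌋ - 1) q +
      gt A B u v ξ ⌊L p⌋ q + gt A B u v ξ (⌊L p⌋ + 1) q)
      (fderiv ℝ (gt A B u v ξ (⌊L p⌋ - 1)) p + fderiv ℝ (gt A B u v ξ ⌊L p⌋) p +
        fderiv ℝ (gt A B u v ξ (⌊L p⌋ + 1)) p) p :=
    (d1.hasFDerivAt.add d2.hasFDerivAt).add d3.hasFDerivAt
  rw [h1.fderiv]
  have h2 : fderiv ℝ (gt A B u v ξ (⌊L p⌋ - 1)) p = 0 := by
    have h3 : gt A B u v ξ (⌊L p⌋ - 1) =ᶠ[nhds p] fun _ => 0 := by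
      have h4 : (⌊L p⌋ : ℝ) - 1 / 2 < L p := by
        have := Int.floor_le (L p)
        linarith
      have ho : IsOpen {q : ℝ × ℝ | (⌊L p⌋ : ℝ) - 1 / 2 < L q} :=
        isOpen_lt continuous_const L.continuous
      filter_upwards [ho.mem_nhds h4] with q hq
      refine gt_zero hu hv hL ?_
      have hq' : (⌊L p⌋ : ℝ) - 1 / 2 < L q := hq
      push_cast
      rw [abs_of_pos (by linarith)]
      linarith
    rw [h3.fderiv_eq]
    simp
  rw [h2, zero_add, add_apply, gt_deriv hξ, gt_deriv hξ]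
  rfl

/-! ### corner functions -/

open Classical in
theorem corner_unitSq (s0 : X) (ξ : ℝ × ℝ → ℂ) (s : X) (p : ℝ × ℝ) (hx0 : 0 ≤ p.1) (hx1 : p.1 < 1)
    (hy0 : 0 ≤ p.2) (hy1 : p.2 < 1) :
    cornerFun α β s0 ξ s p =
      (if cor α β s0 s then ξ p else 0) + (if cor α β s0 (α s) then ξ (p.1 - 1, p.2) else 0) +
      (if cor α β s0 (β s) then ξ (p.1, p.2 - 1) else 0) +
      (if cor α β s0 (β (α s)) then ξ (p.1 - 1, p.2 - 1) else 0) := by
  have f1 : ⌊p.1⌋ = 0 := by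
    rw [Int.floor_eq_iff]
    push_cast
    constructor <;> linarith
  have f2 : ⌊p.2⌋ = 0 := by
    rw [Int.floor_eq_iff]
    push_cast
    constructor <;> linarith
  have g1 : Int.fract p.1 = p.1 := Int.fract_eq_self.2 ⟨hx0, hx1⟩
  have g2 : Int.fract p.2 = p.2 := Int.fract_eq_self.2 ⟨hy0, hy1⟩
  unfold cornerFun ext
  simp only [f1, f2, g1, g2, zpow_zero, Equiv.Perm.one_apply]

theorem cor_zeta {s0 s : X} : cor α β s0 (zeta α β s) ↔ cor α β s0 s := by
  constructor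
  · rintro ⟨n, hn⟩
    refine ⟨-1 + n, ?_⟩
    rw [zpow_add, Equiv.Perm.mul_apply, hn, zpow_neg_one]
    exact (zeta α β).symm_apply_apply s
  · rintro ⟨n, hn⟩
    refine ⟨1 + n, ?_⟩
    rw [zpow_add, Equiv.Perm.mul_apply, hn, zpow_one]

theorem cor_comm {s0 s : X} : cor α β s0 (β (α s)) ↔ cor α β s0 (α (β s)) := by
  have h : β (α s) = zeta α β (α (β s)) := by
    simp [zeta, Equiv.Perm.mul_apply]
  rw [h]
  exact cor_zeta

open Classical in
/-- indicator of the corner -/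
private noncomputable def ic (α β : Equiv.Perm X) (s0 s : X) : ℂ := if cor α β s0 s then 1 else 0

open Classical in
private theorem ite_ic (s0 s : X) (a : ℂ) : (if cor α β s0 s then a else 0) = ic α β s0 s * a := by
  unfold ic
  split_ifs <;> simp

private theorem corner_eq (s0 : X) (ξ : ℝ × ℝ → ℂ) (s : X) (p : ℝ × ℝ) :
    cornerFun α β s0 ξ s p = ext α β (fun s p => ic α β s0 s * ξ p +
      ic α β s0 (α s) * ξ (p.1 - 1, p.2) + ic α β s0 (β s) * ξ (p.1, p.2 - 1) +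
      ic α β s0 (β (α s)) * ξ (p.1 - 1, p.2 - 1)) s p := by
  unfold cornerFun ext
  simp only [ite_ic]

private theorem ic_comm (s0 s : X) : ic α β s0 (β (α s)) = ic α β s0 (α (β s)) := by
  unfold ic
  by_cases h : cor α β s0 (β (α s))
  · rw [if_pos h, if_pos (cor_comm.1 h)]
  · rw [if_neg h, if_neg (fun h' => h (cor_comm.2 h'))]

private theorem floor_01 {x : ℝ} (h : 0 < x) (h' : x < 1) : ⌊x⌋ = 0 := by
  rw [Int.floor_eq_iff]
  push_cast
  constructor <;> linarith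

private theorem fract_01 {x : ℝ} (h : 0 < x) (h' : x < 1) : Int.fract x = x :=
  Int.fract_eq_self.2 ⟨h.le, h'⟩

private noncomputable def rowF (α β : Equiv.Perm X) (s0 : X) (ξ : ℝ × ℝ → ℂ) (s : X) :
    ℝ × ℝ → ℂ :=
  GF (ContinuousLinearMap.fst ℝ ℝ ℝ) (fun n => ic α β s0 ((α ^ n) s))
    (fun n => ic α β s0 (β ((α ^ n) s))) (fun n => ((n : ℝ), 0)) (fun n => ((n : ℝ), 1)) ξ

private noncomputable def colF (α β : Equiv.Perm X) (s0 : X) (ξ : ℝ × ℝ → ℂ) (s : X) :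
    ℝ × ℝ → ℂ :=
  GF (ContinuousLinearMap.snd ℝ ℝ ℝ) (fun n => ic α β s0 ((β ^ n) s))
    (fun n => ic α β s0 (α ((β ^ n) s))) (fun n => (0, (n : ℝ))) (fun n => (1, (n : ℝ))) ξ

private theorem corner_row (s0 : X) (ξ : ℝ × ℝ → ℂ) (s : X) (p : ℝ × ℝ) (h0 : 0 < p.2)
    (h1 : p.2 < 1) : cornerFun α β s0 ξ s p = rowF α β s0 ξ s p := by
  rw [corner_eq]
  unfold ext rowF GF
  simp only [ContinuousLinearMap.coe_fst']
  rw [floor_01 h0 h1, fract_01 h0 h1, zpow_zero, Equiv.Perm.one_apply]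
  have h : (α ^ (⌊p.1⌋ + 1)) s = α ((α ^ ⌊p.1⌋) s) := by
    rw [add_comm, zpow_add, zpow_one, Equiv.Perm.mul_apply]
  rw [h]
  have e1 : p - ((⌊p.1⌋ : ℝ), 0) = (Int.fract p.1, p.2) := by
    rw [Int.fract]
    exact Prod.ext (by simp) (by simp)
  have e2 : p - ((⌊p.1⌋ : ℝ), 1) = (Int.fract p.1, p.2 - 1) := by
    rw [Int.fract]
    exact Prod.ext (by simp) (by simp)
  have e3 : p - (((⌊p.1⌋ + 1 : ℤ) : ℝ), 0) = (Int.fract p.1 - 1, p.2) := by
    rw [Int.fract]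
    refine Prod.ext ?_ (by simp)
    push_cast
    simp only [Prod.fst_sub]
    ring
  have e4 : p - (((⌊p.1⌋ + 1 : ℤ) : ℝ), 1) = (Int.fract p.1 - 1, p.2 - 1) := by
    rw [Int.fract]
    refine Prod.ext ?_ (by simp)
    push_cast
    simp only [Prod.fst_sub]
    ring
  rw [e1, e2, e3, e4]
  ring

private theorem corner_col (s0 : X) (ξ : ℝ × ℝ → ℂ) (s : X) (p : ℝ × ℝ) (h0 : 0 < p.1)
    (h1 : p.1 < 1) : cornerFun α β s0 ξ s p = colF α β s0 ξ s p := by
  rw [corner_eq]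
  unfold ext colF GF
  simp only [ContinuousLinearMap.coe_snd']
  rw [floor_01 h0 h1, fract_01 h0 h1, zpow_zero, Equiv.Perm.one_apply]
  have h : (β ^ (⌊p.2⌋ + 1)) s = β ((β ^ ⌊p.2⌋) s) := by
    rw [add_comm, zpow_add, zpow_one, Equiv.Perm.mul_apply]
  rw [h, ic_comm]
  have e1 : p - (0, (⌊p.2⌋ : ℝ)) = (p.1, Int.fract p.2) := by
    rw [Int.fract]
    exact Prod.ext (by simp) (by simp)
  have e2 : p - (1, (⌊p.2⌋ : ℝ)) = (p.1 - 1, Int.fract p.2) := by
    rw [Int.fract]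
    exact Prod.ext (by simp) (by simp)
  have e3 : p - (0, ((⌊p.2⌋ + 1 : ℤ) : ℝ)) = (p.1, Int.fract p.2 - 1) := by
    rw [Int.fract]
    refine Prod.ext (by simp) ?_
    push_cast
    simp only [Prod.snd_sub]
    ring
  have e4 : p - (1, ((⌊p.2⌋ + 1 : ℤ) : ℝ)) = (p.1 - 1, Int.fract p.2 - 1) := by
    rw [Int.fract]
    refine Prod.ext (by simp) ?_
    push_cast
    simp only [Prod.snd_sub]
    ring
  rw [e1, e2, e3, e4]
  ring

private theorem row_ev (s0 : X) (ξ : ℝ × ℝ → ℂ) (s : X) {p : ℝ × ℝ} (hp : 0 < p.2 ∧ p.2 < 1) :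
    cornerFun α β s0 ξ s =ᶠ[nhds p] rowF α β s0 ξ s := by
  have ho : IsOpen {q : ℝ × ℝ | 0 < q.2 ∧ q.2 < 1} :=
    (isOpen_lt continuous_const continuous_snd).inter (isOpen_lt continuous_snd continuous_const)
  filter_upwards [ho.mem_nhds hp] with q hq
  exact corner_row s0 ξ s q hq.1 hq.2

private theorem col_ev (s0 : X) (ξ : ℝ × ℝ → ℂ) (s : X) {p : ℝ × ℝ} (hp : 0 < p.1 ∧ p.1 < 1) :
    cornerFun α β s0 ξ s =ᶠ[nhds p] colF α β s0 ξ s := by
  have ho : IsOpen {q : ℝ × ℝ | 0 < q.1 ∧ q.1 < 1} :=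
    (isOpen_lt continuous_const continuous_fst).inter (isOpen_lt continuous_fst continuous_const)
  filter_upwards [ho.mem_nhds hp] with q hq
  exact corner_col s0 ξ s q hq.1 hq.2

open Classical in
theorem nice_corner (s0 : X) {ξ : ℝ × ℝ → ℂ} (hξ : ContDiff ℝ (⊤ : ℕ∞) ξ)
    (hsupp : ∀ p : ℝ × ℝ, ξ p ≠ 0 → |p.1| < 1 / 2 ∧ |p.2| < 1 / 2)
    {ε : ℝ} (hε : 0 < ε) (hc : ∀ p : ℝ × ℝ, |p.1| < ε → |p.2| < ε → ξ p = ξ 0) :
    Nice α β (cornerFun α β s0 ξ) (fun s => if cor α β s0 s then ξ 0 else 0) where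
  smooth := by
    intro s p hp
    refine ContDiffAt.contDiffWithinAt ?_
    rcases hp with hp | hp
    · have hg : ContDiff ℝ (⊤ : ℕ∞) (rowF α β s0 ξ s) :=
        GF_smooth hξ (fun n => rfl) (fun n => rfl) (fun q hq => (hsupp q hq).1)
      exact hg.contDiffAt.congr_of_eventuallyEq (row_ev s0 ξ s hp)
    · have hg : ContDiff ℝ (⊤ : ℕ∞) (colF α β s0 ξ s) :=
        GF_smooth hξ (fun n => rfl) (fun n => rfl) (fun q hq => (hsupp q hq).2)
      exact hg.contDiffAt.congr_of_eventuallyEq (col_ev s0 ξ s hp)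
  row := by
    intro s x y hy hy'
    rw [corner_eq, corner_eq]
    unfold ext
    simp only
    rw [floor_01 hy hy', Int.floor_add_one, Int.fract_add_one, zpow_add, zpow_one, zpow_zero]
    simp only [Equiv.Perm.mul_apply, Equiv.Perm.one_apply]
  col := by
    intro s x y hx hx'
    rw [corner_eq, corner_eq]
    unfold ext
    simp only
    rw [floor_01 hx hx', Int.floor_add_one, Int.fract_add_one, zpow_add, zpow_one, zpow_zero]
    simp only [Equiv.Perm.mul_apply, Equiv.Perm.one_apply]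
  corner := by
    refine ⟨min ε (1 / 2), lt_min hε (by norm_num), min_le_right _ _, fun s x y hx hx' hy hy' => ?_⟩
    have hxε : x < ε := hx'.trans_le (min_le_left _ _)
    have hyε : y < ε := hy'.trans_le (min_le_left _ _)
    have hx2 : x < 1 / 2 := hx'.trans_le (min_le_right _ _)
    have hy2 : y < 1 / 2 := hy'.trans_le (min_le_right _ _)
    have z1 : ∀ a b : ℝ, 1 / 2 ≤ |a| → ξ (a, b) = 0 := by
      intro a b h
      by_contra hne
      have := (hsupp _ hne).1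
      simp only at this
      linarith
    have z2 : ∀ a b : ℝ, 1 / 2 ≤ |b| → ξ (a, b) = 0 := by
      intro a b h
      by_contra hne
      have := (hsupp _ hne).2
      simp only at this
      linarith
    have z0 : ∀ a b : ℝ, |a| < ε → |b| < ε → ξ (a, b) = ξ 0 := fun a b ha hb => hc (a, b) ha hb
    refine ⟨?_, ?_, ?_, ?_⟩
    · rw [corner_unitSq s0 ξ s (x, y) hx.le (by simp only; linarith) hy.le (by simp only; linarith)]
      simp only
      rw [z0 x y (by rw [abs_of_pos hx]; exact hxε) (by rw [abs_of_pos hy]; exact hyε),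
        z1 (x - 1) y (by rw [abs_of_neg (by linarith)]; linarith),
        z2 x (y - 1) (by rw [abs_of_neg (by linarith)]; linarith),
        z1 (x - 1) (y - 1) (by rw [abs_of_neg (by linarith)]; linarith)]
      simp
    · rw [corner_unitSq s0 ξ s (1 - x, y) (by simp only; linarith) (by simp only; linarith) hy.le
        (by simp only; linarith)]
      simp only
      rw [z1 (1 - x) y (by rw [abs_of_pos (by linarith)]; linarith),
        z0 (1 - x - 1) y (by rw [abs_of_neg (by linarith)]; linarith)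
          (by rw [abs_of_pos hy]; exact hyε),
        z1 (1 - x) (y - 1) (by rw [abs_of_pos (by linarith)]; linarith),
        z2 (1 - x - 1) (y - 1) (by rw [abs_of_neg (by linarith)]; linarith)]
      simp
    · rw [corner_unitSq s0 ξ s (x, 1 - y) hx.le (by simp only; linarith) (by simp only; linarith)
        (by simp only; linarith)]
      simp only
      rw [z2 x (1 - y) (by rw [abs_of_pos (by linarith)]; linarith),
        z1 (x - 1) (1 - y) (by rw [abs_of_neg (by linarith)]; linarith),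
        z0 x (1 - y - 1) (by rw [abs_of_pos hx]; exact hxε)
          (by rw [abs_of_neg (by linarith)]; linarith),
        z1 (x - 1) (1 - y - 1) (by rw [abs_of_neg (by linarith)]; linarith)]
      simp
    · rw [corner_unitSq s0 ξ s (1 - x, 1 - y) (by simp only; linarith) (by simp only; linarith)
        (by simp only; linarith) (by simp only; linarith)]
      simp only
      rw [z1 (1 - x) (1 - y) (by rw [abs_of_pos (by linarith)]; linarith),
        z2 (1 - x - 1) (1 - y) (by rw [abs_of_pos (by linarith)]; linarith),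
        z1 (1 - x) (1 - y - 1) (by rw [abs_of_pos (by linarith)]; linarith),
        z0 (1 - x - 1) (1 - y - 1) (by rw [abs_of_neg (by linarith)]; linarith)
          (by rw [abs_of_neg (by linarith)]; linarith)]
      simp
  cinv := by
    intro s
    simp only [cor_zeta]

/-- derivatives of a corner function -/
theorem dx_corner (s0 : X) {ξ : ℝ × ℝ → ℂ} (hξ : ContDiff ℝ (⊤ : ℕ∞) ξ)
    (hsupp : ∀ p : ℝ × ℝ, ξ p ≠ 0 → |p.1| < 1 / 2 ∧ |p.2| < 1 / 2)
    {ε : ℝ} (hε : 0 < ε) (hc : ∀ p : ℝ × ℝ, |p.1| < ε → |p.2| < ε → ξ p = ξ 0) (s : X) (p : ℝ × ℝ)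
    (hp : p ∈ Cross) :
    dx (cornerFun α β s0 ξ) s p = cornerFun α β s0 (fun p => fderiv ℝ ξ p (1, 0)) s p ∧
    dy (cornerFun α β s0 ξ) s p = cornerFun α β s0 (fun p => fderiv ℝ ξ p (0, 1)) s p := by
  have key : ∀ e : ℝ × ℝ, fderiv ℝ (cornerFun α β s0 ξ s) p e =
      cornerFun α β s0 (fun p => fderiv ℝ ξ p e) s p := by
    intro e
    rcases hp with hp | hp
    · rw [(row_ev s0 ξ s hp).fderiv_eq, corner_row s0 _ s p hp.1 hp.2]
      exact GF_deriv hξ (fun n => rfl) (fun n => rfl) (fun q hq => (hsupp q hq).1) p e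
    · rw [(col_ev s0 ξ s hp).fderiv_eq, corner_col s0 _ s p hp.1 hp.2]
      exact GF_deriv hξ (fun n => rfl) (fun n => rfl) (fun q hq => (hsupp q hq).2) p e
  exact ⟨key (1, 0), key (0, 1)⟩

/-- corner functions are linear in `ξ` (on all of ℝ×ℝ) -/
theorem corner_lin (s0 : X) (ξ ξ' : ℝ × ℝ → ℂ) (k : ℂ) (s : X) (p : ℝ × ℝ) :
    cornerFun α β s0 (fun p => ξ p + k * ξ' p) s p =
      cornerFun α β s0 ξ s p + k * cornerFun α β s0 ξ' s p := by
  rw [corner_eq, corner_eq, corner_eq]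
  unfold ext
  ring

theorem cor_finite {s0 : X} {k : ℕ} (hk : 0 < k) (hs0 : (zeta α β ^ k) s0 = s0) :
    {s | cor α β s0 s}.Finite := by
  refine ((Finset.range k).finite_toSet.image fun i : ℕ => (zeta α β ^ i) s0).subset ?_
  rintro s ⟨n, hn⟩
  have hk' : (0 : ℤ) < k := by exact_mod_cast hk
  have h1 : 0 ≤ n % (k : ℤ) := Int.emod_nonneg _ hk'.ne'
  have h2 : n % (k : ℤ) < k := Int.emod_lt_of_pos _ hk'
  refine ⟨(n % (k : ℤ)).toNat, ?_, ?_⟩
  · simp only [Finset.coe_range, Set.mem_Iio]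
    omega
  · show (zeta α β ^ (n % (k : ℤ)).toNat) s0 = s
    rw [← hn, ← zpow_natCast, Int.toNat_of_nonneg h1]
    have h3 : n = n % (k : ℤ) + k * (n / k) := (Int.emod_add_mul_ediv n k).symm
    have h4 : (zeta α β ^ ((k : ℤ) * (n / k))) s0 = s0 := by
      rw [zpow_mul, zpow_natCast]
      exact Equiv.Perm.zpow_apply_eq_self_of_apply_eq_self hs0 _
    conv_rhs => rw [h3, zpow_add, Equiv.Perm.mul_apply, h4]

theorem finS_corner {s0 : X} {k : ℕ} (hk : 0 < k) (hs0 : (zeta α β ^ k) s0 = s0)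
    (ξ : ℝ × ℝ → ℂ) : FinS (cornerFun α β s0 ξ) := by
  have hO := cor_finite hk hs0
  have h1 : {s | cor α β s0 (α s)}.Finite := hO.preimage (f := α) α.injective.injOn
  have h2 : {s | cor α β s0 (β s)}.Finite := hO.preimage (f := β) β.injective.injOn
  have h3 : {s | cor α β s0 (β (α s))}.Finite := h2.preimage (f := α) α.injective.injOn
  refine ⟨(((hO.union h1).union h2).union h3).toFinset, fun s hs p hp => ?_⟩
  rw [Set.Finite.mem_toFinset] at hs
  simp only [Set.mem_union, Set.mem_ofPred_eq, not_or] at hs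
  obtain ⟨⟨⟨n1, n2⟩, n3⟩, n4⟩ := hs
  rw [corner_unitSq s0 ξ s p hp.1.1.le hp.1.2 hp.2.1.le hp.2.2, if_neg n1, if_neg n2, if_neg n3,
    if_neg n4]
  simp

end Pool.Agent.Helper96.OF
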