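import Pool.Agent.Helper80.OF.L0r

/-!
# OFL2-L0b: integrals of corner functions

`int_corner`: for a finite corner with N squares (N = ncard of the orbit): by FT2 integral_mu and corner_unitSq
`∫ cf = ∑_s ([cor s] ∫_{unitSq} ξ + [cor (α s)] ∫_{unitSq} ξ(x-1,y) + [cor (β s)] ∫ ξ(x,y-1) + [cor (β α s)] ∫ ξ(x-1,y-1))` (finitely many s); the four sums are N times the integral of ξ over one quadrant
(reindex by α, β, β α; translation invariance), so the total is `N ∫_{ℝ²} ξ` (ξ is zero outside the square of side 1; the axes are null sets).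
`int_rad`: `∫_{ℝ×ℝ} radF η τ r = (π r²/im τ) ∫_0^1 η` — change of variables z = zt τ p (determinant im τ), polar coordinates. Only positivity and the scaling form are used:
`den_pos`: for η = eta0 the integral is a positive real number (int_corner, int_rad; N ≥ 1; ∫ eta0 > 0 since eta0 ≥ 0 is continuous and positive at 1/2).
`integrable_FF_corner`: FF is bounded and a.e. strongly measurable (FT10 FF_bound, FF_meas), the corner function is nice and FinS (L0a), hence integrable (FT2 nice_memLp with p = 1).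
-/

set_option autoImplicit false

open MeasureTheory

namespace Pool.Agent.Helper96.OF

/-! ### change of variables -/

/-- the linear map `(x,y) ↦ (x + a y, b y)` -/
private noncomputable def l0bL (a b : ℝ) : (ℝ × ℝ) →ₗ[ℝ] (ℝ × ℝ) where
  toFun p := (p.1 + a * p.2, b * p.2)
  map_add' p q := by
    ext <;> simp <;> ring
  map_smul' c p := by
    ext <;> simp <;> ring

private theorem l0bL_det (a b : ℝ) : LinearMap.det (l0bL a b) = b := by
  rw [← LinearMap.det_toMatrix (Module.Basis.finTwoProd ℝ), Matrix.det_fin_two]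
  simp [LinearMap.toMatrix_apply, l0bL, Module.Basis.finTwoProd]

private theorem l0b_zt (τ : ℂ) (p : ℝ × ℝ) :
    zt τ p = Complex.measurableEquivRealProd.symm (l0bL τ.re τ.im p) := by
  rw [Complex.measurableEquivRealProd_symm_apply]
  apply Complex.ext
  · simp [zt, l0bL]
  · simp [zt, l0bL]

private theorem l0b_cont (τ : ℂ) : Continuous (zt τ) := by
  unfold zt
  fun_prop

private theorem l0b_map (τ : ℂ) (hτ : 0 < τ.im) :
    Measure.map (zt τ) (volume : Measure (ℝ × ℝ)) = ENNReal.ofReal (τ.im)⁻¹ • (volume : Measure ℂ) := by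
  have h1 : zt τ = Complex.measurableEquivRealProd.symm ∘ (l0bL τ.re τ.im) := by
    funext p
    exact l0b_zt τ p
  have hL : Measurable (l0bL τ.re τ.im) :=
    (LinearMap.continuous_of_finiteDimensional (l0bL τ.re τ.im)).measurable
  rw [h1, ← Measure.map_map Complex.measurableEquivRealProd.symm.measurable hL,
    Measure.map_linearMap_addHaar_eq_smul_addHaar volume (by rw [l0bL_det]; exact hτ.ne'),
    l0bL_det, Measure.map_smul]
  rw [(Complex.volume_preserving_equiv_real_prod.symm).map_eq, abs_of_pos (by positivity)]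

private theorem l0b_inj (τ : ℂ) (hτ : 0 < τ.im) : Function.Injective (zt τ) := by
  intro p q h
  have h1 := congrArg Complex.im h
  have h2 := congrArg Complex.re h
  simp [zt] at h1 h2
  have h3 : p.2 = q.2 := by
    rcases h1 with h1 | h1
    · exact h1
    · exact absurd h1 hτ.ne'
  rw [h3] at h2
  have h4 : p.1 = q.1 := by linarith
  exact Prod.ext h4 h3

private theorem l0b_emb (τ : ℂ) (hτ : 0 < τ.im) : MeasurableEmbedding (zt τ) :=
  (l0b_cont τ).measurableEmbedding (l0b_inj τ hτ)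

theorem int_rad {η : ℝ → ℝ} (hη : Prof η) {τ : ℂ} (hτ : τ ∈ HH) {r : ℝ} (hr : 0 < r) :
    ∫ p : ℝ × ℝ, radF η τ r p = ((Real.pi * r ^ 2 / τ.im * ∫ t in (0 : ℝ)..1, η t : ℝ) : ℂ) := by
  have hτ' : 0 < τ.im := hτ
  have e1 : ∫ p : ℝ × ℝ, radF η τ r p = ((∫ p : ℝ × ℝ, η (Complex.normSq (zt τ p) / r ^ 2) : ℝ) : ℂ) := by
    unfold radF
    exact integral_ofReal
  rw [e1]
  congr 1
  have e2 : ∫ p : ℝ × ℝ, η (Complex.normSq (zt τ p) / r ^ 2) =
      (τ.im)⁻¹ * ∫ z : ℂ, η (Complex.normSq z / r ^ 2) := by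
    rw [← (l0b_emb τ hτ').integral_map (fun z : ℂ => η (Complex.normSq z / r ^ 2)), l0b_map τ hτ',
      integral_smul_measure, ENNReal.toReal_ofReal (by positivity), smul_eq_mul]
  have e3 : ∫ z : ℂ, η (Complex.normSq z / r ^ 2) =
      2 * Real.pi * ∫ y in Set.Ioi (0 : ℝ), y * η (y ^ 2 / r ^ 2) := by
    have h1 := integral_fun_norm_addHaar (volume : Measure ℂ) (fun y : ℝ => η (y ^ 2 / r ^ 2))
    have h2 : ∀ z : ℂ, Complex.normSq z = ‖z‖ ^ 2 := fun z => Complex.normSq_eq_norm_sq z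
    simp only [h2]
    rw [h1]
    have h3 : (volume : Measure ℂ).real (Metric.ball 0 1) = Real.pi := by
      rw [Measure.real, Complex.volume_ball]
      simp
    rw [h3, Complex.finrank_real_complex]
    simp only [smul_eq_mul, nsmul_eq_mul]
    norm_num
    ring
  have e4 : ∫ y in Set.Ioi (0 : ℝ), y * η (y ^ 2 / r ^ 2) = (r ^ 2 / 2) * ∫ t in (0 : ℝ)..1, η t := by
    have h1 : ∫ y in Set.Ioi (0 : ℝ), y * η (y ^ 2 / r ^ 2) =
        ∫ y in Set.Ioc (0 : ℝ) r, y * η (y ^ 2 / r ^ 2) := by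
      refine setIntegral_eq_of_subset_of_forall_sdiff_eq_zero measurableSet_Ioi
        (fun y hy => hy.1) ?_
      intro y hy
      have hy0 : 0 < y := hy.1
      have hyr : r < y := by
        by_contra hcon
        exact hy.2 ⟨hy0, not_lt.1 hcon⟩
      rw [hη.zero _ (by
        rw [le_div_iff₀ (by positivity), one_mul]
        exact pow_le_pow_left₀ hr.le hyr.le 2), mul_zero]
    rw [h1, ← intervalIntegral.integral_of_le hr.le]
    have h2 := intervalIntegral.integral_comp_mul_deriv (a := 0) (b := r)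
      (f := fun y : ℝ => y ^ 2 / r ^ 2) (f' := fun y : ℝ => 2 * y / r ^ 2) (g := η)
      (fun y _ => by
        have := ((hasDerivAt_pow 2 y).div_const (r ^ 2))
        simpa using this)
      (by fun_prop) hη.smooth.continuous
    simp only [Function.comp_def] at h2
    have h3 : r ^ 2 / r ^ 2 = 1 := by field_simp
    rw [h3] at h2
    have h4 : (0 : ℝ) ^ 2 / r ^ 2 = 0 := by simp
    rw [h4] at h2
    rw [← h2, ← intervalIntegral.integral_const_mul]
    refine intervalIntegral.integral_congr fun y _ => ?_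
    field_simp
  rw [e2, e3, e4]
  field_simp

variable {X : Type} [Countable X] [MeasurableSpace X] [DiscreteMeasurableSpace X]
  {α β : Equiv.Perm X}

open Classical in
/-- indicator of the corner -/
private noncomputable def ic (α β : Equiv.Perm X) (s0 s : X) : ℂ := if cor α β s0 s then 1 else 0

omit [Countable X] [MeasurableSpace X] [DiscreteMeasurableSpace X] in
private theorem tsum_ic {s0 : X} {k : ℕ} (hk : 0 < k) (hs0 : (zeta α β ^ k) s0 = s0)
    (e : Equiv.Perm X) (a : ℂ) : HasSum (fun s => ic α β s0 (e s) * a)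
      (({s | cor α β s0 s}.ncard : ℂ) * a) := by
  have hO := cor_finite hk hs0
  have h1 : HasSum (fun s => ic α β s0 s) (({s | cor α β s0 s}.ncard : ℂ)) := by
    have h2 : HasSum (fun s => ic α β s0 s) (∑ s ∈ hO.toFinset, ic α β s0 s) := by
      refine hasSum_sum_of_ne_finset_zero fun s hs => ?_
      rw [Set.Finite.mem_toFinset] at hs
      have hs' : ¬ cor α β s0 s := hs
      unfold ic
      rw [if_neg hs']
    have h3 : ∑ s ∈ hO.toFinset, ic α β s0 s = ({s | cor α β s0 s}.ncard : ℂ) := by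
      rw [Set.ncard_eq_toFinset_card _ hO, Finset.cast_card]
      refine Finset.sum_congr rfl fun s hs => ?_
      rw [Set.Finite.mem_toFinset] at hs
      have hs' : cor α β s0 s := hs
      unfold ic
      rw [if_pos hs']
    rwa [h3] at h2
  exact ((Equiv.hasSum_iff e).2 h1).mul_right a

omit [Countable X] [MeasurableSpace X] [DiscreteMeasurableSpace X] in
private theorem corner_ic (s0 : X) (ξ : ℝ × ℝ → ℂ) (s : X) (p : ℝ × ℝ) (hp : p ∈ unitSq) :
    cornerFun α β s0 ξ s p = ic α β s0 s * ξ p + ic α β s0 (α s) * ξ (p.1 - 1, p.2) +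
      ic α β s0 (β s) * ξ (p.1, p.2 - 1) + ic α β s0 (β (α s)) * ξ (p.1 - 1, p.2 - 1) := by
  rw [corner_unitSq s0 ξ s p hp.1.1.le hp.1.2 hp.2.1.le hp.2.2]
  unfold ic
  split_ifs <;> simp

private theorem meas_sq : MeasurableSet unitSq := measurableSet_Ioo.prod measurableSet_Ioo

private theorem add4 {Y : Type} [MeasurableSpace Y] {μ : Measure Y} {f g h k : Y → ℂ}
    (hf : Integrable f μ) (hg : Integrable g μ) (hh : Integrable h μ) (hk : Integrable k μ) :
    ∫ x, (f x + g x + h x + k x) ∂μ =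
      (∫ x, f x ∂μ) + (∫ x, g x ∂μ) + (∫ x, h x ∂μ) + ∫ x, k x ∂μ := by
  have h1 : Integrable (fun x => f x + g x) μ := hf.add hg
  have h2 : Integrable (fun x => f x + g x + h x) μ := h1.add hh
  rw [integral_add h2 hk, integral_add h1 hh, integral_add hf hg]

/-- the four quadrants -/
private theorem quad {ξ : ℝ × ℝ → ℂ} (hξ : Continuous ξ)
    (hsupp : ∀ p : ℝ × ℝ, ξ p ≠ 0 → |p.1| < 1 / 2 ∧ |p.2| < 1 / 2) :
    (∫ p in unitSq, ξ p) + (∫ p in unitSq, ξ (p.1 - 1, p.2)) + (∫ p in unitSq, ξ (p.1, p.2 - 1)) +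
      (∫ p in unitSq, ξ (p.1 - 1, p.2 - 1)) = ∫ p, ξ p := by
  have hcs : HasCompactSupport ξ := by
    refine HasCompactSupport.intro (K := Set.Icc (-1 / 2 : ℝ) (1 / 2) ×ˢ Set.Icc (-1 / 2 : ℝ) (1 / 2))
      (isCompact_Icc.prod isCompact_Icc) fun p hp => ?_
    by_contra hne
    obtain ⟨h1, h2⟩ := hsupp p hne
    refine hp ⟨⟨?_, ?_⟩, ⟨?_, ?_⟩⟩
    · linarith [(abs_lt.1 h1).1]
    · linarith [(abs_lt.1 h1).2]
    · linarith [(abs_lt.1 h2).1]
    · linarith [(abs_lt.1 h2).2]
  have hint : Integrable ξ := hξ.integrable_of_hasCompactSupport hcs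
  have hsh : ∀ c : ℝ × ℝ, ∫ p in unitSq, ξ (p - c) =
      ∫ p, unitSq.indicator (fun _ => (1 : ℂ)) (p + c) * ξ p := by
    intro c
    rw [← integral_indicator meas_sq, ← integral_add_right_eq_self _ c]
    refine integral_congr_ae (Filter.Eventually.of_forall fun p => ?_)
    simp only [Set.indicator]
    split_ifs <;> simp
  have hI : ∀ c : ℝ × ℝ, Integrable (fun p => unitSq.indicator (fun _ => (1 : ℂ)) (p + c) * ξ p) := by
    intro c
    refine hint.norm.mono' ?_ (Filter.Eventually.of_forall fun p => ?_)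
    · refine AEStronglyMeasurable.mul ?_ hint.1
      exact ((measurable_const.indicator meas_sq).comp (measurable_id.add_const c)).aestronglyMeasurable
    · rw [norm_mul]
      have : ‖unitSq.indicator (fun _ => (1 : ℂ)) (p + c)‖ ≤ 1 := by
        simp only [Set.indicator]
        split_ifs <;> simp
      calc ‖unitSq.indicator (fun _ => (1 : ℂ)) (p + c)‖ * ‖ξ p‖ ≤ 1 * ‖ξ p‖ :=
            mul_le_mul_of_nonneg_right this (norm_nonneg _)
        _ = ‖ξ p‖ := one_mul _
  have c1 : ∫ p in unitSq, ξ p = ∫ p in unitSq, ξ (p - (0, 0)) := by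
    refine integral_congr_ae (Filter.Eventually.of_forall fun p => ?_)
    simp only
    congr 1
    exact Prod.ext (by simp) (by simp)
  have c2 : ∫ p in unitSq, ξ (p.1 - 1, p.2) = ∫ p in unitSq, ξ (p - (1, 0)) := by
    refine integral_congr_ae (Filter.Eventually.of_forall fun p => ?_)
    simp only
    congr 1
    exact Prod.ext (by simp) (by simp)
  have c3 : ∫ p in unitSq, ξ (p.1, p.2 - 1) = ∫ p in unitSq, ξ (p - (0, 1)) := by
    refine integral_congr_ae (Filter.Eventually.of_forall fun p => ?_)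
    simp only
    congr 1
    exact Prod.ext (by simp) (by simp)
  have c4 : ∫ p in unitSq, ξ (p.1 - 1, p.2 - 1) = ∫ p in unitSq, ξ (p - (1, 1)) := by
    refine integral_congr_ae (Filter.Eventually.of_forall fun p => ?_)
    simp only
    congr 1
  rw [c1, c2, c3, c4, hsh, hsh, hsh, hsh, ← add4 (hI _) (hI _) (hI _) (hI _)]
  have n1 : ∀ᵐ p : ℝ × ℝ, p.1 ≠ 0 := by
    have : (volume : Measure (ℝ × ℝ)) {p : ℝ × ℝ | ¬ p.1 ≠ 0} = 0 := by
      have h : {p : ℝ × ℝ | ¬ p.1 ≠ 0} = ({0} : Set ℝ) ×ˢ Set.univ := by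
        ext p
        simp
      rw [h, Measure.volume_eq_prod, Measure.prod_prod]
      simp
    exact this
  have n2 : ∀ᵐ p : ℝ × ℝ, p.2 ≠ 0 := by
    have : (volume : Measure (ℝ × ℝ)) {p : ℝ × ℝ | ¬ p.2 ≠ 0} = 0 := by
      have h : {p : ℝ × ℝ | ¬ p.2 ≠ 0} = Set.univ ×ˢ ({0} : Set ℝ) := by
        ext p
        simp
      rw [h, Measure.volume_eq_prod, Measure.prod_prod]
      simp
    exact this
  refine integral_congr_ae ?_
  filter_upwards [n1, n2] with p h1 h2
  by_cases hz : ξ p = 0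
  · simp [hz]
  · obtain ⟨s1, s2⟩ := hsupp p hz
    have s1a := (abs_lt.1 s1).1
    have s1b := (abs_lt.1 s1).2
    have s2a := (abs_lt.1 s2).1
    have s2b := (abs_lt.1 s2).2
    have mem : ∀ a b : ℝ, (p + (a, b) ∈ unitSq) ↔
        ((0 < p.1 + a ∧ p.1 + a < 1) ∧ (0 < p.2 + b ∧ p.2 + b < 1)) := fun a b => Iff.rfl
    simp only [Set.indicator, mem, Pi.add_apply]
    rcases lt_or_gt_of_ne h1 with g1 | g1 <;> rcases lt_or_gt_of_ne h2 with g2 | g2
    · rw [if_neg (by rintro ⟨⟨h, -⟩, -⟩; linarith), if_neg (by rintro ⟨-, ⟨h, -⟩⟩; linarith),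
        if_neg (by rintro ⟨⟨h, -⟩, -⟩; linarith),
        if_pos ⟨⟨by linarith, by linarith⟩, ⟨by linarith, by linarith⟩⟩]
      ring
    · rw [if_neg (by rintro ⟨⟨h, -⟩, -⟩; linarith),
        if_pos ⟨⟨by linarith, by linarith⟩, ⟨by linarith, by linarith⟩⟩,
        if_neg (by rintro ⟨⟨h, -⟩, -⟩; linarith), if_neg (by rintro ⟨-, ⟨-, h⟩⟩; linarith)]
      ring
    · rw [if_neg (by rintro ⟨-, ⟨h, -⟩⟩; linarith), if_neg (by rintro ⟨⟨-, h⟩, -⟩; linarith),
        if_pos ⟨⟨by linarith, by linarith⟩, ⟨by linarith, by linarith⟩⟩,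
        if_neg (by rintro ⟨⟨-, h⟩, -⟩; linarith)]
      ring
    · rw [if_pos ⟨⟨by linarith, by linarith⟩, ⟨by linarith, by linarith⟩⟩,
        if_neg (by rintro ⟨⟨-, h⟩, -⟩; linarith), if_neg (by rintro ⟨-, ⟨-, h⟩⟩; linarith),
        if_neg (by rintro ⟨⟨-, h⟩, -⟩; linarith)]
      ring

theorem int_corner {s0 : X} {k : ℕ} (hk : 0 < k) (hs0 : (zeta α β ^ k) s0 = s0)
    {ξ : ℝ × ℝ → ℂ} (hξ : ContDiff ℝ (⊤ : ℕ∞) ξ)
    (hsupp : ∀ p : ℝ × ℝ, ξ p ≠ 0 → |p.1| < 1 / 2 ∧ |p.2| < 1 / 2)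
    {ε : ℝ} (hε : 0 < ε) (hc : ∀ p : ℝ × ℝ, |p.1| < ε → |p.2| < ε → ξ p = ξ 0) :
    ∫ q, fl (cornerFun α β s0 ξ) q ∂(mu X) =
      ({s | cor α β s0 s}.ncard : ℂ) * ∫ p : ℝ × ℝ, ξ p := by
  have hint : Integrable (fl (cornerFun α β s0 ξ)) (mu X) :=
    memLp_one_iff_integrable.1 (nice_memLp (nice_corner s0 hξ hsupp hε hc)
      (finS_corner hk hs0 ξ) 1)
  have h1 := (integral_mu _ hint).2
  have hcont : Continuous ξ := hξ.continuous
  have hon : ∀ c : ℝ × ℝ, IntegrableOn (fun p : ℝ × ℝ => ξ (p - c)) unitSq := by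
    intro c
    have hK : IsCompact (Set.Icc (0 : ℝ) 1 ×ˢ Set.Icc (0 : ℝ) 1) := isCompact_Icc.prod isCompact_Icc
    refine (ContinuousOn.integrableOn_compact hK ?_).mono_set ?_
    · exact (hcont.comp (continuous_id.sub continuous_const)).continuousOn
    · exact Set.prod_mono Set.Ioo_subset_Icc_self Set.Ioo_subset_Icc_self
  have i0 : IntegrableOn ξ unitSq := by
    have := hon (0, 0)
    refine this.congr (Filter.Eventually.of_forall fun p => ?_)
    simp only
    congr 1
    exact Prod.ext (by simp) (by simp)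
  have i1 : IntegrableOn (fun p : ℝ × ℝ => ξ (p.1 - 1, p.2)) unitSq := by
    refine (hon (1, 0)).congr (Filter.Eventually.of_forall fun p => ?_)
    simp only
    congr 1
    exact Prod.ext (by simp) (by simp)
  have i2 : IntegrableOn (fun p : ℝ × ℝ => ξ (p.1, p.2 - 1)) unitSq := by
    refine (hon (0, 1)).congr (Filter.Eventually.of_forall fun p => ?_)
    simp only
    congr 1
    exact Prod.ext (by simp) (by simp)
  have i3 : IntegrableOn (fun p : ℝ × ℝ => ξ (p.1 - 1, p.2 - 1)) unitSq := hon (1, 1)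
  have h2 : ∀ s, ∫ p in unitSq, fl (cornerFun α β s0 ξ) (s, p) =
      ic α β s0 s * (∫ p in unitSq, ξ p) + ic α β s0 (α s) * (∫ p in unitSq, ξ (p.1 - 1, p.2)) +
      ic α β s0 (β s) * (∫ p in unitSq, ξ (p.1, p.2 - 1)) +
      ic α β s0 (β (α s)) * (∫ p in unitSq, ξ (p.1 - 1, p.2 - 1)) := by
    intro s
    rw [← integral_const_mul, ← integral_const_mul, ← integral_const_mul, ← integral_const_mul,
      ← add4 (i0.const_mul _) (i1.const_mul _) (i2.const_mul _) (i3.const_mul _)]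
    refine setIntegral_congr_fun meas_sq fun p hp => ?_
    exact corner_ic s0 ξ s p hp
  have h3 : HasSum (fun s => ∫ p in unitSq, fl (cornerFun α β s0 ξ) (s, p))
      (({s | cor α β s0 s}.ncard : ℂ) * ∫ p : ℝ × ℝ, ξ p) := by
    simp only [h2]
    rw [← quad hcont hsupp, mul_add, mul_add, mul_add]
    exact (((tsum_ic hk hs0 1 _).add (tsum_ic hk hs0 α _)).add (tsum_ic hk hs0 β _)).add
      (tsum_ic hk hs0 (β * α) _)
  exact h1.unique h3

/-- the denominator of `AA` is a positive real number -/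
theorem den_pos {s0 : X} {k : ℕ} (hk : 0 < k) (hs0 : (zeta α β ^ k) s0 = s0) {τ : ℂ} (hτ : τ ∈ HH)
    {r : ℝ} (hr : 0 < r) (hr' : r ≤ rr0 τ) :
    ∃ D : ℝ, 0 < D ∧ ∫ q, fl (cornerFun α β s0 (radF eta0 τ r)) q ∂(mu X) = (D : ℂ) := by
  obtain ⟨h1, ε, hε, h2⟩ := radF_supp prof_eta0 hτ hr hr'
  have h0 : radF eta0 τ r 0 = 0 := h2 0 (by simpa using hε) (by simpa using hε)
  have hI := int_corner (α := α) (β := β) hk hs0 (radF_smooth prof_eta0 τ r)
    (fun p hp => ⟨(h1 p hp).2.1.trans (by norm_num), (h1 p hp).2.2.trans (by norm_num)⟩) hε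
    (fun p a b => by rw [h2 p a b, h0])
  have hτ' : 0 < τ.im := hτ
  have hN : 0 < {s | cor α β s0 s}.ncard := by
    rw [Set.ncard_pos (cor_finite hk hs0)]
    exact ⟨s0, 0, by simp⟩
  have hJ : 0 < ∫ t in (0 : ℝ)..1, eta0 t := by
    refine intervalIntegral.integral_pos (by norm_num) prof_eta0.smooth.continuous.continuousOn
      (fun t _ => (eta0_mem t).1) ⟨1 / 2, ⟨by norm_num, by norm_num⟩, ?_⟩
    exact (eta0_mem (1 / 2)).2.2 (by norm_num) (by norm_num)
  refine ⟨({s | cor α β s0 s}.ncard : ℝ) * (Real.pi * r ^ 2 / τ.im * ∫ t in (0 : ℝ)..1, eta0 t), ?_, ?_⟩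
  · have : (0 : ℝ) < ({s | cor α β s0 s}.ncard : ℝ) := by exact_mod_cast hN
    have hpi := Real.pi_pos
    positivity
  · rw [hI, int_rad prof_eta0 hτ hr]
    push_cast
    rfl

/-- products with the bounded function `F` are integrable -/
theorem integrable_FF_corner (hSG : SG α β) {w : X → ℝ} (hw : InW α β w) {s0 : X} {k : ℕ}
    (hk : 0 < k) (hs0 : (zeta α β ^ k) s0 = s0) {η : ℝ → ℝ} (hη : Prof η) {τ : ℂ} (hτ : τ ∈ HH)
    {r : ℝ} (hr : 0 < r) (hr' : r ≤ rr0 τ) :
    Integrable (fun q => FF α β w τ q * fl (cornerFun α β s0 (radF η τ r)) q) (mu X) := by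
  obtain ⟨C, hC⟩ := hw.bdd
  have hint : Integrable (fl (cornerFun α β s0 (radF η τ r))) (mu X) :=
    memLp_one_iff_integrable.1 (nice_memLp (nice_rad s0 hη hτ hr hr')
      (finS_corner hk hs0 _) 1)
  refine (hint.norm.const_mul C).mono' ((FF_meas hSG hw hτ).1.mul hint.1) ?_
  filter_upwards [FF_bound hSG hw hC hτ] with q hq
  rw [norm_mul]
  exact mul_le_mul_of_nonneg_right hq (norm_nonneg _)

end Pool.Agent.Helper96.OF
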