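import Pool.Agent.Helper80.OF.L0a

/-!
# OFL2-L0r: radial functions

`zt_small`: with z = x + τ y, v = im τ: im z = v y, so |y| ≤ |z|/v, |x| ≤ |z| + |τ||y| ≤ |z| (v + |τ|)/v; |z| < v/(8(1+|τ|)) and v ≤ |τ| give |y| < 1/8, |x| < 1/4.
`eta0`: Real.smoothTransition is smooth, 0 on (-∞,0], positive on (0,∞), ≤ 1, 1 on [1,∞).
`radF_smooth`: normSq (zt τ p) is a polynomial in p. `radF_supp`: η(t) = 0 for t ≥ 1 (|z| ≥ r) and for t ≤ ε0 (|z| small: |z| ≤ |x| + |τ||y|).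
`nice_rad`: nice_corner, corner values `if cor then 0 else 0 = 0` (radF η τ r 0 = η 0 = 0).
-/

set_option autoImplicit false

open MeasureTheory

namespace Pool.Agent.Helper96.OF

variable {X : Type} {α β : Equiv.Perm X}

theorem rr0_pos {τ : ℂ} (hτ : τ ∈ HH) : 0 < rr0 τ := by
  have h : 0 < τ.im := hτ
  unfold rr0
  positivity

private theorem zt_re (τ : ℂ) (p : ℝ × ℝ) : (zt τ p).re = p.1 + τ.re * p.2 := by
  simp [zt]

private theorem zt_im (τ : ℂ) (p : ℝ × ℝ) : (zt τ p).im = τ.im * p.2 := by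
  simp [zt]

theorem zt_small {τ : ℂ} (hτ : τ ∈ HH) {p : ℝ × ℝ} (h : ‖zt τ p‖ < rr0 τ) :
    |p.1| < 1 / 4 ∧ |p.2| < 1 / 4 := by
  have hv : 0 < τ.im := hτ
  have hn : 0 ≤ ‖τ‖ := norm_nonneg τ
  have hvn : τ.im ≤ ‖τ‖ := (le_abs_self _).trans (Complex.abs_im_le_norm τ)
  have hK : 0 < 8 * (1 + ‖τ‖) := by positivity
  have hr : rr0 τ * (8 * (1 + ‖τ‖)) = τ.im := by
    unfold rr0; field_simp
  have h1 : τ.im * |p.2| ≤ ‖zt τ p‖ := by
    have h2 := Complex.abs_im_le_norm (zt τ p)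
    rw [zt_im, abs_mul, abs_of_pos hv] at h2
    exact h2
  have h3 : |p.2| * (8 * (1 + ‖τ‖)) < 1 := by
    have h4 : τ.im * (|p.2| * (8 * (1 + ‖τ‖))) < τ.im * 1 := by
      calc τ.im * (|p.2| * (8 * (1 + ‖τ‖))) = (τ.im * |p.2|) * (8 * (1 + ‖τ‖)) := by ring
        _ ≤ ‖zt τ p‖ * (8 * (1 + ‖τ‖)) := by gcongr
        _ < rr0 τ * (8 * (1 + ‖τ‖)) := by gcongr
        _ = τ.im * 1 := by rw [hr, mul_one]
    exact lt_of_mul_lt_mul_left h4 hv.le
  have hy0 : 0 ≤ |p.2| := abs_nonneg _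
  have hy : |p.2| < 1 / 8 := by nlinarith
  refine ⟨?_, by linarith⟩
  have h5 : |p.1| ≤ ‖zt τ p‖ + ‖τ‖ * |p.2| := by
    have h6 := Complex.abs_re_le_norm (zt τ p)
    rw [zt_re] at h6
    have h7 : |τ.re * p.2| ≤ ‖τ‖ * |p.2| := by
      rw [abs_mul]; exact mul_le_mul_of_nonneg_right (Complex.abs_re_le_norm τ) hy0
    have h8 : |p.1| ≤ |p.1 + τ.re * p.2| + |τ.re * p.2| := by
      have := abs_sub (p.1 + τ.re * p.2) (τ.re * p.2)
      simpa using this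
    linarith
  have h9 : ‖zt τ p‖ * (8 * (1 + ‖τ‖)) < τ.im := by
    rw [← hr]; gcongr
  have h10 : |p.1| * (8 * (1 + ‖τ‖)) < (1 / 4) * (8 * (1 + ‖τ‖)) := by
    have h11 : |p.1| * (8 * (1 + ‖τ‖)) ≤ ‖zt τ p‖ * (8 * (1 + ‖τ‖)) + ‖τ‖ * (|p.2| * (8 * (1 + ‖τ‖))) := by
      nlinarith
    have h12 : ‖τ‖ * (|p.2| * (8 * (1 + ‖τ‖))) ≤ ‖τ‖ * 1 := by gcongr
    linarith
  exact lt_of_mul_lt_mul_right h10 hK.le

theorem prof_eta0 : Prof eta0 := by
  refine ⟨?_, ?_, ⟨1 / 4, by norm_num, ?_⟩⟩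
  · unfold eta0
    exact (Real.smoothTransition.contDiff.comp (by fun_prop)).mul
      (Real.smoothTransition.contDiff.comp (by fun_prop))
  · intro t ht
    unfold eta0
    rw [Real.smoothTransition.zero_of_nonpos (x := 3 - 4 * t) (by linarith), mul_zero]
  · intro t ht
    unfold eta0
    rw [Real.smoothTransition.zero_of_nonpos (x := 4 * t - 1) (by linarith), zero_mul]

theorem eta0_mem (t : ℝ) : 0 ≤ eta0 t ∧ eta0 t ≤ 1 ∧ (1 / 4 < t → t < 3 / 4 → 0 < eta0 t) := by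
  unfold eta0
  refine ⟨mul_nonneg (Real.smoothTransition.nonneg _) (Real.smoothTransition.nonneg _),
    mul_le_one₀ (Real.smoothTransition.le_one _) (Real.smoothTransition.nonneg _)
      (Real.smoothTransition.le_one _), fun h1 h2 => ?_⟩
  exact mul_pos (Real.smoothTransition.pos_of_pos (by linarith))
    (Real.smoothTransition.pos_of_pos (by linarith))

private theorem normSq_zt (τ : ℂ) (p : ℝ × ℝ) :
    Complex.normSq (zt τ p) = (p.1 + τ.re * p.2) * (p.1 + τ.re * p.2) + (τ.im * p.2) * (τ.im * p.2) := by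
  rw [Complex.normSq_apply, zt_re, zt_im]

theorem radF_smooth {η : ℝ → ℝ} (hη : Prof η) (τ : ℂ) (r : ℝ) :
    ContDiff ℝ (⊤ : ℕ∞) (radF η τ r) := by
  have h1 : ContDiff ℝ (⊤ : ℕ∞) (fun p : ℝ × ℝ => Complex.normSq (zt τ p) / r ^ 2) := by
    simp_rw [normSq_zt]
    fun_prop
  have h2 : ContDiff ℝ (⊤ : ℕ∞) (fun p : ℝ × ℝ => η (Complex.normSq (zt τ p) / r ^ 2)) :=
    hη.smooth.comp h1
  exact Complex.ofRealCLM.contDiff.comp h2

/-- support of a radial function -/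
theorem radF_supp {η : ℝ → ℝ} (hη : Prof η) {τ : ℂ} (hτ : τ ∈ HH) {r : ℝ} (hr : 0 < r)
    (hr' : r ≤ rr0 τ) : (∀ p : ℝ × ℝ, radF η τ r p ≠ 0 → ‖zt τ p‖ < r ∧ |p.1| < 1 / 4 ∧ |p.2| < 1 / 4) ∧
    ∃ ε : ℝ, 0 < ε ∧ ∀ p : ℝ × ℝ, |p.1| < ε → |p.2| < ε → radF η τ r p = 0 := by
  constructor
  · intro p hp
    have h1 : ‖zt τ p‖ < r := by
      by_contra hcon
      push Not at hcon
      apply hp
      unfold radF
      rw [hη.zero, Complex.ofReal_zero]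
      rw [le_div_iff₀ (by positivity), one_mul, Complex.normSq_eq_norm_sq]
      gcongr
    exact ⟨h1, zt_small hτ (lt_of_lt_of_le h1 hr')⟩
  · obtain ⟨e, he, hz⟩ := hη.zero'
    have hc : ContinuousAt (fun p : ℝ × ℝ => Complex.normSq (zt τ p) / r ^ 2) 0 := by
      simp_rw [normSq_zt]
      fun_prop
    have h0 : Complex.normSq (zt τ 0) / r ^ 2 = 0 := by
      simp [zt]
    have hev : ∀ᶠ p : ℝ × ℝ in nhds 0, Complex.normSq (zt τ p) / r ^ 2 < e := by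
      have h3 : Filter.Tendsto (fun p : ℝ × ℝ => Complex.normSq (zt τ p) / r ^ 2) (nhds 0) (nhds 0) := by
        have := hc.tendsto
        rwa [h0] at this
      exact h3.eventually_lt_const he
    obtain ⟨ε, hε, hball⟩ := Metric.eventually_nhds_iff.1 hev
    refine ⟨ε, hε, fun p h1 h2 => ?_⟩
    unfold radF
    rw [hz _ (le_of_lt (hball ?_)), Complex.ofReal_zero]
    rw [Prod.dist_eq, max_lt_iff]
    exact ⟨by simpa [Real.dist_eq] using h1, by simpa [Real.dist_eq] using h2⟩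

theorem nice_rad (s0 : X) {η : ℝ → ℝ} (hη : Prof η) {τ : ℂ} (hτ : τ ∈ HH) {r : ℝ} (hr : 0 < r)
    (hr' : r ≤ rr0 τ) : Nice α β (cornerFun α β s0 (radF η τ r)) (fun _ => 0) := by
  obtain ⟨h1, ε, hε, h2⟩ := radF_supp hη hτ hr hr'
  have h0 : radF η τ r 0 = 0 := h2 0 (by simpa using hε) (by simpa using hε)
  have h3 := nice_corner (α := α) (β := β) s0 (radF_smooth hη τ r)
    (fun p hp => ⟨by have := (h1 p hp).2.1; linarith, by have := (h1 p hp).2.2; linarith⟩) hε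
    (fun p hp1 hp2 => by rw [h2 p hp1 hp2, h0])
  simpa [h0] using h3

end Pool.Agent.Helper96.OF
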