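import Pool.Agent.Helper80.OF.L0b
import Pool.Agent.Helper80.OF.RL

/-!
# OFL2-L2d: relabelling and the limit along infinitely many translates

`cor_relabel`: θ intertwines zeta. `corner_relabel`: ext and the four terms: `θ (α^k s) = α'^k (θ s)`. `AA_iso`: RL relabel_eq (FF a.e.), int over (θ q.1, q.2): integral_map with rlT_mp, for numerator and denominator
(the functions are a.e. strongly measurable: nice_rad + nice_meas, FF_meas).
`AA_lim`: let cf_n = cornerFun α β (φ^n s0) (radF eta0 τ (rr0 τ)). FF = fl Φ + (sol 0) by definition. On the support of cf_n in the open unit squares |coordinates| < 1/4 of a corner of the orbit of φ^n s0, where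
Φ = w(corner) (FT7 Phi_corner) = w (φ^n s0) (w is ζ-invariant along the orbit). So `∫ FF cf_n = w(φ^n s0) ∫ cf_n + ∫ (sol 0) cf_n`. With Θ = rlT (φ^n): cf_n ∘ Θ = cf_0 (corner_relabel with θ = φ^n, α' = α, β' = β) and
rlT_mp: `∫ cf_n = ∫ cf_0 =: D > 0` (den_pos) and `∫ ψ cf_n = ∫ ψ(φ^n s, p) cf_0(s,p) = ∑_{s ∈ S} ∫_{unitSq} ψ(φ^n s,p) cf_0(s,p) dp` (finite S = support of cf_0, 0 ≤ cf_0 ≤ 4, ψ = sol 0 ∈ L²);
`|∫_{unitSq} ψ(φ^n s,p) cf_0| ≤ 4 (∫_{unitSq} |ψ(φ^n s,·)|²)^{1/2} → 0` because `∑_x ∫_{unitSq} |ψ(x,·)|² < ∞` and n ↦ φ^n s is injective (hinf). Hence `AA(φ^n s0) - w(φ^n s0) = Re (∫ ψ cf_n)/D → 0`.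
-/

set_option autoImplicit false
set_option linter.unusedSectionVars false

open MeasureTheory Filter Topology

namespace Pool.Agent.Helper96.OF

variable {X : Type} {α β α' β' : Equiv.Perm X} {θ : Equiv.Perm X}

private lemma l2d_app (h1 : θ * α = α' * θ) (s : X) : θ (α s) = α' (θ s) := by
  have := congrArg (fun e : Equiv.Perm X => e s) h1
  simpa using this

private lemma l2d_zpow (h1 : θ * α = α' * θ) (k : ℤ) (s : X) :
    θ ((α ^ k) s) = (α' ^ k) (θ s) := by
  have h : α' = θ * α * θ⁻¹ := by rw [h1]; group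
  rw [h, conj_zpow]
  simp

private lemma l2d_zeta (h1 : θ * α = α' * θ) (h2 : θ * β = β' * θ) :
    θ * zeta α β = zeta α' β' * θ := by
  have ha : α' = θ * α * θ⁻¹ := by rw [h1]; group
  have hb : β' = θ * β * θ⁻¹ := by rw [h2]; group
  rw [ha, hb]
  unfold zeta
  group

theorem cor_relabel (h1 : θ * α = α' * θ) (h2 : θ * β = β' * θ) (s0 s : X) :
    cor α β s0 s ↔ cor α' β' (θ s0) (θ s) := by
  have hz := l2d_zeta h1 h2
  constructor
  · rintro ⟨n, hn⟩
    exact ⟨n, by rw [← hn, l2d_zpow hz]⟩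
  · rintro ⟨n, hn⟩
    refine ⟨n, θ.injective ?_⟩
    rw [l2d_zpow hz, hn]

theorem corner_relabel (h1 : θ * α = α' * θ) (h2 : θ * β = β' * θ) (s0 : X) (ξ : ℝ × ℝ → ℂ)
    (s : X) (p : ℝ × ℝ) : cornerFun α β s0 ξ s p = cornerFun α' β' (θ s0) ξ (θ s) p := by
  have e : (α' ^ ⌊p.1⌋) ((β' ^ ⌊p.2⌋) (θ s)) = θ ((α ^ ⌊p.1⌋) ((β ^ ⌊p.2⌋) s)) := by
    rw [l2d_zpow h1, l2d_zpow h2]
  have hif : ∀ (t : X) (z : ℂ), (open Classical in if cor α β s0 t then z else 0) =
      (open Classical in if cor α' β' (θ s0) (θ t) then z else 0) := by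
    intro t z
    by_cases h : cor α β s0 t
    · rw [if_pos h, if_pos ((cor_relabel h1 h2 s0 t).1 h)]
    · rw [if_neg h, if_neg fun h' => h ((cor_relabel h1 h2 s0 t).2 h')]
  simp only [cornerFun, ext]
  rw [e, hif, hif, hif, hif, l2d_app h1, l2d_app h2, l2d_app h2, l2d_app h1]

variable [Countable X] [MeasurableSpace X] [DiscreteMeasurableSpace X]

private lemma l2d_emb (θ : Equiv.Perm X) : MeasurableEmbedding (rlT θ) := by
  let E : Sq X ≃ᵐ Sq X :=
    { toFun := rlT θ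
      invFun := rlT θ⁻¹
      left_inv := fun q => by simp [rlT]
      right_inv := fun q => by simp [rlT]
      measurable_toFun := (rlT_mp θ).measurable
      measurable_invFun := (rlT_mp θ⁻¹).measurable }
  exact E.measurableEmbedding

theorem AA_iso (hSG : SG α β) (hSG' : SG α' β') (h1 : θ * α = α' * θ) (h2 : θ * β = β' * θ)
    (s0 : X) {w : X → ℝ} (hw : InW α' β' w) {τ : ℂ} (hτ : τ ∈ HH) :
    AA α β s0 (fun x => w (θ x)) τ = AA α' β' (θ s0) w τ := by
  have hF := (relabel_eq h1 h2 hSG hSG' hw hτ).2.1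
  have hc : ∀ q, fl (cornerFun α β s0 (radF eta0 τ (rr0 τ))) q =
      fl (cornerFun α' β' (θ s0) (radF eta0 τ (rr0 τ))) (rlT θ q) := fun q =>
    corner_relabel h1 h2 s0 _ q.1 q.2
  have e1 : ∫ q, FF α β (fun x => w (θ x)) τ q * fl (cornerFun α β s0 (radF eta0 τ (rr0 τ))) q ∂(mu X) =
      ∫ q, FF α' β' w τ q * fl (cornerFun α' β' (θ s0) (radF eta0 τ (rr0 τ))) q ∂(mu X) := by
    rw [← (rlT_mp θ).integral_comp (l2d_emb θ)
      (fun q => FF α' β' w τ q * fl (cornerFun α' β' (θ s0) (radF eta0 τ (rr0 τ))) q)]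
    refine integral_congr_ae ?_
    filter_upwards [hF] with q hq
    rw [hq, hc]
  have e2 : ∫ q, fl (cornerFun α β s0 (radF eta0 τ (rr0 τ))) q ∂(mu X) =
      ∫ q, fl (cornerFun α' β' (θ s0) (radF eta0 τ (rr0 τ))) q ∂(mu X) := by
    rw [← (rlT_mp θ).integral_comp (l2d_emb θ)
      (fun q => fl (cornerFun α' β' (θ s0) (radF eta0 τ (rr0 τ))) q)]
    exact integral_congr_ae (Eventually.of_forall hc)
  rw [AA, AA, e1, e2]

private lemma l2d_inv {w : X → ℝ} (hw : ∀ x, w (zeta α β x) = w x) {s0 s : X}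
    (h : cor α β s0 s) : w s = w s0 := by
  have hn : ∀ (n : ℕ) (x : X), w ((zeta α β ^ n) x) = w x := by
    intro n
    induction n with
    | zero => intro x; simp
    | succ n ih =>
      intro x
      rw [pow_succ', Equiv.Perm.mul_apply, hw, ih]
  obtain ⟨m, hm⟩ := h
  rcases Int.eq_nat_or_neg m with ⟨n, rfl | rfl⟩
  · rw [zpow_natCast] at hm
    rw [← hm, hn]
  · have h2 : (zeta α β ^ n) s = s0 := by
      rw [← hm, zpow_neg, zpow_natCast]
      simp
    rw [← h2, hn]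

/-- the interpolation is constant on the support of the corner function -/
private lemma l2d_phi {w : X → ℝ} (hw : InW α β w) (s0 : X) {τ : ℂ} (hτ : τ ∈ HH) (s : X)
    (p : ℝ × ℝ) (hp : p ∈ unitSq) :
    Phi α β (toC w) s p * cornerFun α β s0 (radF eta0 τ (rr0 τ)) s p =
      (w s0 : ℂ) * cornerFun α β s0 (radF eta0 τ (rr0 τ)) s p := by
  have hx0 : 0 < p.1 := hp.1.1
  have hx1 : p.1 < 1 := hp.1.2
  have hy0 : 0 < p.2 := hp.2.1
  have hy1 : p.2 < 1 := hp.2.2
  have hinv : ∀ s, toC w (zeta α β s) = toC w s := fun s => by simp [toC, hw.inv]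
  have hsup := (radF_supp prof_eta0 hτ (rr0_pos hτ) le_rfl).1
  have hww : ∀ t, cor α β s0 t → toC w t = (w s0 : ℂ) := fun t ht => by
    simp [toC, l2d_inv hw.inv ht]
  rw [corner_unitSq s0 _ s p hx0.le hx1 hy0.le hy1, mul_add, mul_add, mul_add, mul_add, mul_add,
    mul_add]
  have key : ∀ (t : X) (z : ℝ × ℝ), (radF eta0 τ (rr0 τ) z ≠ 0 → Phi α β (toC w) s p = toC w t) →
      Phi α β (toC w) s p * (open Classical in if cor α β s0 t then radF eta0 τ (rr0 τ) z else 0) =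
      (w s0 : ℂ) * (open Classical in if cor α β s0 t then radF eta0 τ (rr0 τ) z else 0) := by
    intro t z h
    by_cases hc : cor α β s0 t
    · rw [if_pos hc]
      by_cases h0 : radF eta0 τ (rr0 τ) z = 0
      · rw [h0, mul_zero, mul_zero]
      · rw [h h0, hww t hc]
    · rw [if_neg hc, mul_zero, mul_zero]
  have k1 := key s p (fun h => by
    obtain ⟨-, h1, h2⟩ := hsup _ h
    rw [abs_of_pos hx0] at h1
    rw [abs_of_pos hy0] at h2
    exact (Phi_corner hinv s p.1 p.2 hx0 (by linarith) hy0 (by linarith)).1)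
  have k2 := key (α s) (p.1 - 1, p.2) (fun h => by
    obtain ⟨-, h1, h2⟩ := hsup _ h
    simp only at h1 h2
    rw [abs_of_neg (by linarith)] at h1
    rw [abs_of_pos hy0] at h2
    have := (Phi_corner hinv s (1 - p.1) p.2 (by linarith) (by linarith) hy0 (by linarith)).2.1
    rwa [sub_sub_cancel] at this)
  have k3 := key (β s) (p.1, p.2 - 1) (fun h => by
    obtain ⟨-, h1, h2⟩ := hsup _ h
    simp only at h1 h2
    rw [abs_of_pos hx0] at h1
    rw [abs_of_neg (by linarith)] at h2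
    have := (Phi_corner hinv s p.1 (1 - p.2) hx0 (by linarith) (by linarith) (by linarith)).2.2.1
    rwa [sub_sub_cancel] at this)
  have k4 := key (β (α s)) (p.1 - 1, p.2 - 1) (fun h => by
    obtain ⟨-, h1, h2⟩ := hsup _ h
    simp only at h1 h2
    rw [abs_of_neg (by linarith)] at h1
    rw [abs_of_neg (by linarith)] at h2
    have := (Phi_corner hinv s (1 - p.1) (1 - p.2) (by linarith) (by linarith) (by linarith)
      (by linarith)).2.2.2
    rwa [sub_sub_cancel, sub_sub_cancel] at this)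
  rw [k1, k2, k3, k4]

/-- Cauchy-Schwarz -/
private lemma l2d_cs {ψ c : Sq X → ℂ} (hψ : MemLp ψ 2 (mu X)) (hc : MemLp c 2 (mu X)) :
    ∫ q, ‖ψ q‖ * ‖c q‖ ∂(mu X) ≤ Real.sqrt (∫ q, ‖ψ q‖ ^ 2 ∂(mu X)) *
      Real.sqrt (∫ q, ‖c q‖ ^ 2 ∂(mu X)) := by
  have h := integral_mul_norm_le_Lp_mul_Lq (μ := mu X) (f := ψ) (g := c)
    (Real.HolderConjugate.two_two) (by simpa using hψ) (by simpa using hc)
  rw [Real.sqrt_eq_rpow, Real.sqrt_eq_rpow]
  simpa using h

theorem AA_lim (hSG : SG α β) {s0 : X} {k : ℕ} (hk : 0 < k) (hs0 : (zeta α β ^ k) s0 = s0)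
    (φ : Equiv.Perm X) (h1 : φ * α = α * φ) (h2 : φ * β = β * φ)
    (hinf : ∀ (x : X) (n : ℕ), 0 < n → (φ ^ n) x ≠ x) {w : X → ℝ} (hw : InW α β w) {τ : ℂ}
    (hτ : τ ∈ HH) :
    Tendsto (fun n : ℕ => AA α β ((φ ^ n) s0) w τ - w ((φ ^ n) s0)) atTop (𝓝 0) := by
  classical
  set R : ℝ × ℝ → ℂ := radF eta0 τ (rr0 τ) with hR
  set ψ : Sq X → ℂ := (sol α β w τ 0 : Sq X → ℂ) with hψdef
  have hψ : MemLp ψ 2 (mu X) := Lp.memLp _
  have hφ1 : ∀ n : ℕ, (φ ^ n) * α = α * φ ^ n := fun n => (Commute.pow_left (show Commute φ α from h1) n).eq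
  have hφ2 : ∀ n : ℕ, (φ ^ n) * β = β * φ ^ n := fun n => (Commute.pow_left (show Commute φ β from h2) n).eq
  set c : ℕ → Sq X → ℂ := fun n => fl (cornerFun α β ((φ ^ n) s0) R) with hc
  have hfix : ∀ n : ℕ, (zeta α β ^ k) ((φ ^ n) s0) = (φ ^ n) s0 := by
    intro n
    have h := l2d_zpow (l2d_zeta (hφ1 n) (hφ2 n)) (k : ℤ) s0
    rw [zpow_natCast] at h
    rw [← h, hs0]
  have hrel : ∀ n q, c 0 q = c n (rlT (φ ^ n) q) := by
    intro n q
    have := corner_relabel (hφ1 n) (hφ2 n) s0 R q.1 q.2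
    simpa [hc, fl, rlT] using this
  have hmem : ∀ (n : ℕ) (r : ENNReal), MemLp (c n) r (mu X) := fun n r =>
    nice_memLp (nice_rad ((φ ^ n) s0) prof_eta0 hτ (rr0_pos hτ) le_rfl) (finS_corner hk (hfix n) R) r
  -- the denominator
  obtain ⟨D, hD, hDe⟩ := den_pos (α := α) (β := β) hk hs0 hτ (rr0_pos hτ) le_rfl
  have hden : ∀ n, ∫ q, c n q ∂(mu X) = (D : ℂ) := by
    intro n
    rw [← (rlT_mp (φ ^ n)).integral_comp (l2d_emb (φ ^ n)) (c n), ← hDe]
    refine integral_congr_ae (Eventually.of_forall fun q => ?_)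
    show c n (rlT (φ ^ n) q) = fl (cornerFun α β s0 R) q
    rw [← hrel n q]
    simp [hc]
  have hsqc : ∀ n, ∫ q, ‖c n q‖ ^ 2 ∂(mu X) = ∫ q, ‖c 0 q‖ ^ 2 ∂(mu X) := by
    intro n
    rw [← (rlT_mp (φ ^ n)).integral_comp (l2d_emb (φ ^ n)) (fun q => ‖c n q‖ ^ 2)]
    refine integral_congr_ae (Eventually.of_forall fun q => ?_)
    show ‖c n (rlT (φ ^ n) q)‖ ^ 2 = ‖c 0 q‖ ^ 2
    rw [← hrel n q]
  -- the numerator
  have hint1 : ∀ n, Integrable (fun q => ψ q * c n q) (mu X) := fun n => hψ.integrable_mul (hmem n 2)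
  have hint2 : ∀ n, Integrable (c n) (mu X) := fun n => memLp_one_iff_integrable.1 (hmem n 1)
  have hnum : ∀ n, ∫ q, FF α β w τ q * c n q ∂(mu X) =
      (w ((φ ^ n) s0) : ℂ) * D + ∫ q, ψ q * c n q ∂(mu X) := by
    intro n
    rw [← hden n, ← integral_const_mul, ← integral_add ((hint2 n).const_mul _) (hint1 n)]
    refine integral_congr_ae ?_
    have h3 : ∀ᵐ q ∂(mu X), fl (Phi α β (toC w)) q * c n q = (w ((φ ^ n) s0) : ℂ) * c n q :=
      ae_mu_of _ fun s p hp => l2d_phi hw ((φ ^ n) s0) hτ s p hp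
    filter_upwards [h3] with q hq
    rw [FF, add_mul, hq]
  have hAA : ∀ n, AA α β ((φ ^ n) s0) w τ - w ((φ ^ n) s0) = (∫ q, ψ q * c n q ∂(mu X)).re / D := by
    intro n
    have h3 : AA α β ((φ ^ n) s0) w τ = ((∫ q, FF α β w τ q * c n q ∂(mu X)) /
        (∫ q, c n q ∂(mu X))).re := rfl
    rw [h3, hnum, hden, Complex.div_ofReal_re, Complex.add_re, Complex.mul_re, Complex.ofReal_re,
      Complex.ofReal_re, Complex.ofReal_im, zero_mul, sub_zero]
    field_simp
    ring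
  -- the error term
  obtain ⟨S, hS⟩ := finS_corner (α := α) (β := β) hk hs0 R
  set g : ℕ → Sq X → ℂ := fun n => {q : Sq X | (φ ^ n)⁻¹ q.1 ∈ S}.indicator ψ with hg
  have hmeas : ∀ n, MeasurableSet {q : Sq X | (φ ^ n)⁻¹ q.1 ∈ S} := fun n =>
    measurable_fst (MeasurableSet.of_discrete (s := {x : X | (φ ^ n)⁻¹ x ∈ S}))
  have hgm : ∀ n, MemLp (g n) 2 (mu X) := fun n => hψ.indicator (hmeas n)
  have hgc : ∀ n, ∀ᵐ q ∂(mu X), ψ q * c n q = g n q * c n q := by
    intro n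
    refine ae_mu_of _ fun s p hp => ?_
    by_cases h : (φ ^ n)⁻¹ s ∈ S
    · simp only [hg]
      rw [Set.indicator_of_mem (show (s, p) ∈ {q : Sq X | (φ ^ n)⁻¹ q.1 ∈ S} from h)]
    · have h3 : c n (s, p) = 0 := by
        have h4 := hrel n ((φ ^ n)⁻¹ s, p)
        have h5 : rlT (φ ^ n) ((φ ^ n)⁻¹ s, p) = (s, p) := by simp [rlT]
        rw [h5] at h4
        rw [← h4]
        have h6 := hS _ h p hp
        simpa [hc, fl] using h6
      rw [h3, mul_zero, mul_zero]
  have hbound : ∀ n, ‖∫ q, ψ q * c n q ∂(mu X)‖ ≤ Real.sqrt (∫ q, ‖g n q‖ ^ 2 ∂(mu X)) *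
      Real.sqrt (∫ q, ‖c 0 q‖ ^ 2 ∂(mu X)) := by
    intro n
    rw [integral_congr_ae (hgc n)]
    refine (norm_integral_le_integral_norm _).trans ?_
    simp only [norm_mul]
    rw [← hsqc n]
    exact l2d_cs (hgm n) (hmem n 2)
  have hzero : Tendsto (fun n => ∫ q, ‖g n q‖ ^ 2 ∂(mu X)) atTop (𝓝 0) := by
    have h3 := tendsto_integral_of_dominated_convergence (μ := mu X) (F := fun n q => ‖g n q‖ ^ 2)
      (f := fun _ => (0 : ℝ)) (fun q => ‖ψ q‖ ^ 2)
      (fun n => ((hgm n).1.norm.pow 2)) ((memLp_two_iff_integrable_sq_norm hψ.1).1 hψ)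
      (fun n => Eventually.of_forall fun q => by
        rw [Real.norm_eq_abs, abs_of_nonneg (sq_nonneg _)]
        refine pow_le_pow_left₀ (norm_nonneg _) ?_ 2
        simp only [hg]
        exact norm_indicator_le_norm_self _ _)
      (Eventually.of_forall fun q => by
        have hinj : Function.Injective fun n : ℕ => (φ ^ n)⁻¹ q.1 := by
          have key : ∀ a b : ℕ, a < b → (φ ^ a)⁻¹ q.1 ≠ (φ ^ b)⁻¹ q.1 := by
            intro a b hab he
            have h4 : (φ ^ b) ((φ ^ a)⁻¹ q.1) = q.1 := by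
              rw [he]
              simp
            obtain ⟨d, rfl⟩ := Nat.exists_eq_add_of_lt hab
            have h5 : φ ^ (a + d + 1) = φ ^ (d + 1) * φ ^ a := by
              rw [← pow_add]
              congr 1
              omega
            rw [h5, Equiv.Perm.mul_apply] at h4
            rw [show (φ ^ a) ((φ ^ a)⁻¹ q.1) = q.1 from by simp] at h4
            exact hinf q.1 (d + 1) (by omega) h4
          intro a b he
          rcases lt_trichotomy a b with h | h | h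
          · exact absurd he (key a b h)
          · exact h
          · exact absurd he.symm (key b a h)
        have hfin : Set.Finite {n : ℕ | (φ ^ n)⁻¹ q.1 ∈ S} :=
          Set.Finite.preimage hinj.injOn S.finite_toSet
        have hev : ∀ᶠ n : ℕ in atTop, (φ ^ n)⁻¹ q.1 ∉ S := by
          rw [← Nat.cofinite_eq_atTop]
          exact hfin.eventually_cofinite_notMem
        refine tendsto_const_nhds.congr' ?_
        filter_upwards [hev] with n hn
        simp only [hg]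
        rw [Set.indicator_of_notMem (show q ∉ {q : Sq X | (φ ^ n)⁻¹ q.1 ∈ S} from hn)]
        simp)
    simpa using h3
  have hE : Tendsto (fun n => ∫ q, ψ q * c n q ∂(mu X)) atTop (𝓝 0) := by
    refine squeeze_zero_norm hbound ?_
    have h4 := (hzero.sqrt).mul_const (Real.sqrt (∫ q, ‖c 0 q‖ ^ 2 ∂(mu X)))
    simpa using h4
  have hfin : Tendsto (fun n => (∫ q, ψ q * c n q ∂(mu X)).re / D) atTop (𝓝 0) := by
    have h4 := ((Complex.continuous_re.tendsto 0).comp hE).div_const D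
    simpa using h4
  exact hfin.congr fun n => (hAA n).symm

end Pool.Agent.Helper96.OF
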