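import Pool.Agent.Helper80.OF.L1
import Pool.Agent.Helper80.OF.RF2

/-!
# OFL2-L2r: `AA` is invariant under the reflection

τ' = 1 / conj τ, `zt τ' (y, x) = y + x/conj τ`, so `|zt τ' (y,x)|² = |x + τ y|²/|τ|²` and `radF η τ' (r/|τ|) (y,x) = radF η τ r (x,y)`.
`cor_swap`: zeta β α = (zeta α β)⁻¹ (RF1 zeta_swap). `corner_refl`: on the open unit square, corner_unitSq for both, terms 2 and 3 are exchanged, `cor (β (α s)) ↔ cor (α (β s))` (L0a cor_comm).
`AA_refl`: RF2 refl_eq (FF α β w τ = FF β α w τ' ∘ rfT a.e.), invariance of the integral (integral_map, rfT_mp), L1 mean_value on both sides with η = eta0, radius r resp. r/|τ|, r small, den_pos: divide.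
-/

set_option autoImplicit false

open MeasureTheory
open scoped ComplexConjugate

namespace Pool.Agent.Helper96.OF

variable {X : Type} {α β : Equiv.Perm X}

private theorem l2r_half {s0 s : X} (h : cor α β s0 s) : cor β α s0 s := by
  obtain ⟨n, hn⟩ := h
  refine ⟨-n, ?_⟩
  rw [zeta_swap α β, inv_zpow', neg_neg]
  exact hn

theorem cor_swap (s0 s : X) : cor β α s0 s ↔ cor α β s0 s :=
  ⟨l2r_half, l2r_half⟩

private theorem l2r_radF (η : ℝ → ℝ) {τ : ℂ} (hτ : τ ∈ HH) {r : ℝ} (hr : 0 < r) (x y : ℝ) :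
    radF η (1 / conj τ) (r / ‖τ‖) (y, x) = radF η τ r (x, y) := by
  have h : 0 < τ.im := hτ
  have h0 : τ ≠ 0 := by
    rintro rfl
    simp at h
  have hc0 : conj τ ≠ 0 := (map_ne_zero _).2 h0
  have hn : ‖τ‖ ≠ 0 := norm_ne_zero_iff.2 h0
  unfold radF
  have e1 : zt (1 / conj τ) (y, x) = conj (zt τ (x, y)) / conj τ := by
    simp only [zt, map_add, map_mul, Complex.conj_ofReal]
    field_simp
    ring
  have e2 : Complex.normSq (zt (1 / conj τ) (y, x)) / (r / ‖τ‖) ^ 2 =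
      Complex.normSq (zt τ (x, y)) / r ^ 2 := by
    rw [e1, map_div₀, Complex.normSq_conj, Complex.normSq_conj, Complex.normSq_eq_norm_sq τ]
    have hr0 : r ≠ 0 := hr.ne'
    field_simp
  rw [e2]

theorem corner_refl (s0 : X) (η : ℝ → ℝ) {τ : ℂ} (hτ : τ ∈ HH) {r : ℝ} (hr : 0 < r)
    (s : X) (p : ℝ × ℝ) (hp : p ∈ unitSq) :
    cornerFun α β s0 (radF η τ r) s p =
      fl (cornerFun β α s0 (radF η (1 / conj τ) (r / ‖τ‖))) (rfT (s, p)) := by
  classical
  obtain ⟨x, y⟩ := p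
  obtain ⟨⟨hx0, hx1⟩, ⟨hy0, hy1⟩⟩ := hp
  simp only at hx0 hx1 hy0 hy1
  show _ = cornerFun β α s0 (radF η (1 / conj τ) (r / ‖τ‖)) s (y, x)
  rw [corner_unitSq s0 _ s (x, y) hx0.le hx1 hy0.le hy1,
    corner_unitSq s0 _ s (y, x) hy0.le hy1 hx0.le hx1]
  have c1 : ∀ t : X, cor β α s0 t = cor α β s0 t := fun t => propext (cor_swap s0 t)
  have c2 : cor α β s0 (α (β s)) = cor α β s0 (β (α s)) := propext cor_comm.symm
  simp only [c1, c2, l2r_radF η hτ hr]
  ring

variable [Countable X] [MeasurableSpace X] [DiscreteMeasurableSpace X]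

private theorem l2r_emb : MeasurableEmbedding (rfT (X := X)) := by
  have hinv : Function.Involutive (rfT (X := X)) := fun q => rfl
  exact (MeasurableEquiv.mk hinv.toPerm rfT_mp.measurable rfT_mp.measurable).measurableEmbedding

theorem AA_refl (hSG : SG α β) (hSG' : SG β α) {w : X → ℝ} (hw : InW α β w) {s0 : X} {k : ℕ}
    (hk : 0 < k) (hs0 : (zeta α β ^ k) s0 = s0) {τ : ℂ} (hτ : τ ∈ HH) :
    AA α β s0 w τ = AA β α s0 w (1 / conj τ) := by
  have hw' : InW β α w := inW_swap hw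
  have hτ' : 1 / conj τ ∈ HH := inv_conj_mem_HH hτ
  have h : 0 < τ.im := hτ
  have h0 : τ ≠ 0 := by
    rintro rfl
    simp at h
  have hn : 0 < ‖τ‖ := norm_pos_iff.2 h0
  have hs0' : (zeta β α ^ k) s0 = s0 := by
    rw [zeta_swap α β, inv_pow, Equiv.Perm.inv_eq_iff_eq]
    exact hs0.symm
  set r : ℝ := min (rr0 τ) (‖τ‖ * rr0 (1 / conj τ)) with hrdef
  have hr : 0 < r := lt_min (rr0_pos hτ) (mul_pos hn (rr0_pos hτ'))
  have hr1 : r ≤ rr0 τ := min_le_left _ _
  have hr2 : r / ‖τ‖ ≤ rr0 (1 / conj τ) := by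
    rw [div_le_iff₀ hn, mul_comm]
    exact min_le_right _ _
  have m1 := mean_value hSG hw hk hs0 prof_eta0 hτ hr hr1
  have m2 := mean_value hSG' hw' hk hs0' prof_eta0 hτ' (div_pos hr hn) hr2
  obtain ⟨D, hD, hDe⟩ := den_pos hk hs0 hτ hr hr1
  obtain ⟨-, hF, -⟩ := refl_eq hSG hSG' hw hτ
  have hC : ∀ᵐ q ∂(mu X), fl (cornerFun α β s0 (radF eta0 τ r)) q =
      fl (cornerFun β α s0 (radF eta0 (1 / conj τ) (r / ‖τ‖))) (rfT q) := by
    refine ae_mu_of (fun q => fl (cornerFun α β s0 (radF eta0 τ r)) q =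
      fl (cornerFun β α s0 (radF eta0 (1 / conj τ) (r / ‖τ‖))) (rfT q)) ?_
    intro s p hp
    exact corner_refl s0 eta0 hτ hr s p hp
  have i1 : ∫ q, fl (cornerFun α β s0 (radF eta0 τ r)) q ∂(mu X) =
      ∫ q, fl (cornerFun β α s0 (radF eta0 (1 / conj τ) (r / ‖τ‖))) q ∂(mu X) := by
    rw [integral_congr_ae hC]
    exact (rfT_mp (X := X)).integral_comp l2r_emb
      (fl (cornerFun β α s0 (radF eta0 (1 / conj τ) (r / ‖τ‖))))
  have i2 : ∫ q, FF α β w τ q * fl (cornerFun α β s0 (radF eta0 τ r)) q ∂(mu X) =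
      ∫ q, FF β α w (1 / conj τ) q *
        fl (cornerFun β α s0 (radF eta0 (1 / conj τ) (r / ‖τ‖))) q ∂(mu X) := by
    have e : ∀ᵐ q ∂(mu X), FF α β w τ q * fl (cornerFun α β s0 (radF eta0 τ r)) q =
        (fun q => FF β α w (1 / conj τ) q *
          fl (cornerFun β α s0 (radF eta0 (1 / conj τ) (r / ‖τ‖))) q) (rfT q) := by
      filter_upwards [hF, hC] with q a b
      rw [a, b]
    rw [integral_congr_ae e]
    exact (rfT_mp (X := X)).integral_comp l2r_emb (fun q => FF β α w (1 / conj τ) q *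
          fl (cornerFun β α s0 (radF eta0 (1 / conj τ) (r / ‖τ‖))) q)
  rw [i2, m2, ← i1, hDe] at m1
  have hDc : (D : ℂ) ≠ 0 := by exact_mod_cast hD.ne'
  have m3 := mul_right_cancel₀ hDc m1
  exact_mod_cast m3.symm

end Pool.Agent.Helper96.OF
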