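import Pool.Agent.Helper80.OF.L1
import Pool.Agent.Helper80.OF.SH5

/-!
# OFL2-L2s: `AA` is invariant under the shear

Let β' = β α⁻ⁿ, τ' = τ - n, T = shT α n.
`corner_shear`: for 0 < r ≤ rr0 τ, r ≤ rr0 τ', r small enough (say `|n| r ≤ im τ / 8`, i.e. `|n||y| ≤ 1/8` if |z| < r) and a point p = (x,y) of the open unit square of s:
`cornerFun α β s0 (radF η τ r) s p = fl (cornerFun α β' s0 (radF η τ' r)) (T (s,p))`. Note `zt τ' (x+ny, y) = zt τ (x,y)`; ξ = radF η τ r, ξ' = radF η τ' r, `ξ'(x+ny,y) = ξ(x,y)`; both vanish unless |x|,|y| < 1/4.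
 With k = ⌊x+ny⌋: T(s,p) = (α^k s, (x+ny-k, y)) (x-coordinate in [0,1): the formula of cornerFun holds there too, ext has floor 0). The right side is
 `[cor (α^k s)] ξ(x-k,y) + [cor (α^{k+1} s)] ξ(x-k-1,y) + [cor (β'α^k s)] ξ(x-k+n,y-1) + [cor (β'α^{k+1}s)] ξ(x-k-1+n,y-1)` (use ξ'(X,Y) = ξ(X-nY,Y)), and `β' α^{m} = β α^{m-n}`, so this is
 `∑_{j ∈ {k,k+1}} [cor (α^j s)] ξ(x-j,y) + ∑_{j ∈ {k-n,k+1-n}} [cor (β α^j s)] ξ(x-j,y-1)`. Since 0<x<1 a term ξ(x-j,·) ≠ 0 only for j ∈ {0,1}; and if ξ(x-j,y) ≠ 0 for j ∈ {0,1} then |x-j| < 1/4, y < 1/4 and |n y| ≤ 1/8 force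
 j ∈ {k,k+1} (x+ny within 3/8 of j, so ⌊x+ny⌋ ∈ {j-1,j}); same for the second sum with n(y-1). So both sides agree. [cor for (α,β') is cor for (α,β): zeta_shear.]
`AA_shear`: with `shear_eq` (FF α β w τ = FF α β' w τ' ∘ T a.e.), the invariance of the integral under T (integral_map with shT_mp), L1 mean_value on both sides for η = eta0 and the same small r, and den_pos: divide.
-/

set_option autoImplicit false

open MeasureTheory

namespace Pool.Agent.Helper96.OF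

variable {X : Type} {α β : Equiv.Perm X}

theorem cor_shear (n : ℤ) (s0 s : X) : cor α (β * α ^ (-n)) s0 s ↔ cor α β s0 s := by
  unfold cor
  rw [zeta_shear]

/-- a sum of two consecutive terms around a moving point -/
private theorem two_term (A : ℤ → ℂ) {x d : ℝ} (hx0 : 0 < x) (hx1 : x < 1)
    (hA : ∀ j : ℤ, A j ≠ 0 → |x - j| < 1 / 4 ∧ |d| ≤ 1 / 8) :
    A 0 + A 1 = A ⌊x + d⌋ + A (⌊x + d⌋ + 1) := by
  by_cases hd : |d| ≤ 1 / 8
  · obtain ⟨d1, d2⟩ := abs_le.1 hd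
    have hz : ∀ j : ℤ, 1 / 4 ≤ |x - j| → A j = 0 := by
      intro j hj
      by_contra hne
      have := (hA j hne).1
      linarith
    rcases lt_or_ge (x + d) 0 with h | h
    · have hf : ⌊x + d⌋ = -1 := by
        rw [Int.floor_eq_iff]
        push_cast
        constructor <;> linarith
      rw [hf, hz (-1) (by push_cast; rw [abs_of_pos (by linarith)]; linarith),
        hz 1 (by push_cast; rw [abs_of_neg (by linarith)]; linarith)]
      norm_num
    · rcases lt_or_ge (x + d) 1 with h1 | h1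
      · have hf : ⌊x + d⌋ = 0 := by
          rw [Int.floor_eq_iff]
          push_cast
          constructor <;> linarith
        rw [hf]
        norm_num
      · have hf : ⌊x + d⌋ = 1 := by
          rw [Int.floor_eq_iff]
          push_cast
          constructor <;> linarith
        rw [hf, hz (1 + 1) (by push_cast; rw [abs_of_neg (by linarith)]; linarith),
          hz 0 (by push_cast; rw [abs_of_pos (by linarith)]; linarith)]
        norm_num
  · have hz : ∀ j : ℤ, A j = 0 := by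
      intro j
      by_contra hne
      exact hd (hA j hne).2
    simp [hz]

/-- the sheared radial function -/
private theorem rad_shear (n : ℤ) (η : ℝ → ℝ) (τ : ℂ) (r a b : ℝ) :
    radF η (τ - n) r (a, b) = radF η τ r (a - n * b, b) := by
  have h : zt (τ - n) (a, b) = zt τ (a - n * b, b) := by
    unfold zt
    push_cast
    ring
  unfold radF
  rw [h]

open Classical in
/-- indicator of the corner -/
private noncomputable def ic (α β : Equiv.Perm X) (s0 s : X) : ℂ := if cor α β s0 s then 1 else 0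

private theorem ic_shear (n : ℤ) (s0 s : X) : ic α (β * α ^ (-n)) s0 s = ic α β s0 s := by
  unfold ic
  by_cases h : cor α β s0 s
  · rw [if_pos h, if_pos ((cor_shear n s0 s).2 h)]
  · rw [if_neg h, if_neg (fun h' => h ((cor_shear n s0 s).1 h'))]

private theorem corner_ic (s0 : X) (ξ : ℝ × ℝ → ℂ) (s : X) (x y : ℝ) (h1 : 0 ≤ x) (h2 : x < 1)
    (h3 : 0 ≤ y) (h4 : y < 1) :
    cornerFun α β s0 ξ s (x, y) = ic α β s0 s * ξ (x, y) + ic α β s0 (α s) * ξ (x - 1, y) +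
      ic α β s0 (β s) * ξ (x, y - 1) + ic α β s0 (β (α s)) * ξ (x - 1, y - 1) := by
  rw [corner_unitSq s0 ξ s (x, y) h1 h2 h3 h4]
  unfold ic
  split_ifs <;> simp

theorem corner_shear (n : ℤ) (s0 : X) {η : ℝ → ℝ} (hη : Prof η) {τ : ℂ} (hτ : τ ∈ HH) {r : ℝ}
    (hr : 0 < r) (hr1 : r ≤ rr0 τ) (hr2 : r ≤ rr0 (τ - n)) (hr3 : |(n : ℝ)| * r ≤ τ.im / 8)
    (s : X) (p : ℝ × ℝ) (hp : p ∈ unitSq) :
    cornerFun α β s0 (radF η τ r) s p =
      fl (cornerFun α (β * α ^ (-n)) s0 (radF η (τ - n) r)) (shT α n (s, p)) := by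
  obtain ⟨x, y⟩ := p
  obtain ⟨⟨hx0, hx1⟩, ⟨hy0, hy1⟩⟩ := hp
  simp only at hx0 hx1 hy0 hy1
  have hτ' : 0 < τ.im := hτ
  have hs := (radF_supp hη hτ hr hr1).1
  -- small support
  have hsm : ∀ a b : ℝ, radF η τ r (a, b) ≠ 0 → |a| < 1 / 4 ∧ |(n : ℝ) * b| ≤ 1 / 8 := by
    intro a b hne
    obtain ⟨h1, h2, h3⟩ := hs (a, b) hne
    refine ⟨h2, ?_⟩
    have h4 : τ.im * |b| < r := by
      have h5 : |(zt τ (a, b)).im| ≤ ‖zt τ (a, b)‖ := Complex.abs_im_le_norm _
      have h6 : (zt τ (a, b)).im = τ.im * b := by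
        simp [zt]
      rw [h6, abs_mul, abs_of_pos hτ'] at h5
      exact h5.trans_lt h1
    rw [abs_mul]
    have h7 : |(n : ℝ)| * (τ.im * |b|) ≤ τ.im / 8 :=
      (mul_le_mul_of_nonneg_left h4.le (abs_nonneg _)).trans hr3
    have h8 : τ.im * (|(n : ℝ)| * |b|) ≤ τ.im * (1 / 8) := by
      calc τ.im * (|(n : ℝ)| * |b|) = |(n : ℝ)| * (τ.im * |b|) := by ring
        _ ≤ τ.im / 8 := h7
        _ = τ.im * (1 / 8) := by ring
    exact le_of_mul_le_mul_left h8 hτ'
  have hpow : ∀ j : ℤ, (α ^ (j + 1)) s = α ((α ^ j) s) := by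
    intro j
    rw [add_comm, zpow_add, zpow_one, Equiv.Perm.mul_apply]
  -- the left side
  rw [corner_ic s0 _ s x y hx0.le hx1 hy0.le hy1]
  -- the right side
  have hT : shT α n (s, (x, y)) = ((α ^ ⌊x + (n : ℝ) * y⌋) s, (Int.fract (x + (n : ℝ) * y), y)) := rfl
  rw [hT]
  unfold fl
  simp only
  rw [corner_ic s0 _ _ _ y (Int.fract_nonneg _) (Int.fract_lt_one _) hy0.le hy1]
  simp only [ic_shear, rad_shear]
  set k : ℤ := ⌊x + (n : ℝ) * y⌋ with hk
  have hfr : Int.fract (x + (n : ℝ) * y) = x + n * y - k := rfl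
  have hk2 : ⌊x + (n : ℝ) * (y - 1)⌋ = k - n := by
    have : x + (n : ℝ) * (y - 1) = x + (n : ℝ) * y - (n : ℤ) := by ring
    rw [this, Int.floor_sub_intCast]
  have hb1 : (β * α ^ (-n)) ((α ^ k) s) = β ((α ^ (k - n)) s) := by
    rw [Equiv.Perm.mul_apply, ← Equiv.Perm.mul_apply (α ^ (-n)) (α ^ k), ← zpow_add]
    congr 3
    ring
  have hb2 : (β * α ^ (-n)) (α ((α ^ k) s)) = β ((α ^ (k - n + 1)) s) := by
    rw [← hpow k, Equiv.Perm.mul_apply, ← Equiv.Perm.mul_apply (α ^ (-n)) (α ^ (k + 1)),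
      ← zpow_add]
    congr 3
    ring
  rw [hb1, hb2, ← hpow k]
  have t1 := two_term (fun j : ℤ => ic α β s0 ((α ^ j) s) * radF η τ r (x - j, y))
    (x := x) (d := (n : ℝ) * y) hx0 hx1 (fun j hj => by
      have h := hsm (x - j) y (right_ne_zero_of_mul hj)
      exact h)
  have t2 := two_term (fun j : ℤ => ic α β s0 (β ((α ^ j) s)) * radF η τ r (x - j, y - 1))
    (x := x) (d := (n : ℝ) * (y - 1)) hx0 hx1 (fun j hj => by
      have h := hsm (x - j) (y - 1) (right_ne_zero_of_mul hj)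
      exact h)
  rw [hk2] at t2
  rw [← hk] at t1
  simp only [zpow_zero, zpow_one, Equiv.Perm.one_apply] at t1 t2
  have a1 : x - ((0 : ℤ) : ℝ) = x := by simp
  have a2 : x - ((1 : ℤ) : ℝ) = x - 1 := by simp
  rw [a1, a2] at t1 t2
  have b1 : Int.fract (x + (n : ℝ) * y) - n * y = x - k := by rw [hfr]; ring
  have b2 : Int.fract (x + (n : ℝ) * y) - 1 - n * y = x - ((k + 1 : ℤ) : ℝ) := by
    rw [hfr]; push_cast; ring
  have b3 : Int.fract (x + (n : ℝ) * y) - n * (y - 1) = x - ((k - n : ℤ) : ℝ) := by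
    rw [hfr]; push_cast; ring
  have b4 : Int.fract (x + (n : ℝ) * y) - 1 - n * (y - 1) = x - ((k - n + 1 : ℤ) : ℝ) := by
    rw [hfr]; push_cast; ring
  rw [b1, b2, b3, b4]
  linear_combination t1 + t2

variable [Countable X] [MeasurableSpace X] [DiscreteMeasurableSpace X]

private theorem int_compC {T : Sq X → Sq X} (hT : MeasurePreserving T (mu X) (mu X)) {F : Sq X → ℂ}
    (hF : AEStronglyMeasurable F (mu X)) : ∫ q, F (T q) ∂(mu X) = ∫ q, F q ∂(mu X) := by
  have h1 : AEStronglyMeasurable F (Measure.map T (mu X)) := by rw [hT.map_eq]; exact hF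
  have := integral_map hT.measurable.aemeasurable h1
  rw [hT.map_eq] at this
  exact this.symm

theorem AA_shear (hSG : SG α β) {w : X → ℝ} (hw : InW α β w) {s0 : X} {k : ℕ} (hk : 0 < k)
    (hs0 : (zeta α β ^ k) s0 = s0) (n : ℤ) {τ : ℂ} (hτ : τ ∈ HH) :
    AA α β s0 w τ = AA α (β * α ^ (-n)) s0 w (τ - n) := by
  have hτ' : 0 < τ.im := hτ
  have hτn : (τ - n : ℂ) ∈ HH := by
    show 0 < (τ - n : ℂ).im
    simpa using hτ'
  have hs0' : (zeta α (β * α ^ (-n)) ^ k) s0 = s0 := by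
    rw [zeta_shear]
    exact hs0
  have hSG' := sg_shear hSG n
  have hw' := inW_shear hw n
  obtain ⟨r, hr, hr1, hr2, hr3⟩ : ∃ r : ℝ, 0 < r ∧ r ≤ rr0 τ ∧ r ≤ rr0 (τ - n) ∧
      |(n : ℝ)| * r ≤ τ.im / 8 := by
    have hn : 0 ≤ |(n : ℝ)| := abs_nonneg _
    refine ⟨min (rr0 τ) (min (rr0 (τ - n)) (τ.im / (8 * (|(n : ℝ)| + 1)))), ?_, min_le_left _ _,
      (min_le_right _ _).trans (min_le_left _ _), ?_⟩
    · exact lt_min (rr0_pos hτ) (lt_min (rr0_pos hτn) (by positivity))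
    · have h1 : min (rr0 τ) (min (rr0 (τ - n)) (τ.im / (8 * (|(n : ℝ)| + 1)))) ≤
        τ.im / (8 * (|(n : ℝ)| + 1)) := (min_le_right _ _).trans (min_le_right _ _)
      refine (mul_le_mul_of_nonneg_left h1 hn).trans ?_
      rw [mul_div_assoc', div_le_div_iff₀ (by positivity) (by norm_num)]
      nlinarith
  have m1 := mean_value hSG hw hk hs0 prof_eta0 hτ hr hr1
  have m2 := mean_value hSG' hw' hk hs0' prof_eta0 hτn hr hr2
  obtain ⟨D, hD, hD1⟩ := den_pos (α := α) (β := β) hk hs0 hτ hr hr1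
  have hcf : ∀ᵐ q ∂(mu X), fl (cornerFun α β s0 (radF eta0 τ r)) q =
      fl (cornerFun α (β * α ^ (-n)) s0 (radF eta0 (τ - n) r)) (shT α n q) :=
    ae_mu_of _ fun s p hp => corner_shear n s0 prof_eta0 hτ hr hr1 hr2 hr3 s p hp
  have hint : Integrable (fl (cornerFun α (β * α ^ (-n)) s0 (radF eta0 (τ - n) r))) (mu X) :=
    memLp_one_iff_integrable.1 (nice_memLp (nice_rad s0 prof_eta0 hτn hr hr2)
      (finS_corner hk hs0' _) 1)
  have e1 : ∫ q, fl (cornerFun α β s0 (radF eta0 τ r)) q ∂(mu X) =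
      ∫ q, fl (cornerFun α (β * α ^ (-n)) s0 (radF eta0 (τ - n) r)) q ∂(mu X) := by
    rw [← int_compC (shT_mp α n) hint.1]
    exact integral_congr_ae hcf
  have hFF := (shear_eq hSG hw n hτ).2.1
  have e2 : ∫ q, FF α β w τ q * fl (cornerFun α β s0 (radF eta0 τ r)) q ∂(mu X) =
      ∫ q, FF α (β * α ^ (-n)) w (τ - n) q *
        fl (cornerFun α (β * α ^ (-n)) s0 (radF eta0 (τ - n) r)) q ∂(mu X) := by
    have e3 := int_compC (shT_mp α n) (F := fun q => FF α (β * α ^ (-n)) w (τ - n) q *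
        fl (cornerFun α (β * α ^ (-n)) s0 (radF eta0 (τ - n) r)) q)
        ((FF_meas hSG' hw' hτn).1.mul hint.1)
    rw [← e3]
    refine integral_congr_ae ?_
    filter_upwards [hcf, hFF] with q h1 h2
    rw [h1, h2]
  rw [e2, m2, e1] at m1
  have hne : ∫ q, fl (cornerFun α (β * α ^ (-n)) s0 (radF eta0 (τ - n) r)) q ∂(mu X) ≠ 0 := by
    rw [← e1, hD1]
    exact_mod_cast hD.ne'
  have := mul_right_cancel₀ hne m1
  exact_mod_cast this.symm

end Pool.Agent.Helper96.OF
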