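import Pool.Agent.Helper80.OF.SH4

/-!
# OFS-M0: the markings `act^ψ`
-/

set_option autoImplicit false

namespace Pool.Agent.Helper96.OF

variable {X : Type} [MulAction A X]

private theorem tp_mul (g h : A) :
    (MulAction.toPerm (g * h) : Equiv.Perm X) = MulAction.toPerm g * MulAction.toPerm h :=
  map_mul (MulAction.toPermHom A X) g h

private theorem tp_inv (g : A) :
    (MulAction.toPerm g⁻¹ : Equiv.Perm X) = (MulAction.toPerm g)⁻¹ :=
  map_inv (MulAction.toPermHom A X) g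

private theorem t1_inv_ga : (t1⁻¹ : MulAut A) ga = ga := by
  show FreeGroup.lift ![ga, gb * ga⁻¹] ga = ga
  simp [ga]

private theorem t1_inv_gb : (t1⁻¹ : MulAut A) gb = gb * ga⁻¹ := by
  show FreeGroup.lift ![ga, gb * ga⁻¹] gb = gb * ga⁻¹
  simp [gb]

private theorem t2_inv_ga : (t2⁻¹ : MulAut A) ga = ga * gb⁻¹ := by
  show FreeGroup.lift ![ga * gb⁻¹, gb] ga = ga * gb⁻¹
  simp [ga]

private theorem t2_inv_gb : (t2⁻¹ : MulAut A) gb = gb := by
  show FreeGroup.lift ![ga * gb⁻¹, gb] gb = gb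
  simp [gb]

private theorem t1_ga : t1 ga = ga := by
  show FreeGroup.lift ![ga, gb * ga] ga = ga
  simp [ga]

private theorem t1_gb : t1 gb = gb * ga := by
  show FreeGroup.lift ![ga, gb * ga] gb = gb * ga
  simp [gb]

private theorem t2_ga : t2 ga = ga * gb := by
  show FreeGroup.lift ![ga * gb, gb] ga = ga * gb
  simp [ga]

private theorem t2_gb : t2 gb = gb := by
  show FreeGroup.lift ![ga * gb, gb] gb = gb
  simp [gb]

theorem al_one : al X 1 = MulAction.toPerm ga ∧ be X 1 = MulAction.toPerm gb := by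
  unfold al be
  constructor <;> simp

theorem al_t1 (ψ : MulAut A) : al X (t1 * ψ) = al X ψ ∧ be X (t1 * ψ) = be X ψ * (al X ψ)⁻¹ := by
  unfold al be
  rw [mul_inv_rev]
  refine ⟨?_, ?_⟩
  · rw [MulAut.mul_apply, t1_inv_ga]
  · rw [MulAut.mul_apply, t1_inv_gb, map_mul, map_inv, tp_mul, tp_inv]

theorem al_t2 (ψ : MulAut A) : al X (t2 * ψ) = al X ψ * (be X ψ)⁻¹ ∧ be X (t2 * ψ) = be X ψ := by
  unfold al be
  rw [mul_inv_rev]
  refine ⟨?_, ?_⟩
  · rw [MulAut.mul_apply, t2_inv_ga, map_mul, map_inv, tp_mul, tp_inv]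
  · rw [MulAut.mul_apply, t2_inv_gb]

theorem B3_gz {ψ : MulAut A} (hψ : ψ ∈ B3) : ψ gz = gz := by
  unfold B3 at hψ
  induction hψ using Subgroup.closure_induction with
  | mem x hx =>
    rcases hx with rfl | hx
    · unfold gz
      rw [map_mul, map_mul, map_mul, map_inv, map_inv, t1_ga, t1_gb]
      group
    · rw [Set.mem_singleton_iff] at hx
      subst hx
      unfold gz
      rw [map_mul, map_mul, map_mul, map_inv, map_inv, t2_ga, t2_gb]
      group
  | one => rfl
  | mul x y _ _ hx hy => rw [MulAut.mul_apply, hy, hx]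
  | inv x _ hx =>
    calc x⁻¹ gz = x⁻¹ (x gz) := by rw [hx]
      _ = gz := by rw [MulAut.inv_apply_self]

theorem zeta_al_be {ψ : MulAut A} (hψ : ψ ∈ B3) :
    zeta (al X ψ) (be X ψ) = MulAction.toPerm gz := by
  have h := B3_gz (B3.inv_mem hψ)
  unfold zeta al be
  rw [← tp_mul, ← tp_inv, ← tp_mul, ← tp_inv, ← tp_mul, ← map_mul, ← map_inv, ← map_inv,
    ← map_mul, ← map_mul]
  show (MulAction.toPerm (ψ⁻¹ gz) : Equiv.Perm X) = _
  rw [h]

private theorem mem_aux (ψ : MulAut A) (h : A) : (MulAction.toPerm (ψ⁻¹ h) : Equiv.Perm X) ∈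
    Subgroup.closure ({al X ψ, be X ψ} : Set (Equiv.Perm X)) := by
  induction h using FreeGroup.induction_on with
  | C1 =>
    rw [map_one]
    have : (MulAction.toPerm (1 : A) : Equiv.Perm X) = 1 := map_one (MulAction.toPermHom A X)
    rw [this]
    exact Subgroup.one_mem _
  | of i =>
    apply Subgroup.subset_closure
    fin_cases i
    · left; rfl
    · right; rfl
  | inv_of i hi =>
    rw [map_inv, tp_inv]
    exact Subgroup.inv_mem _ hi
  | mul x y hx hy =>
    rw [map_mul, tp_mul]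
    exact Subgroup.mul_mem _ hx hy

theorem mem_closure_al_be (ψ : MulAut A) (g : A) : (MulAction.toPerm g : Equiv.Perm X) ∈
    Subgroup.closure ({al X ψ, be X ψ} : Set (Equiv.Perm X)) := by
  have := mem_aux (X := X) ψ (ψ g)
  rwa [MulAut.inv_apply_self] at this

private theorem mem_base (g : A) : (MulAction.toPerm g : Equiv.Perm X) ∈
    Subgroup.closure ({MulAction.toPerm ga, MulAction.toPerm gb} : Set (Equiv.Perm X)) := by
  have := mem_closure_al_be (X := X) 1 g
  rwa [al_one.1, al_one.2] at this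

theorem inW_psi {ψ : MulAut A} (hψ : ψ ∈ B3) {w : X → ℝ}
    (hw : InW (MulAction.toPerm ga : Equiv.Perm X) (MulAction.toPerm gb) w) :
    InW (al X ψ) (be X ψ) w := by
  refine inW_marking hw (mem_base _) (mem_base _) ?_
  rw [zeta_al_be hψ]
  have := zeta_al_be (X := X) (B3.one_mem)
  rw [al_one.1, al_one.2] at this
  exact this.symm

theorem sg_psi (ψ : MulAut A)
    (h : SG (MulAction.toPerm ga : Equiv.Perm X) (MulAction.toPerm gb)) :
    SG (al X ψ) (be X ψ) :=
  sg_marking h (mem_closure_al_be ψ ga) (mem_closure_al_be ψ gb)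

theorem conn_psi (ψ : MulAut A)
    (h : Conn (MulAction.toPerm ga : Equiv.Perm X) (MulAction.toPerm gb)) :
    Conn (al X ψ) (be X ψ) := by
  intro x y
  obtain ⟨g, hg, hxy⟩ := h x y
  refine ⟨g, ?_, hxy⟩
  have hle : Subgroup.closure ({MulAction.toPerm ga, MulAction.toPerm gb} : Set (Equiv.Perm X)) ≤
      Subgroup.closure ({al X ψ, be X ψ} : Set (Equiv.Perm X)) := by
    rw [Subgroup.closure_le]
    intro z hz
    rcases hz with rfl | hz
    · exact mem_closure_al_be ψ ga
    · rw [Set.mem_singleton_iff] at hz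
      subst hz
      exact mem_closure_al_be ψ gb
  exact hle hg

/-- a bijection that intertwines `μ⁻¹ g` and `g` intertwines the markings of `ψ μ` and `ψ` -/
theorem theta_al {μ : MulAut A} {θ : Equiv.Perm X}
    (hθ : ∀ (g : A) (x : X), θ ((μ⁻¹ g) • x) = g • θ x) (ψ : MulAut A) :
    θ * al X (ψ * μ) = al X ψ * θ ∧ θ * be X (ψ * μ) = be X ψ * θ := by
  unfold al be
  rw [mul_inv_rev]
  constructor
  · ext x
    show θ (((μ⁻¹ * ψ⁻¹) ga) • x) = (ψ⁻¹ ga) • θ x
    rw [MulAut.mul_apply, hθ]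
  · ext x
    show θ (((μ⁻¹ * ψ⁻¹) gb) • x) = (ψ⁻¹ gb) • θ x
    rw [MulAut.mul_apply, hθ]

end Pool.Agent.Helper96.OF
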