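import Pool.Agent.Helper96.OF.P3

/-!
# OFS-M2: sum over the cosets B3/Δ

Proof. `E ψ τ` (ψ ∈ B3, τ ∈ HH) depends only on the coset ψΔ; B3 ⧸ (Δ.subgroupOf B3) is finite (hfin). Put `U τ = ∑_{c} E (rep c) τ` (rep = Quotient.out, in B3). Left multiplication by t1 (t1 ∈ B3) permutes the cosets, so for τ ∈ HH
`U (τ-1) = ∑_c E (rep c) (τ-1) = ∑_c E (t1 * rep c) (τ - 1) = ∑_c E (rep c) τ = U τ` (E (rep (t1 c)) = E (t1 * rep c) on HH by h0), hence `U (τ+1) = U τ`. Same: `U (τ/(1-τ)) = U τ` (τ/(1-τ) ∈ HH).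
U is C² on HH, `lap U = ∑ lap` on HH (second derivatives of a finite sum on the open set HH), growth: each summand ≤ (ε/m) im τ. P3 `propH`: lap U = 0 and U is constant; all summands are ≥ 0 so every lap is 0, and for E ≥ 0
each E ψ ≤ U = U(i). (An arbitrary ψ ∈ B3 equals its representative up to h0, which holds on the open set HH, so lap (E ψ) = lap (E (rep)) on HH.)
-/

set_option autoImplicit false

namespace Pool.Agent.Helper96.OF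

namespace OFM2

theorem isOpen_HH : IsOpen HH := isOpen_lt continuous_const Complex.continuous_im

theorem moeb {τ : ℂ} (h : τ ∈ HH) : τ / (1 - τ) ∈ HH := by
  have h1 : (0:ℝ) < τ.im := h
  have hne : (1 : ℂ) - τ ≠ 0 := by
    intro h0
    have h2 := congrArg Complex.im h0
    simp at h2
    linarith
  have hn : 0 < Complex.normSq (1 - τ) := Complex.normSq_pos.mpr hne
  show 0 < (τ / (1 - τ)).im
  rw [Complex.div_im]
  have h3 : τ.im * (1 - τ).re / Complex.normSq (1 - τ) - τ.re * (1 - τ).im / Complex.normSq (1 - τ)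
      = τ.im / Complex.normSq (1 - τ) := by
    rw [← sub_div]
    congr 1
    simp
    ring
  rw [h3]
  exact div_pos h1 hn

theorem lap_congr {f g : ℂ → ℝ} (h : ∀ τ ∈ HH, f τ = g τ) {τ : ℂ} (hτ : τ ∈ HH) :
    lap f τ = lap g τ := by
  have h1 : f =ᶠ[nhds τ] g := by
    filter_upwards [isOpen_HH.mem_nhds hτ] with u hu using h u hu
  unfold lap
  rw [h1.fderiv.fderiv_eq]

theorem lap_sum {ι : Type} [Fintype ι] (f : ι → ℂ → ℝ) (hf : ∀ i, ContDiffOn ℝ 2 (f i) HH) {τ : ℂ}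
    (hτ : τ ∈ HH) : lap (fun u => ∑ i, f i u) τ = ∑ i, lap (f i) τ := by
  have hat : ∀ i, ∀ u ∈ HH, ContDiffAt ℝ 2 (f i) u := fun i u hu =>
    (hf i).contDiffAt (isOpen_HH.mem_nhds hu)
  have h1 : fderiv ℝ (fun u => ∑ i, f i u) =ᶠ[nhds τ] fun u => ∑ i, fderiv ℝ (f i) u := by
    filter_upwards [isOpen_HH.mem_nhds hτ] with u hu
    rw [fderiv_fun_sum]
    intro i _
    exact (hat i u hu).differentiableAt two_ne_zero
  have h2 : ∀ i, DifferentiableAt ℝ (fderiv ℝ (f i)) τ := fun i => by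
    have h3 : ContDiffAt ℝ 1 (fderiv ℝ (f i)) τ := (hat i τ hτ).fderiv_right (by norm_num)
    exact h3.differentiableAt one_ne_zero
  unfold lap
  rw [h1.fderiv_eq, fderiv_fun_sum (fun i _ => h2 i)]
  simp only [sum_apply]
  rw [Finset.sum_add_distrib]

end OFM2

open OFM2 in
theorem sum_propH (Δ : Subgroup (MulAut A)) (hΔ : Δ ≤ B3) (hfin : Δ.relIndex B3 ≠ 0)
    (E : MulAut A → ℂ → ℝ) (hC : ∀ ψ ∈ B3, ContDiffOn ℝ 2 (E ψ) HH)
    (hs : ∀ ψ ∈ B3, ∀ τ ∈ HH, 0 ≤ lap (E ψ) τ)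
    (h0 : ∀ ψ ∈ B3, ∀ μ ∈ Δ, ∀ τ ∈ HH, E (ψ * μ) τ = E ψ τ)
    (h1 : ∀ ψ ∈ B3, ∀ τ ∈ HH, E (t1 * ψ) (τ - 1) = E ψ τ)
    (h2 : ∀ ψ ∈ B3, ∀ τ ∈ HH, E (t2 * ψ) (τ / (1 - τ)) = E ψ τ)
    (hg : ∀ ψ ∈ B3, ∀ ε : ℝ, 0 < ε → ∃ V0 : ℝ, ∀ τ : ℂ, V0 ≤ τ.im → |τ.re| ≤ 1 →
      E ψ τ ≤ ε * τ.im) :
    (∀ ψ ∈ B3, ∀ τ ∈ HH, lap (E ψ) τ = 0) ∧
    ((∀ ψ ∈ B3, ∀ τ ∈ HH, 0 ≤ E ψ τ) → ∃ C : ℝ, ∀ ψ ∈ B3, ∀ τ ∈ HH, E ψ τ ≤ C) := by
  have ht1 : t1 ∈ B3 := Subgroup.subset_closure (by simp)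
  have ht2 : t2 ∈ B3 := Subgroup.subset_closure (by simp)
  let D : Subgroup B3 := Δ.subgroupOf B3
  have hfin' : D.index ≠ 0 := hfin
  haveI : D.FiniteIndex := ⟨hfin'⟩
  haveI : Fintype (B3 ⧸ D) := Fintype.ofFinite _
  set e : (B3 ⧸ D) → ℂ → ℝ := fun c => E ((c.out : B3) : MulAut A) with he
  have hrep : ∀ b : B3, ∀ τ ∈ HH, e (QuotientGroup.mk b) τ = E (b : MulAut A) τ := by
    intro b τ hτ
    obtain ⟨μ, hμ⟩ := QuotientGroup.mk_out_eq_mul D b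
    have h3 : (((QuotientGroup.mk b : B3 ⧸ D).out : B3) : MulAut A) =
        (b : MulAut A) * ((μ : B3) : MulAut A) := by
      rw [hμ]; rfl
    simp only [he]
    rw [h3]
    exact h0 _ b.2 _ (Subgroup.mem_subgroupOf.mp μ.2) τ hτ
  have heC : ∀ c, ContDiffOn ℝ 2 (e c) HH := fun c => hC _ (c.out : B3).2
  set U : ℂ → ℝ := fun τ => ∑ c, e c τ with hU
  have hUC : ContDiffOn ℝ 2 U HH := ContDiffOn.sum fun c _ => heC c
  have hUlap : ∀ τ ∈ HH, lap U τ = ∑ c, lap (e c) τ := fun τ hτ => lap_sum e heC hτ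
  have hes : ∀ c, ∀ τ ∈ HH, 0 ≤ lap (e c) τ := fun c τ hτ => hs _ (c.out : B3).2 τ hτ
  have hUs : ∀ τ ∈ HH, 0 ≤ lap U τ := fun τ hτ => by
    rw [hUlap τ hτ]; exact Finset.sum_nonneg fun c _ => hes c τ hτ
  -- translation of cosets
  have htrans : ∀ (t : B3) (τ τ' : ℂ), τ ∈ HH → τ' ∈ HH →
      (∀ ψ ∈ B3, E ((t : MulAut A) * ψ) τ' = E ψ τ) → U τ' = U τ := by
    intro t τ τ' hτ hτ' ht
    simp only [hU]
    rw [← Equiv.sum_comp (MulAction.toPerm t : Equiv.Perm (B3 ⧸ D)) (fun c => e c τ')]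
    refine Finset.sum_congr rfl fun c _ => ?_
    have h3 : (MulAction.toPerm t : Equiv.Perm (B3 ⧸ D)) c =
        QuotientGroup.mk (t * (c.out : B3)) := by
      rw [MulAction.toPerm_apply]
      conv_lhs => rw [← QuotientGroup.out_eq' c]
      rfl
    rw [h3, hrep _ τ' hτ']
    exact ht _ (c.out : B3).2
  have hU1 : ∀ τ ∈ HH, U (τ + 1) = U τ := by
    intro τ hτ
    have hτ1 : τ + 1 ∈ HH := by
      show 0 < (τ + 1).im
      have h3 : (0:ℝ) < τ.im := hτ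
      simpa using h3
    symm
    refine htrans ⟨t1, ht1⟩ (τ + 1) τ hτ1 hτ fun ψ hψ => ?_
    have := h1 ψ hψ (τ + 1) hτ1
    rwa [add_sub_cancel_right] at this
  have hU2 : ∀ τ ∈ HH, U (τ / (1 - τ)) = U τ := fun τ hτ =>
    htrans ⟨t2, ht2⟩ τ _ hτ (moeb hτ) fun ψ hψ => h2 ψ hψ τ hτ
  have hUg : ∀ ε : ℝ, 0 < ε → ∃ V0 : ℝ, ∀ τ : ℂ, V0 ≤ τ.im → |τ.re| ≤ 1 → U τ ≤ ε * τ.im := by
    intro ε hε
    haveI : Nonempty (B3 ⧸ D) := ⟨QuotientGroup.mk 1⟩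
    have hm : (0:ℝ) < Fintype.card (B3 ⧸ D) := Nat.cast_pos.mpr Fintype.card_pos
    choose V hV using fun c : B3 ⧸ D =>
      hg _ (c.out : B3).2 (ε / Fintype.card (B3 ⧸ D)) (div_pos hε hm)
    refine ⟨∑ c, |V c|, fun τ hτ hre => ?_⟩
    have h3 : ∀ c, e c τ ≤ ε / Fintype.card (B3 ⧸ D) * τ.im := fun c => by
      refine hV c τ ?_ hre
      refine le_trans (le_abs_self _) (le_trans ?_ hτ)
      exact Finset.single_le_sum (f := fun c => |V c|) (fun c _ => abs_nonneg _) (Finset.mem_univ c)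
    calc U τ ≤ ∑ _c : B3 ⧸ D, ε / Fintype.card (B3 ⧸ D) * τ.im :=
          Finset.sum_le_sum fun c _ => h3 c
      _ = ε * τ.im := by
          rw [Finset.sum_const, Finset.card_univ, nsmul_eq_mul]
          field_simp
  obtain ⟨hconst, hlap0⟩ := propH U hUC hUs hU1 hU2 hUg
  constructor
  · intro ψ hψ τ hτ
    have h3 : lap (E ψ) τ = lap (e (QuotientGroup.mk ⟨ψ, hψ⟩)) τ :=
      lap_congr (fun u hu => (hrep ⟨ψ, hψ⟩ u hu).symm) hτ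
    rw [h3]
    have h4 := hlap0 τ hτ
    rw [hUlap τ hτ] at h4
    exact (Finset.sum_eq_zero_iff_of_nonneg (fun c _ => hes c τ hτ)).mp h4 _ (Finset.mem_univ _)
  · intro hnn
    refine ⟨U Complex.I, fun ψ hψ τ hτ => ?_⟩
    rw [← hconst τ hτ, ← hrep ⟨ψ, hψ⟩ τ hτ]
    exact Finset.single_le_sum (f := fun c => e c τ) (fun c _ => hnn _ (c.out : B3).2 τ hτ)
      (Finset.mem_univ _)

end Pool.Agent.Helper96.OF
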