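import Pool.Agent.Helper80.OF.M1
import Pool.Agent.Helper80.OF.M2
import Pool.Agent.Helper80.OF.G3

/-!
# OFS-M3: consequences of the invariance: the energies are harmonic and bounded

`EE`: M2 sum_propH with E ψ = EE (al ψ) (be ψ) w. hC: FT6 sol_smooth (⊤ → 2). hs: FT6 lap_EE. h0: M1 EE_theta. h1, h2: M1. hg: FT6 EE_growth with G3 growth. EE ≥ 0 by definition (im τ > 0).
(V0 in hg: for τ with V0 ≤ im τ; EE_growth gives exactly this.)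
`HolW`: FT6 holW_of.
`Kf`: hC, hs are hypotheses; h0, h1, h2: M1; hg: by FT10 FF_bound `Kf ψ τ ≤ im τ C² ‖hh w' τ‖² = C² EE(w')/4 ≤ C² C'/4`, bounded, so ≤ ε im τ for im τ ≥ V0 = max 1 (C²C'/(4ε)) (here im τ ≥ 1 gives τ ∈ HH).
-/

set_option autoImplicit false

open MeasureTheory

namespace Pool.Agent.Helper96.OF

variable {X : Type} [MulAction A X] [Countable X] [MeasurableSpace X] [DiscreteMeasurableSpace X]

/-- `Δ` has finite index in `B3` and every `μ ∈ Δ` is realised by a bijection at bounded distance -/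
structure Inv (X : Type) [MulAction A X] (Δ : Subgroup (MulAut A)) : Prop where
  le : Δ ≤ B3
  fin : Δ.relIndex B3 ≠ 0
  theta : ∀ μ ∈ Δ, ∃ θ : Equiv.Perm X, (∀ (g : A) (x : X), θ ((μ⁻¹ g) • x) = g • θ x) ∧
    ∀ w : X → ℝ, InW (MulAction.toPerm ga : Equiv.Perm X) (MulAction.toPerm gb) w →
      L2s (fun x => w (θ x) - w x)

theorem EE_harm (hSG : SG (MulAction.toPerm ga : Equiv.Perm X) (MulAction.toPerm gb))
    {Δ : Subgroup (MulAut A)} (hΔ : Inv X Δ) {w : X → ℝ}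
    (hw : InW (MulAction.toPerm ga : Equiv.Perm X) (MulAction.toPerm gb) w) :
    (∀ ψ ∈ B3, ∀ τ ∈ HH, lap (EE (al X ψ) (be X ψ) w) τ = 0) ∧
    ∃ C : ℝ, ∀ ψ ∈ B3, ∀ τ ∈ HH, EE (al X ψ) (be X ψ) w τ ≤ C := by
  have key := sum_propH Δ hΔ.le hΔ.fin (fun ψ => EE (al X ψ) (be X ψ) w)
    (fun ψ hψ => (sol_smooth (sg_psi ψ hSG) (inW_psi hψ hw)).2.2.of_le (by norm_cast))
    (fun ψ hψ τ hτ => by
      rw [lap_EE (sg_psi ψ hSG) (inW_psi hψ hw) hτ]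
      have : 0 < τ.im := hτ
      positivity)
    (fun ψ hψ μ hμ τ hτ => by
      obtain ⟨θ, h1, h2⟩ := hΔ.theta μ hμ
      exact EE_theta hSG hw (hΔ.le hμ) hψ h1 (h2 w hw) hτ)
    (fun ψ hψ τ hτ => EE_t1 hSG hw hψ hτ)
    (fun ψ hψ τ hτ => EE_t2 hSG hw hψ hτ)
    (fun ψ hψ => EE_growth (sg_psi ψ hSG) (inW_psi hψ hw)
      (fun η hη => growth (inW_psi hψ hw) η hη))
  refine ⟨key.1, key.2 fun ψ hψ τ hτ => ?_⟩
  have h0 : 0 < τ.im := hτ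
  simp only [EE]
  positivity

theorem holW_psi (hSG : SG (MulAction.toPerm ga : Equiv.Perm X) (MulAction.toPerm gb))
    {Δ : Subgroup (MulAut A)} (hΔ : Inv X Δ) {w : X → ℝ}
    (hw : InW (MulAction.toPerm ga : Equiv.Perm X) (MulAction.toPerm gb) w) {ψ : MulAut A}
    (hψ : ψ ∈ B3) : HolW (al X ψ) (be X ψ) w :=
  holW_of (sg_psi ψ hSG) (inW_psi hψ hw) fun τ hτ => (EE_harm hSG hΔ hw).1 ψ hψ τ hτ

omit [MulAction A X] in
/-- bound of `Kf` by the energy -/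
private theorem ofsM3_Kf_le {α β : Equiv.Perm X} (hSG : SG α β) {w w' : X → ℝ}
    (hw : InW α β w) {C : ℝ} (hC : ∀ x, |w x| ≤ C) {τ : ℂ} (hτ : τ ∈ HH) :
    Kf α β w w' τ ≤ C ^ 2 / 4 * EE α β w' τ := by
  have h0 : 0 < τ.im := hτ
  have hb := FF_bound hSG hw hC hτ
  have hm := (FF_meas hSG hw hτ).1
  have hL : MemLp (hh α β w' τ : Sq X → ℂ) 2 (mu X) := Lp.memLp _
  have hi : Integrable (fun q => ‖(hh α β w' τ : Sq X → ℂ) q‖ ^ 2) (mu X) :=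
    hL.integrable_norm_pow (by norm_num)
  have hn : ‖hh α β w' τ‖ ^ 2 = ∫ q, ‖(hh α β w' τ : Sq X → ℂ) q‖ ^ 2 ∂(mu X) := by
    rw [← cls_norm hL]
    congr 2
    unfold cls
    rw [dif_pos hL]
    exact (Lp.toLp_coeFn _ hL).symm
  have hle : ∫ q, ‖FF α β w τ q‖ ^ 2 * ‖(hh α β w' τ : Sq X → ℂ) q‖ ^ 2 ∂(mu X) ≤
      ∫ q, C ^ 2 * ‖(hh α β w' τ : Sq X → ℂ) q‖ ^ 2 ∂(mu X) := by
    refine integral_mono_ae ?_ (hi.const_mul _) ?_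
    · refine (hi.const_mul (C ^ 2)).mono' ?_ ?_
      · exact (hm.norm.pow 2).mul (hL.1.norm.pow 2)
      · filter_upwards [hb] with q hq
        rw [Real.norm_of_nonneg (by positivity)]
        gcongr
    · filter_upwards [hb] with q hq
      show ‖FF α β w τ q‖ ^ 2 * _ ≤ C ^ 2 * _
      gcongr
  rw [integral_const_mul, ← hn] at hle
  unfold Kf EE
  calc τ.im * ∫ q, ‖FF α β w τ q‖ ^ 2 * ‖(hh α β w' τ : Sq X → ℂ) q‖ ^ 2 ∂(mu X)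
      ≤ τ.im * (C ^ 2 * ‖hh α β w' τ‖ ^ 2) := by gcongr
    _ = C ^ 2 / 4 * (4 * τ.im * ‖hh α β w' τ‖ ^ 2) := by ring

theorem Kf_harm (hSG : SG (MulAction.toPerm ga : Equiv.Perm X) (MulAction.toPerm gb))
    {Δ : Subgroup (MulAut A)} (hΔ : Inv X Δ) {w w' : X → ℝ}
    (hw : InW (MulAction.toPerm ga : Equiv.Perm X) (MulAction.toPerm gb) w)
    (hw' : InW (MulAction.toPerm ga : Equiv.Perm X) (MulAction.toPerm gb) w')
    (hC : ∀ ψ ∈ B3, ContDiffOn ℝ 2 (Kf (al X ψ) (be X ψ) w w') HH)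
    (hs : ∀ ψ ∈ B3, ∀ τ ∈ HH, 0 ≤ lap (Kf (al X ψ) (be X ψ) w w') τ) :
    ∀ ψ ∈ B3, ∀ τ ∈ HH, lap (Kf (al X ψ) (be X ψ) w w') τ = 0 := by
  obtain ⟨B, hB⟩ := (EE_harm hSG hΔ hw').2
  obtain ⟨C, hCb⟩ := hw.bdd
  refine (sum_propH Δ hΔ.le hΔ.fin (fun ψ => Kf (al X ψ) (be X ψ) w w') hC hs
    (fun ψ hψ μ hμ τ hτ => ?_) (fun ψ hψ τ hτ => Kf_t1 hSG hw hw' hψ hτ)
    (fun ψ hψ τ hτ => Kf_t2 hSG hw hw' hψ hτ) (fun ψ hψ ε hε => ?_)).1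
  · obtain ⟨θ, h1, h2⟩ := hΔ.theta μ hμ
    exact Kf_theta hSG hw hw' (hΔ.le hμ) hψ h1 (h2 w hw) (h2 w' hw') hτ
  · refine ⟨max 1 (C ^ 2 / 4 * B / ε), fun τ h1 _ => ?_⟩
    have h2 : 1 ≤ τ.im := (le_max_left _ _).trans h1
    have h3 : C ^ 2 / 4 * B / ε ≤ τ.im := (le_max_right _ _).trans h1
    have hτ : τ ∈ HH := lt_of_lt_of_le one_pos h2
    calc Kf (al X ψ) (be X ψ) w w' τ
        ≤ C ^ 2 / 4 * EE (al X ψ) (be X ψ) w' τ :=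
          ofsM3_Kf_le (sg_psi ψ hSG) (inW_psi hψ hw) hCb hτ
      _ ≤ C ^ 2 / 4 * B := by
          have := hB ψ hψ τ hτ
          gcongr
      _ ≤ ε * τ.im := by
          rw [div_le_iff₀ hε] at h3
          linarith

end Pool.Agent.Helper96.OF
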