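import Pool.Agent.Helper80.OF.SDefs

/-!
# OFS-S0: composition operators `Uc` and `U3`
-/

set_option autoImplicit false

open MeasureTheory
open scoped ComplexConjugate

namespace Pool.Agent.Helper96.OF

variable {X : Type} [Countable X] [MeasurableSpace X] [DiscreteMeasurableSpace X]
  {T : Sq X → Sq X} (hT : MeasurePreserving T (mu X) (mu X))

include hT

theorem ae_comp {P : Sq X → Prop} (h : ∀ᵐ q ∂(mu X), P q) : ∀ᵐ q ∂(mu X), P (T q) :=
  hT.quasiMeasurePreserving.ae h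

theorem Uc_ae (v : KK X) : (Uc T hT v : Sq X → ℂ) =ᵐ[mu X] fun q => (v : Sq X → ℂ) (T q) :=
  Lp.coeFn_compMeasurePreserving v hT

theorem memLp_T {F : Sq X → ℂ} (hF : MemLp F 2 (mu X)) : MemLp (fun q => F (T q)) 2 (mu X) :=
  hF.comp_measurePreserving hT

theorem Uc_cls {F : Sq X → ℂ} (hF : MemLp F 2 (mu X)) : Uc T hT (cls F) = cls (fun q => F (T q)) := by
  have h2 := memLp_T hT hF
  apply Lp.ext
  filter_upwards [Uc_ae hT (cls F), ae_comp hT (cls_ae hF), cls_ae h2] with q h3 h4 h5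
  rw [h3, h4, h5]

theorem Uc_JK (v : KK X) : Uc T hT (JK X v) = JK X (Uc T hT v) := by
  apply Lp.ext
  filter_upwards [Uc_ae hT (JK X v), JK_ae (Uc T hT v), Uc_ae hT v, ae_comp hT (JK_ae v)]
    with q h1 h2 h3 h4
  rw [h1, h2, h3, h4]

theorem Uc_inner (u v : KK X) : inner ℂ (Uc T hT u) (Uc T hT v) = inner ℂ u v :=
  (Uc T hT).inner_map_map u v

theorem Uc_comp_id {T' : Sq X → Sq X} (hT' : MeasurePreserving T' (mu X) (mu X))
    (h : ∀ᵐ q ∂(mu X), T' (T q) = q) (v : KK X) : Uc T hT (Uc T' hT' v) = v := by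
  apply Lp.ext
  filter_upwards [Uc_ae hT (Uc T' hT' v), ae_comp hT (Uc_ae hT' v), h] with q h1 h2 h3
  rw [h1, h2, h3]

theorem int_comp {F : Sq X → ℝ} (hF : AEStronglyMeasurable F (mu X)) :
    ∫ q, F (T q) ∂(mu X) = ∫ q, F q ∂(mu X) := by
  have h1 : AEStronglyMeasurable F (Measure.map T (mu X)) := by rw [hT.map_eq]; exact hF
  have := integral_map hT.measurable.aemeasurable h1
  rw [hT.map_eq] at this
  exact this.symm

theorem U3_apply (n : ℝ) (v : K3 X) : U3 T hT n v 0 = Uc T hT (v 0) ∧ U3 T hT n v 1 = Uc T hT (v 1) ∧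
    U3 T hT n v 2 = (n : ℂ) • Uc T hT (v 1) + Uc T hT (v 2) :=
  ⟨rfl, rfl, rfl⟩

theorem U3_add (n : ℝ) (u v : K3 X) : U3 T hT n (u + v) = U3 T hT n u + U3 T hT n v := by
  ext i : 1
  fin_cases i
  · show Uc T hT (u 0 + v 0) = Uc T hT (u 0) + Uc T hT (v 0)
    exact map_add _ _ _
  · show Uc T hT (u 1 + v 1) = Uc T hT (u 1) + Uc T hT (v 1)
    exact map_add _ _ _
  · show (n : ℂ) • Uc T hT (u 1 + v 1) + Uc T hT (u 2 + v 2) =
      ((n : ℂ) • Uc T hT (u 1) + Uc T hT (u 2)) + ((n : ℂ) • Uc T hT (v 1) + Uc T hT (v 2))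
    rw [map_add, map_add, smul_add]
    abel

theorem U3_smul (n : ℝ) (k : ℂ) (v : K3 X) : U3 T hT n (k • v) = k • U3 T hT n v := by
  ext i : 1
  fin_cases i
  · show Uc T hT (k • v 0) = k • Uc T hT (v 0)
    exact map_smul _ _ _
  · show Uc T hT (k • v 1) = k • Uc T hT (v 1)
    exact map_smul _ _ _
  · show (n : ℂ) • Uc T hT (k • v 1) + Uc T hT (k • v 2) =
      k • ((n : ℂ) • Uc T hT (v 1) + Uc T hT (v 2))
    rw [map_smul, map_smul, smul_add, smul_comm k (n:ℂ)]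

theorem continuous_U3 (n : ℝ) : Continuous (U3 T hT n) := by
  have hU : Continuous (Uc T hT) := (Uc T hT).continuous
  have p : ∀ i : Fin 3, Continuous fun v : K3 X => v i := fun i => by fun_prop
  have h0 : Continuous fun v : K3 X => Uc T hT (v 0) := hU.comp (p 0)
  have h1 : Continuous fun v : K3 X => Uc T hT (v 1) := hU.comp (p 1)
  have h2 : Continuous fun v : K3 X => (n : ℂ) • Uc T hT (v 1) + Uc T hT (v 2) :=
    (h1.const_smul (n : ℂ)).add (hU.comp (p 2))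
  unfold U3
  refine (PiLp.continuous_toLp 2 (fun _ : Fin 3 => KK X)).comp ?_
  refine continuous_pi fun i => ?_
  fin_cases i
  · exact h0
  · exact h1
  · exact h2

/-- if `T'` is a left inverse of `T` then `U3 T n ∘ U3 T' (-n) = id` -/
theorem U3_comp_id {T' : Sq X → Sq X} (hT' : MeasurePreserving T' (mu X) (mu X))
    (h : ∀ᵐ q ∂(mu X), T' (T q) = q) (n : ℝ) (v : K3 X) :
    U3 T hT n (U3 T' hT' (-n) v) = v := by
  ext i : 1
  fin_cases i
  · show Uc T hT (Uc T' hT' (v 0)) = v 0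
    exact Uc_comp_id hT hT' h _
  · show Uc T hT (Uc T' hT' (v 1)) = v 1
    exact Uc_comp_id hT hT' h _
  · show (n : ℂ) • Uc T hT (Uc T' hT' (v 1)) +
      Uc T hT (((-n : ℝ) : ℂ) • Uc T' hT' (v 1) + Uc T' hT' (v 2)) = v 2
    rw [map_add, map_smul, Uc_comp_id hT hT' h, Uc_comp_id hT hT' h, Complex.ofReal_neg, neg_smul]
    abel

end Pool.Agent.Helper96.OF
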