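import Pool.Agent.Helper80.OF.SDefs

/-!
# OFS-SH1: the shear is measure preserving

`T(s,(x,y)) = (α^⌊x+ny⌋ s, (fract(x+ny), y))`.
-/

set_option autoImplicit false

open MeasureTheory Set

namespace Pool.Agent.Helper96.OF

variable {X : Type}

theorem shT_inv (α : Equiv.Perm X) (n : ℤ) (q : Sq X) (h0 : 0 ≤ q.2.1) (h1 : q.2.1 < 1) :
    shT α (-n) (shT α n q) = q := by
  obtain ⟨s, x, y⟩ := q
  simp only at h0 h1
  have key : Int.fract (x + (n : ℝ) * y) + ((-n : ℤ) : ℝ) * y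
      = x + ((-⌊x + (n : ℝ) * y⌋ : ℤ) : ℝ) := by
    push_cast
    rw [Int.fract]
    ring
  have hx0 : ⌊x⌋ = 0 := Int.floor_eq_iff.2 ⟨by simpa using h0, by simpa using h1⟩
  have hfl : ⌊x + ((-⌊x + (n : ℝ) * y⌋ : ℤ) : ℝ)⌋ = -⌊x + (n : ℝ) * y⌋ := by
    rw [Int.floor_add_intCast, hx0, zero_add]
  have hfr : Int.fract (x + ((-⌊x + (n : ℝ) * y⌋ : ℤ) : ℝ)) = x := by
    rw [Int.fract_add_intCast, Int.fract_eq_self.2 ⟨h0, h1⟩]
  simp only [shT]
  rw [key, hfl, hfr]
  rw [zpow_neg, ← Equiv.Perm.mul_apply, inv_mul_cancel, Equiv.Perm.one_apply]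

/-- rotation invariance of Lebesgue measure on the unit interval -/
private lemma rot (H : ℝ → ENNReal) (c : ℝ) :
    ∫⁻ x in Ioo (0 : ℝ) 1, H (Int.fract (x + c)) = ∫⁻ x in Ioo (0 : ℝ) 1, H x := by
  have h1 : ∫⁻ x in Ioo (0 : ℝ) 1, H (Int.fract (x + c))
      = ∫⁻ x in Ioc (0 : ℝ) 1, H (Int.fract (x + c)) :=
    setLIntegral_congr Ioo_ae_eq_Ioc
  have h2 : ∫⁻ x in Ioc (0 : ℝ) 1, H (Int.fract (x + c))
      = ∫⁻ x in Ioc c (c + 1), H (Int.fract x) := by
    have := (measurePreserving_add_right (volume : Measure ℝ) c).setLIntegral_comp_preimage_emb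
      (measurableEmbedding_addRight c) (fun x => H (Int.fract x)) (Ioc c (c + 1))
    rw [← this]
    congr 2
    ext x
    simp only [mem_Ioc, mem_preimage]
    constructor
    · rintro ⟨a, b⟩; constructor <;> linarith
    · rintro ⟨a, b⟩; constructor <;> linarith
  have h3 : ∫⁻ x in Ioc c (c + 1), H (Int.fract x) = ∫⁻ x in Ioc (0 : ℝ) (0 + 1), H (Int.fract x) := by
    refine (isAddFundamentalDomain_Ioc one_pos c).setLIntegral_eq
      (isAddFundamentalDomain_Ioc one_pos 0) _ ?_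
    rintro ⟨g, hg⟩ x
    obtain ⟨k, rfl⟩ := AddSubgroup.mem_zmultiples_iff.1 hg
    have : ((⟨k • (1 : ℝ), hg⟩ : AddSubgroup.zmultiples (1 : ℝ)) +ᵥ x) = x + (k : ℝ) := by
      change k • (1 : ℝ) + x = _
      rw [zsmul_eq_mul, mul_one, add_comm]
    rw [this, Int.fract_add_intCast]
  rw [h1, h2, h3, zero_add, setLIntegral_congr Ioo_ae_eq_Ioc.symm]
  refine setLIntegral_congr_fun measurableSet_Ioo ?_
  intro x hx
  simp only
  rw [Int.fract_eq_self.2 ⟨hx.1.le, hx.2⟩]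

variable [Countable X] [MeasurableSpace X] [DiscreteMeasurableSpace X]

theorem measurable_shT (α : Equiv.Perm X) (n : ℤ) : Measurable (shT α n) := by
  have hfun : Measurable (fun q : Sq X => q.2.1 + (n : ℝ) * q.2.2) := by fun_prop
  have h1 : Measurable (fun q : Sq X => (α ^ ⌊q.2.1 + (n : ℝ) * q.2.2⌋) q.1) := by
    have hg : Measurable (fun z : ℤ × X => (α ^ z.1) z.2) := Measurable.of_discrete
    exact hg.comp ((Int.measurable_floor.comp hfun).prodMk measurable_fst)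
  exact h1.prodMk ((measurable_fract.comp hfun).prodMk (measurable_snd.comp measurable_snd))

private lemma lint_mu (F : Sq X → ENNReal) (hF : Measurable F) :
    ∫⁻ q, F q ∂(mu X) = ∫⁻ p in unitSq, ∑' s, F (s, p) := by
  rw [mu, lintegral_prod_symm' F hF]
  refine lintegral_congr fun p => ?_
  rw [lintegral_count]

theorem shT_mp (α : Equiv.Perm X) (n : ℤ) : MeasurePreserving (shT α n) (mu X) (mu X) := by
  refine ⟨measurable_shT α n, ?_⟩
  refine Measure.ext_of_lintegral _ fun F hF => ?_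
  have hFs : Measurable (fun q => F (shT α n q)) := hF.comp (measurable_shT α n)
  rw [lintegral_map hF (measurable_shT α n), lint_mu _ hFs, lint_mu _ hF]
  have hK : Measurable (fun p : ℝ × ℝ => ∑' s, F (s, p)) := by
    refine Measurable.tsum fun s => ?_
    exact hF.comp (measurable_const.prodMk measurable_id)
  have h1 : ∀ p : ℝ × ℝ, ∑' s, F (shT α n (s, p))
      = ∑' s, F (s, (Int.fract (p.1 + (n : ℝ) * p.2), p.2)) := by
    intro p
    simp only [shT]
    exact (Equiv.tsum_eq (α ^ ⌊p.1 + (n : ℝ) * p.2⌋)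
      (fun s => F (s, (Int.fract (p.1 + (n : ℝ) * p.2), p.2))))
  have h2 : ∫⁻ p in unitSq, ∑' s, F (shT α n (s, p))
      = ∫⁻ p in unitSq, (fun p : ℝ × ℝ => ∑' s, F (s, p)) (Int.fract (p.1 + (n : ℝ) * p.2), p.2) :=
    lintegral_congr fun p => h1 p
  have hm : Measurable (fun p : ℝ × ℝ => (Int.fract (p.1 + (n : ℝ) * p.2), p.2)) := by
    have hfun : Measurable (fun q : ℝ × ℝ => q.1 + (n : ℝ) * q.2) := by fun_prop
    exact (measurable_fract.comp hfun).prodMk measurable_snd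
  have hKm : Measurable (fun p : ℝ × ℝ => (fun p : ℝ × ℝ => ∑' s, F (s, p))
      (Int.fract (p.1 + (n : ℝ) * p.2), p.2)) := hK.comp hm
  rw [h2, unitSq, Measure.volume_eq_prod,
    setLIntegral_prod_symm _ hKm.aemeasurable, setLIntegral_prod_symm _ hK.aemeasurable]
  refine lintegral_congr fun y => ?_
  exact rot (fun x => ∑' s, F (s, (x, y))) ((n : ℝ) * y)

theorem shT_inv_ae (α : Equiv.Perm X) (n : ℤ) : ∀ᵐ q ∂(mu X), shT α (-n) (shT α n q) = q := by
  have hm : MeasurableSet {q : Sq X | 0 ≤ q.2.1 ∧ q.2.1 < 1} := by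
    have hf : Measurable (fun q : Sq X => q.2.1) := by fun_prop
    exact (measurableSet_le measurable_const hf).inter (measurableSet_lt hf measurable_const)
  have h : ∀ᵐ q ∂(mu X), q ∈ {q : Sq X | 0 ≤ q.2.1 ∧ q.2.1 < 1} := by
    rw [ae_iff]
    rw [mu]
    have : {a : Sq X | a ∉ {q : Sq X | 0 ≤ q.2.1 ∧ q.2.1 < 1}}
        = (univ : Set X) ×ˢ {p : ℝ × ℝ | ¬ (0 ≤ p.1 ∧ p.1 < 1)} := by
      ext q; simp
    rw [this, Measure.prod_prod]
    have h0 : ((volume : Measure (ℝ × ℝ)).restrict unitSq) {p : ℝ × ℝ | ¬ (0 ≤ p.1 ∧ p.1 < 1)} = 0 := by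
      rw [Measure.restrict_apply']
      · have : {p : ℝ × ℝ | ¬ (0 ≤ p.1 ∧ p.1 < 1)} ∩ unitSq = ∅ := by
          ext p
          simp only [mem_empty_iff_false, iff_false]
          rintro ⟨h1, h2⟩
          exact h1 ⟨h2.1.1.le, h2.1.2⟩
        rw [this, measure_empty]
      · exact measurableSet_Ioo.prod measurableSet_Ioo
    rw [h0, mul_zero]
  filter_upwards [h] with q hq
  exact shT_inv α n q hq.1 hq.2

end Pool.Agent.Helper96.OF
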