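import Pool.Agent.Helper80.OF.S0
import Pool.Agent.Helper80.OF.SH1
import Pool.Agent.Helper80.OF.SH2

/-!
# OFS-SH3: the shear maps H1 onto H1
-/

set_option autoImplicit false

open MeasureTheory Filter Topology

namespace Pool.Agent.Helper96.OF

variable {X : Type} [Countable X] [MeasurableSpace X] [DiscreteMeasurableSpace X]
  {α β : Equiv.Perm X}

private theorem U3_trip_shN (n : ℤ) {f : X → ℝ × ℝ → ℂ} {c : X → ℂ}
    (hf : Nice α (β * α ^ (-n)) f c) (hs : FinS f) :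
    U3 (shT α n) (shT_mp α n) (n : ℝ) (trip f) = trip (shN β n f) := by
  have hfx := nice_dx hf
  have hfy := nice_dy hf
  obtain ⟨sx, sy⟩ := finS_dx hs
  have m0 : MemLp (fl f) 2 (mu X) := nice_memLp hf hs 2
  have m1 : MemLp (fl (dx f)) 2 (mu X) := nice_memLp hfx sx 2
  have m2 : MemLp (fl (dy f)) 2 (mu X) := nice_memLp hfy sy 2
  have hT := shT_mp (X := X) α n
  have e0 : Uc (shT α n) hT (cls (fl f)) = cls (fl (shN β n f)) := by
    rw [Uc_cls hT m0]
    apply cls_congr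
    apply ae_mu_of
    intro s p hp
    exact ((shN_unitSq n hf s p hp).1).symm
  have e1 : Uc (shT α n) hT (cls (fl (dx f))) = cls (fl (dx (shN β n f))) := by
    rw [Uc_cls hT m1]
    apply cls_congr
    apply ae_mu_of
    intro s p hp
    exact ((shN_unitSq n hf s p hp).2.1).symm
  have e2 : (n : ℂ) • Uc (shT α n) hT (cls (fl (dx f))) + Uc (shT α n) hT (cls (fl (dy f)))
      = cls (fl (dy (shN β n f))) := by
    have hm1 : MemLp (fun q => fl (dx f) (shT α n q)) 2 (mu X) := memLp_T hT m1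
    have hm2 : MemLp (fun q => fl (dy f) (shT α n q)) 2 (mu X) := memLp_T hT m2
    rw [Uc_cls hT m1, Uc_cls hT m2, ← cls_smul hm1, ← cls_add (hm1.const_mul _) hm2]
    apply cls_congr
    apply ae_mu_of
    intro s p hp
    exact ((shN_unitSq n hf s p hp).2.2).symm
  have t0 : (trip f) 0 = cls (fl f) := rfl
  have t1 : (trip f) 1 = cls (fl (dx f)) := rfl
  have t2 : (trip f) 2 = cls (fl (dy f)) := rfl
  unfold U3
  rw [t0, t1, t2]
  unfold trip
  congr 1
  funext i
  fin_cases i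
  · exact e0
  · exact e1
  · have : (((n:ℤ):ℝ) : ℂ) = (n : ℂ) := by push_cast; rfl
    simp only [Fin.reduceFinMk, Matrix.cons_val]
    rw [this]
    exact e2

theorem shear_into (n : ℤ) {v : K3 X} (hv : v ∈ H1 α (β * α ^ (-n))) :
    U3 (shT α n) (shT_mp α n) (n : ℝ) v ∈ H1 α β := by
  obtain ⟨f, c, hf, hlim⟩ := (mem_H1_iff v).1 hv
  have hc : Tendsto (fun k => U3 (shT α n) (shT_mp α n) (n : ℝ) (trip (f k))) atTop
      (𝓝 (U3 (shT α n) (shT_mp α n) (n : ℝ) v)) :=
    ((continuous_U3 (shT_mp α n) (n : ℝ)).tendsto v).comp hlim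
  refine H1_closed.mem_of_tendsto hc ?_
  filter_upwards with k
  rw [U3_trip_shN n (hf k).1 (hf k).2]
  exact trip_mem (nice_shN n (hf k).1) (finS_shN n (hf k).1 (hf k).2)

theorem shear_onto (n : ℤ) {v : K3 X} (hv : v ∈ H1 α β) :
    ∃ v' ∈ H1 α (β * α ^ (-n)), U3 (shT α n) (shT_mp α n) (n : ℝ) v' = v := by
  have hv2 : v ∈ H1 α ((β * α ^ (-n)) * α ^ (-(-n))) := by
    have : (β * α ^ (-n)) * α ^ (-(-n)) = β := by
      rw [mul_assoc, ← zpow_add]; simp
    rw [this]; exact hv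
  refine ⟨U3 (shT α (-n)) (shT_mp α (-n)) ((-n : ℤ) : ℝ) v, shear_into (-n) hv2, ?_⟩
  have h := shT_inv_ae (X := X) α n
  have := U3_comp_id (shT_mp α n) (shT_mp α (-n)) h (n : ℝ) v
  have e : (((-n : ℤ)) : ℝ) = -(n : ℝ) := by push_cast; rfl
  rw [e]
  exact this

end Pool.Agent.Helper96.OF
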